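import Pool.Agent.Lib.MP_e2be92_co.Prox


set_option autoImplicit false
open Matrix MeasureTheory Set Filter Topology

namespace Pool.Agent.MS

variable {ι κ : Type} [Fintype ι] [DecidableEq ι] [Fintype κ] [DecidableEq κ]
variable {B : ι → Matrix κ κ ℝ} {b c : ℝ} {T : (ι → ℝ) → (ι → ℝ)}

lemma IsProx.Rpos (hT : IsProx B b c T) (g : ι → ℝ) : (Rm B b (T g)).PosDef := (hT.pos g).inv

lemma IsProx.Rinv (hT : IsProx B b c T) (g : ι → ℝ) :
    Rm B b (T g) * (b • (1 : Matrix κ κ ℝ) - Xm B (T g)) = 1 :=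
  Matrix.nonsing_inv_mul _ ((Matrix.isUnit_iff_isUnit_det _).1 (hT.pos g).isUnit)

lemma IsProx.norm_le (hT : IsProx B b c T) (g : ι → ℝ) : T g ⬝ᵥ T g ≤ g ⬝ᵥ g := by
  have h := hT.mono g
  have h2 := dot_self_nonneg (Fv B c (Rm B b (T g)))
  conv_rhs => rw [← hT.eqn g]
  rw [add_dotProduct, dotProduct_add, dotProduct_add, dotProduct_comm (Fv B c _) (T g)]
  linarith

lemma IsProx.dot_le (hT : IsProx B b c T) (g : ι → ℝ) :
    4 * (T g ⬝ᵥ Fv B c (Rm B b (T g))) ≤ g ⬝ᵥ g := by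
  have h2 := dot_self_nonneg (T g - Fv B c (Rm B b (T g)))
  conv_rhs => rw [← hT.eqn g]
  rw [sub_dotProduct, dotProduct_sub, dotProduct_sub, dotProduct_comm (Fv B c _) (T g)] at h2
  rw [add_dotProduct, dotProduct_add, dotProduct_add, dotProduct_comm (Fv B c _) (T g)]
  linarith

omit [DecidableEq ι] in
lemma dot_Fv (R : Matrix κ κ ℝ) (x : ι → ℝ) : x ⬝ᵥ Fv B c R = 4 * c * trace (R ^ 5 * Xm B x) := by
  simp only [dotProduct, Fv, Xm, Matrix.mul_sum, trace_sum, Matrix.mul_smul, trace_smul, smul_eq_mul,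
    Finset.mul_sum]
  exact Finset.sum_congr rfl fun i _ => by ring

lemma IsProx.trace_le (hT : IsProx B b c T) (hc : 0 < c) (hb : 0 < b) (g : ι → ℝ) :
    c * trace (Rm B b (T g) ^ 5) ≤ g ⬝ᵥ g / (8 * b) + 32 * c * Fintype.card κ / b ^ 5 := by
  set R := Rm B b (T g) with hR
  have h1 := hT.dot_le g
  rw [dot_Fv, ← hR] at h1
  have h2 : R ^ 5 * Xm B (T g) = b • R ^ 5 - R ^ 4 := by
    have h := hT.Rinv g
    rw [← hR, Matrix.mul_sub, Matrix.mul_smul, Matrix.mul_one] at h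
    have h' : R * Xm B (T g) = b • R - 1 := by rw [← h]; abel
    rw [pow_succ R 4, Matrix.mul_assoc, h', Matrix.mul_sub, Matrix.mul_smul, Matrix.mul_one]
  rw [h2, trace_sub, trace_smul, smul_eq_mul] at h1
  have h3 := trace_four_le (hT.Rpos g) hb
  rw [← hR] at h3
  have h4 : 8 * b * (c * trace (R ^ 5)) ≤ g ⬝ᵥ g + 16 * c * (Fintype.card κ * (2 / b) ^ 4) := by
    nlinarith
  have h5 : g ⬝ᵥ g / (8 * b) + 32 * c * Fintype.card κ / b ^ 5 =
      (g ⬝ᵥ g + 16 * c * (Fintype.card κ * (2 / b) ^ 4)) / (8 * b) := by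
    field_simp; ring
  rw [h5, le_div_iff₀ (by positivity)]
  linarith

lemma IsProx.entry_bound (hT : IsProx B b c T) (hc : 0 < c) (hb : 0 < b) :
    ∃ C : ℝ, 0 ≤ C ∧ ∀ t ∈ Icc (0:ℝ) 1, ∀ g a e, |Rm B b (T (t • g)) a e| ≤ C * (1 + g ⬝ᵥ g) := by
  refine ⟨Fintype.card κ + 1 / (8 * b * c) + 32 * Fintype.card κ / b ^ 5, by positivity, ?_⟩
  intro t ht g a e
  have h1 := entry_le (hT.Rpos (t • g)) a e
  have h2 := hT.trace_le hc hb (t • g)
  have h0 := dot_self_nonneg g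
  have h3 : (t • g) ⬝ᵥ (t • g) ≤ g ⬝ᵥ g := by
    rw [smul_dotProduct, dotProduct_smul, smul_eq_mul, smul_eq_mul]
    have : t * t ≤ 1 := mul_le_one₀ ht.2 ht.1 ht.2
    nlinarith
  have h4 : trace (Rm B b (T (t • g)) ^ 5) ≤ g ⬝ᵥ g / (8 * b * c) + 32 * Fintype.card κ / b ^ 5 := by
    have : g ⬝ᵥ g / (8 * b * c) + 32 * Fintype.card κ / b ^ 5 =
        (g ⬝ᵥ g / (8 * b) + 32 * c * Fintype.card κ / b ^ 5) / c := by field_simp
    rw [this, le_div_iff₀ hc]
    have : (t • g) ⬝ᵥ (t • g) / (8 * b) ≤ g ⬝ᵥ g / (8 * b) := by gcongr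
    linarith
  have e1 : g ⬝ᵥ g / (8 * b * c) = 1 / (8 * b * c) * (g ⬝ᵥ g) := by ring
  have p1 : 0 ≤ 1 / (8 * b * c) := by positivity
  have p2 : 0 ≤ 32 * (Fintype.card κ : ℝ) / b ^ 5 := by positivity
  have p3 : (0:ℝ) ≤ Fintype.card κ := by positivity
  nlinarith [mul_nonneg p2 h0, mul_nonneg p3 h0]

omit [DecidableEq ι] [DecidableEq κ] in
lemma PG_mul_apply {F G : (ι → ℝ) → Matrix κ κ ℝ} (hF : ∀ a e, PG fun g => F g a e)
    (hG : ∀ a e, PG fun g => G g a e) (a e : κ) : PG fun g => (F g * G g) a e := by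
  simp only [Matrix.mul_apply]
  exact PG.sum _ fun f _ => (hF a f).mul (hG f e)

lemma entry_le_one_of_contr {U : Matrix ι ι ℝ} (h : ∀ y, (U *ᵥ y) ⬝ᵥ (U *ᵥ y) ≤ y ⬝ᵥ y) (i l : ι) :
    |U i l| ≤ 1 := by
  have h1 := h (Pi.single l 1)
  have h2 := sq_le_dot (U *ᵥ Pi.single l 1) i
  simp only [mulVec_single_one, col_apply, single_dotProduct, Pi.single_eq_same, mul_one] at h1 h2
  exact abs_le_one_iff_mul_self_le_one.2 (by nlinarith)

lemma smul_dot_le {t : ℝ} (ht : t ∈ Icc (0:ℝ) 1) (g : ι → ℝ) : (t • g) ⬝ᵥ (t • g) ≤ g ⬝ᵥ g := by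
  have h0 := dot_self_nonneg g
  rw [smul_dotProduct, dotProduct_smul, smul_eq_mul, smul_eq_mul]
  have : t * t ≤ 1 := mul_le_one₀ ht.2 ht.1 ht.2
  nlinarith

lemma IsProx.deriv_smul (hT : IsProx B b c T) (t : ℝ) (g : ι → ℝ) :
    HasFDerivAt (fun g => T (t • g)) (matL (t • Pm B c (Rm B b (T (t • g))))) g := by
  have h1 : HasFDerivAt (fun g : ι → ℝ => t • g) (t • ContinuousLinearMap.id ℝ (ι → ℝ)) g :=
    (hasFDerivAt_id g).const_smul t
  refine ((hT.deriv (t • g)).comp g h1).congr_fderiv ?_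
  ext y i
  simp [Matrix.mulVec_smul, Matrix.smul_mulVec]

theorem IsProx.fam (hB : Setup B c) (hT : IsProx B b c T) (hb : 0 < b) {t : ℝ} (ht : t ∈ Icc (0:ℝ) 1) :
    Fam B b c (fun g => T (t • g)) (fun g => Rm B b (T (t • g)))
      (fun g => t • Pm B c (Rm B b (T (t • g)))) := by
  have hcon : ∀ g y, ((t • Pm B c (Rm B b (T (t • g)))) *ᵥ y) ⬝ᵥ ((t • Pm B c (Rm B b (T (t • g)))) *ᵥ y)
      ≤ y ⬝ᵥ y := by
    intro g y
    rw [Matrix.smul_mulVec]
    exact (smul_dot_le ht _).trans (Pm_contr hB (hT.Rpos _) y)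
  have hU : ∀ i l, PG fun g => (t • Pm B c (Rm B b (T (t • g)))) i l := fun i l =>
    (PG.const 1).of_le fun g => by simpa using entry_le_one_of_contr (hcon g) i l
  obtain ⟨C, hC0, hC⟩ := hT.entry_bound hB.cpos hb
  have hRg : ∀ a e, PG fun g => Rm B b (T (t • g)) a e := fun a e =>
    ⟨C, 1, fun g => by simpa using hC t ht g a e⟩
  have hcont : Continuous fun g => T (t • g) :=
    continuous_iff_continuousAt.2 fun g => (hT.deriv_smul t g).continuousAt
  refine ⟨fun g => hT.Rpos _, fun g => hT.Rinv _, fun g => ?_, hcon, fun g y => ?_, fun i => ?_,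
    fun a e => ?_, fun i => ?_⟩
  · rw [transpose_smul, Pm_transpose hB (hT.Rpos _)]
  · rw [Matrix.smul_mulVec, ← Matrix.mulVec_smul]
    exact (Pm_D2 hB (hT.Rpos _) _).trans (smul_dot_le ht y)
  · refine ⟨fun g => ?_, ⟨1, 1, fun g => ?_⟩, fun l => hU i l⟩
    · refine ((hasFDerivAt_pi'.1 (hT.deriv_smul t g)) i).congr_fderiv ?_
      ext y
      simp [Matrix.mulVec]
    · have h1 := sq_le_dot (T (t • g)) i
      have h2 := (hT.norm_le (t • g)).trans (smul_dot_le ht g)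
      rw [one_mul, pow_one, abs_le]
      constructor <;> nlinarith [sq_nonneg (T (t • g) i + 1), sq_nonneg (T (t • g) i - 1)]
  · refine ⟨fun g => ?_, hRg a e, fun l => ?_⟩
    · refine ((hasFDerivAt_Rm B b (T (t • g)) (hT.pos _) a e).comp g (hT.deriv_smul t g)).congr_fderiv ?_
      ext y
      simp only [ContinuousLinearMap.comp_apply, dotL_apply, matL_apply, dotProduct, Matrix.mulVec, Xm,
        Matrix.mul_sum, Matrix.sum_mul, Matrix.mul_smul, Matrix.smul_mul, Matrix.sum_apply,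
        Matrix.smul_apply, smul_eq_mul, Finset.mul_sum, Finset.sum_mul]
      rw [Finset.sum_comm]
      exact Finset.sum_congr rfl fun l _ => Finset.sum_congr rfl fun j _ => by ring
    · refine PG_mul_apply (fun a e => PG_mul_apply hRg (fun a e => ?_) a e) hRg a e
      simp only [Xm, Matrix.sum_apply, Matrix.smul_apply (α := ℝ) (β := ℝ) _ (B _), smul_eq_mul]
      exact PG.sum _ fun j _ => (hU j l).mul (PG.const _)
  · refine integral_odd ((continuous_apply i).comp hcont) fun g => ?_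
    rw [smul_neg, hT.odd]; rfl

omit [DecidableEq κ] in
lemma form_le_sum_abs (E : Matrix κ κ ℝ) (u : κ → ℝ) :
    u ⬝ᵥ (E *ᵥ u) ≤ (∑ a, ∑ e, |E a e|) * (u ⬝ᵥ u) := by
  simp only [Finset.sum_mul]
  rw [dotProduct]
  refine Finset.sum_le_sum fun a _ => ?_
  rw [Matrix.mulVec, dotProduct, Finset.mul_sum]
  refine Finset.sum_le_sum fun e _ => ?_
  have h1 := sq_le_dot u a
  have h2 := sq_le_dot u e
  have h3 : |u a * u e| ≤ u ⬝ᵥ u := by
    rw [abs_le]; constructor <;> nlinarith [sq_nonneg (u a + u e), sq_nonneg (u a - u e)]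
  calc u a * (E a e * u e) = E a e * (u a * u e) := by ring
    _ ≤ |E a e * (u a * u e)| := le_abs_self _
    _ = |E a e| * |u a * u e| := abs_mul _ _
    _ ≤ _ := mul_le_mul_of_nonneg_left h3 (abs_nonneg _)

omit [DecidableEq κ] in
/-- Continuity method for a continuous family of quadratic forms. -/
lemma continuity_method {M : ℝ → Matrix κ κ ℝ} (hM : ∀ a e, ContinuousOn (fun t => M t a e) (Icc 0 1))
    (h0 : ∀ u : κ → ℝ, u ⬝ᵥ (M 0 *ᵥ u) ≤ 1 / 2 * (u ⬝ᵥ u))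
    (hs : ∀ t ∈ Icc (0:ℝ) 1, (∀ u : κ → ℝ, u ⬝ᵥ (M t *ᵥ u) ≤ u ⬝ᵥ u) →
      ∀ u : κ → ℝ, u ⬝ᵥ (M t *ᵥ u) ≤ 1 / 2 * (u ⬝ᵥ u)) :
    ∀ u : κ → ℝ, u ⬝ᵥ (M 1 *ᵥ u) ≤ 1 / 2 * (u ⬝ᵥ u) := by
  set s : Set ℝ := {t | ∀ u : κ → ℝ, u ⬝ᵥ (M t *ᵥ u) ≤ 1 / 2 * (u ⬝ᵥ u)} with hsdef
  have hform : ∀ u : κ → ℝ, ContinuousOn (fun t => u ⬝ᵥ (M t *ᵥ u)) (Icc 0 1) := by
    intro u
    simp only [dotProduct, Matrix.mulVec]
    exact continuousOn_finsetSum _ fun a _ => continuousOn_const.mul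
      (continuousOn_finsetSum _ fun e _ => (hM a e).mul continuousOn_const)
  have hcl : IsClosed (s ∩ Icc 0 1) := by
    have : s ∩ Icc 0 1 = Icc 0 1 ∩ ⋂ u : κ → ℝ,
        (Icc 0 1 ∩ (fun t => u ⬝ᵥ (M t *ᵥ u)) ⁻¹' Iic (1 / 2 * (u ⬝ᵥ u))) := by
      ext t
      simp only [hsdef, mem_inter_iff, mem_setOf_eq, mem_iInter, mem_preimage, mem_Iic]
      exact ⟨fun h => ⟨h.2, fun u => ⟨h.2, h.1 u⟩⟩, fun h => ⟨fun u => (h.2 u).2, h.1⟩⟩
    rw [this]
    exact isClosed_Icc.inter (isClosed_iInter fun u =>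
      (hform u).preimage_isClosed_of_isClosed isClosed_Icc isClosed_Iic)
  have key : Icc (0:ℝ) 1 ⊆ s := by
    refine hcl.Icc_subset_of_forall_mem_nhdsWithin h0 fun x hx => ?_
    have hxI : x ∈ Icc (0:ℝ) 1 := Ico_subset_Icc_self hx.2
    have hI : Icc (0:ℝ) 1 ∈ 𝓝[>] x := Icc_mem_nhdsGT_of_mem hx.2
    have he : ContinuousWithinAt (fun t => ∑ a, ∑ e, |(M t - M x) a e|) (Icc 0 1) x := by
      refine (continuousOn_finsetSum _ fun a _ => continuousOn_finsetSum _ fun e _ => ?_ :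
        ContinuousOn (fun t => ∑ a, ∑ e, |(M t - M x) a e|) (Icc 0 1)) x hxI
      exact ((hM a e).sub continuousOn_const).abs
    have hev : ∀ᶠ t in 𝓝[Icc 0 1] x, ∑ a, ∑ e, |(M t - M x) a e| < 1 / 2 :=
      he.eventually (gt_mem_nhds (by simp))
    have hev' : ∀ᶠ t in 𝓝[>] x, ∑ a, ∑ e, |(M t - M x) a e| < 1 / 2 :=
      (nhdsWithin_le_iff.2 hI) hev
    filter_upwards [hev', hI] with t ht htI
    refine hs t htI fun u => ?_
    have h1 := form_le_sum_abs (M t - M x) u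
    rw [Matrix.sub_mulVec, dotProduct_sub] at h1
    have h2 := hx.1 u
    have h3 := dot_self_nonneg u
    nlinarith
  exact key ⟨zero_le_one, le_rfl⟩

omit [DecidableEq κ] in
lemma form_sq {R : Matrix κ κ ℝ} (hR : Rᵀ = R) (u : κ → ℝ) :
    u ⬝ᵥ ((R * R) *ᵥ u) = (R *ᵥ u) ⬝ᵥ (R *ᵥ u) := by
  rw [← Matrix.mulVec_mulVec, Matrix.dotProduct_mulVec, ← Matrix.mulVec_transpose, hR]

theorem IsProx.op_bound (hB : Setup B c) (hT : IsProx B b c T) (hb : 10 ≤ b) (u : κ → ℝ) :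
    ∫ g, (Rm B b (T g) *ᵥ u) ⬝ᵥ (Rm B b (T g) *ᵥ u) ∂gam ι ≤ u ⬝ᵥ u := by
  have hb0 : 0 < b := by linarith
  set M : ℝ → Matrix κ κ ℝ := fun t => EM fun g => Rm B b (T (t • g)) * Rm B b (T (t • g)) with hM
  have hform : ∀ t ∈ Icc (0:ℝ) 1, ∀ u : κ → ℝ, u ⬝ᵥ (M t *ᵥ u) =
      ∫ g, (Rm B b (T (t • g)) *ᵥ u) ⬝ᵥ (Rm B b (T (t • g)) *ᵥ u) ∂gam ι := by
    intro t ht u
    have hF := hT.fam hB hb0 ht
    rw [hM, EM_form fun a e => ((hF.gR.mul hF.gR) a e).integrable]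
    simp only [form_sq (posDef_transpose_eq (hT.Rpos _))]
  obtain ⟨C, hC0, hC⟩ := hT.entry_bound hB.cpos hb0
  have hRc : ∀ a e, Continuous fun g => Rm B b (T g) a e := by
    intro a e
    have := ((hT.fam hB hb0 ⟨zero_le_one, le_rfl⟩).gR a e).continuous
    simpa using this
  have h := continuity_method (M := M) ?_ ?_ ?_ u
  · rw [hform 1 ⟨zero_le_one, le_rfl⟩] at h
    simp only [one_smul] at h
    have := dot_self_nonneg u
    linarith
  · intro a e
    refine continuousOn_of_dominated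
      (bound := fun g => Fintype.card κ * (C * C) * (1 + g ⬝ᵥ g) ^ 2) ?_ ?_ ?_ ?_
    · intro t ht
      have hF := hT.fam hB hb0 ht
      exact ((hF.gR.mul hF.gR) a e).continuous.aestronglyMeasurable
    · intro t ht
      refine Eventually.of_forall fun g => ?_
      beta_reduce
      rw [Matrix.mul_apply, Real.norm_eq_abs]
      refine (Finset.abs_sum_le_sum_abs _ _).trans ?_
      have : ∀ f ∈ (Finset.univ : Finset κ), |Rm B b (T (t • g)) a f * Rm B b (T (t • g)) f e| ≤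
          (C * C) * (1 + g ⬝ᵥ g) ^ 2 := by
        intro f _
        rw [abs_mul]
        calc _ ≤ (C * (1 + g ⬝ᵥ g)) * (C * (1 + g ⬝ᵥ g)) :=
              mul_le_mul (hC t ht g a f) (hC t ht g f e) (abs_nonneg _)
                ((abs_nonneg _).trans (hC t ht g a f))
          _ = _ := by ring
      refine (Finset.sum_le_card_nsmul _ _ _ this).trans (le_of_eq ?_)
      rw [Finset.card_univ, nsmul_eq_mul]; ring
    · exact (integrable_pow_gam 2).const_mul _
    · refine Eventually.of_forall fun g => Continuous.continuousOn ?_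
      simp only [Matrix.mul_apply]
      have hs : Continuous fun t : ℝ => t • g := by fun_prop
      exact continuous_finsetSum _ fun f _ => ((hRc a f).comp hs).mul ((hRc f e).comp hs)
  · intro u
    rw [hform 0 ⟨le_rfl, zero_le_one⟩]
    simp only [zero_smul, integral_const, probReal_univ, one_smul]
    have h0 : T 0 = 0 := by
      have := hT.odd 0
      rw [neg_zero] at this
      funext i
      have := congrFun this i
      simp only [Pi.neg_apply, Pi.zero_apply] at this ⊢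
      linarith
    have h1 := hT.Rinv 0
    rw [h0] at h1 ⊢
    have hX : Xm B 0 = 0 := by simp [Xm]
    rw [hX, sub_zero, Matrix.mul_smul, Matrix.mul_one] at h1
    have h2 : b • (Rm B b 0 *ᵥ u) = u := by rw [← Matrix.smul_mulVec, h1, Matrix.one_mulVec]
    have h3 : u ⬝ᵥ u = b * b * ((Rm B b 0 *ᵥ u) ⬝ᵥ (Rm B b 0 *ᵥ u)) := by
      conv_lhs => rw [← h2]
      rw [smul_dotProduct, dotProduct_smul, smul_eq_mul, smul_eq_mul]; ring
    have h4 := dot_self_nonneg (Rm B b 0 *ᵥ u)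
    rw [h3]
    nlinarith [mul_nonneg (by nlinarith : (0:ℝ) ≤ b * b - 2) h4]
  · intro t ht hm u
    have hF := hT.fam hB hb0 ht
    have h1 := boot1 hB hF (fun u => by rw [← hform t ht u]; exact hm u) u
    rw [← hform t ht u] at h1
    have h2 := dot_self_nonneg u
    by_contra hcon
    push Not at hcon
    nlinarith

omit [DecidableEq ι] in
lemma integrable_dot_self : Integrable (fun g : ι → ℝ => g ⬝ᵥ g) (gam ι) :=
  (PG.sum Finset.univ fun i _ => (PG.coord i).mul (PG.coord i)).integrable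
    continuous_dot_self.aestronglyMeasurable

omit [DecidableEq ι] in
lemma exp_neg_le_integral {W : (ι → ℝ) → ℝ} (hWc : Continuous W) (hWi : Integrable W (gam ι))
    (hW0 : ∀ g, 0 ≤ W g) {e0 : ℝ} (hEW : ∫ g, W g ∂gam ι ≤ e0) :
    ENNReal.ofReal (Real.exp (-e0)) ≤
      ∫⁻ g, ENNReal.ofReal (rho g) * ENNReal.ofReal (Real.exp (-W g)) := by
  have hexp : Integrable (fun g => Real.exp (-W g)) (gam ι) := by
    refine (integrable_const (1:ℝ)).mono' (by fun_prop) (Eventually.of_forall fun g => ?_)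
    rw [Real.norm_of_nonneg (Real.exp_pos _).le]
    exact Real.exp_le_one_iff.2 (by linarith [hW0 g])
  have hJ : Real.exp (-e0) ≤ ∫ g, Real.exp (-W g) ∂gam ι := by
    have h3 : ∫ g, Real.exp (-e0) * (1 + e0 - W g) ∂gam ι ≤ ∫ g, Real.exp (-W g) ∂gam ι := by
      refine integral_mono (((integrable_const _).sub hWi).const_mul _) hexp fun g => ?_
      have := Real.add_one_le_exp (e0 - W g)
      have e : Real.exp (-W g) = Real.exp (-e0) * Real.exp (e0 - W g) := by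
        rw [← Real.exp_add]; congr 1; ring
      dsimp only
      rw [e]
      exact mul_le_mul_of_nonneg_left (by linarith) (Real.exp_pos _).le
    rw [integral_const_mul, integral_sub (integrable_const _) hWi] at h3
    simp only [integral_const, probReal_univ, one_smul] at h3
    refine le_trans ?_ h3
    have := Real.exp_pos (-e0)
    nlinarith
  refine (ENNReal.ofReal_le_ofReal hJ).trans ?_
  rw [ofReal_integral_eq_lintegral_ofReal hexp (Eventually.of_forall fun g => (Real.exp_pos _).le),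
    lintegral_gam _ (by fun_prop)]

lemma gam_ge_of_map {T : (ι → ℝ) → (ι → ℝ)} {P : (ι → ℝ) → Matrix ι ι ℝ}
    (hd : ∀ g, HasFDerivAt T (matL (P g)) g) (hinj : InjOn T univ) (hn : ∀ g, T g ⬝ᵥ T g ≤ g ⬝ᵥ g)
    {W : (ι → ℝ) → ℝ} (hP : ∀ g, Real.exp (-W g) ≤ (P g).det)
    {K : Set (ι → ℝ)} (hK : MeasurableSet K) (hsub : T '' univ ⊆ K) :
    ∫⁻ g, ENNReal.ofReal (rho g) * ENNReal.ofReal (Real.exp (-W g)) ≤ gam ι K := by
  rw [gam_apply _ hK]
  refine le_trans ?_ (lintegral_mono_set hsub)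
  rw [lintegral_image_eq_lintegral_abs_det_fderiv_mul volume MeasurableSet.univ
    (fun g _ => (hd g).hasFDerivWithinAt) hinj, Measure.restrict_univ]
  refine lintegral_mono fun g => ?_
  dsimp only
  rw [mul_comm]
  refine mul_le_mul' (ENNReal.ofReal_le_ofReal ?_) (ENNReal.ofReal_le_ofReal (rho_anti (hn g)))
  rw [matL_det]
  exact (hP g).trans (le_abs_self _)

omit [DecidableEq ι] in
lemma MGood.pow_five {R : (ι → ℝ) → Matrix κ κ ℝ} {R' : (ι → ℝ) → ι → Matrix κ κ ℝ}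
    (h : MGood R R') : ∃ F', MGood (fun g => R g ^ 5) F' :=
  ⟨_, ((((h.mul h).mul h).mul h).mul h).congr_fun fun g => by
      simp only [pow_succ, pow_zero, Matrix.one_mul]⟩

lemma Fam.estimate {x : (ι → ℝ) → (ι → ℝ)} {R : (ι → ℝ) → Matrix κ κ ℝ}
    {U : (ι → ℝ) → Matrix ι ι ℝ} (hB : Setup B c) (hF : Fam B b c x R U) (hb0 : 0 < b)
    (hm : ∀ u : κ → ℝ, ∫ g, (R g *ᵥ u) ⬝ᵥ (R g *ᵥ u) ∂gam ι ≤ u ⬝ᵥ u)
    (htr : ∀ g, c * trace (R g ^ 5) ≤ g ⬝ᵥ g / (8 * b) + 32 * c * Fintype.card κ / b ^ 5) :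
    ∃ W : (ι → ℝ) → ℝ, Continuous W ∧ Integrable W (gam ι) ∧ (∀ g, trace (Hm B c (R g)) ≤ W g) ∧
      ∫ g, W g ∂gam ι ≤ 30 * Fintype.card ι / b + 7680 * c * Fintype.card κ / b ^ 5 := by
  have hc := hB.cpos
  have h2 := boot2 hB hF hm
  obtain ⟨F5, g5⟩ := hF.gR.pow_five
  have gT0 := g5.trace
  have gT1 := ((g5.Sm B).mul (hF.gR.mul hF.gR)).trace
  have gW := (gT0.const_mul (100 * c)).add (gT1.const_mul (4 * c))
  refine ⟨_, gW.continuous, gW.integrable, fun g => trace_Hm_le hB (hF.pos g), ?_⟩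
  rw [integral_add (gT0.integrable.const_mul _) (gT1.integrable.const_mul _),
    integral_const_mul, integral_const_mul]
  have h3 : ∫ g, c * trace (R g ^ 5) ∂gam ι ≤
      ∫ g : ι → ℝ, (g ⬝ᵥ g / (8 * b) + 32 * c * Fintype.card κ / b ^ 5) ∂gam ι :=
    integral_mono (gT0.integrable.const_mul _)
      ((integrable_dot_self.div_const _).add (integrable_const _)) htr
  rw [integral_add (integrable_dot_self.div_const _) (integrable_const _), integral_const_mul,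
    integral_div, integral_dot_self] at h3
  simp only [integral_const, probReal_univ, one_smul] at h3
  have p1 : (0:ℝ) ≤ Fintype.card ι / b := by positivity
  have p2 : (0:ℝ) ≤ c * Fintype.card κ / b ^ 5 := by positivity
  have e1 : (Fintype.card ι : ℝ) / (8 * b) = 1 / 8 * (Fintype.card ι / b) := by
    field_simp
  have e2 : 30 * (Fintype.card ι : ℝ) / b + 7680 * c * Fintype.card κ / b ^ 5 =
      30 * (Fintype.card ι / b) + 7680 * (c * Fintype.card κ / b ^ 5) := by ring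
  have e3 : 32 * c * Fintype.card κ / b ^ 5 = 32 * (c * Fintype.card κ / b ^ 5) := by ring
  rw [e1, e3] at h3
  rw [e2]
  have h4 := mul_le_mul_of_nonneg_left h2 hc.le
  linarith

omit [DecidableEq ι] [DecidableEq κ] in
lemma measurableSet_ball (B : ι → Matrix κ κ ℝ) (b : ℝ) :
    MeasurableSet {y : ι → ℝ | ∀ u : κ → ℝ, u ⬝ᵥ (Xm B y *ᵥ u) ≤ b * (u ⬝ᵥ u)} := by
  refine IsClosed.measurableSet ?_
  rw [Set.ofPred_forall]
  refine isClosed_iInter fun u => isClosed_le ?_ continuous_const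
  simp only [dotProduct, Matrix.mulVec, Xm, Matrix.sum_apply, Matrix.smul_apply, smul_eq_mul]
  fun_prop

lemma IsProx.subset (hT : IsProx B b c T) :
    T '' univ ⊆ {y : ι → ℝ | ∀ u : κ → ℝ, u ⬝ᵥ (Xm B y *ᵥ u) ≤ b * (u ⬝ᵥ u)} := by
  rintro _ ⟨g, -, rfl⟩ u
  have := (hT.pos g).posSemidef.dotProduct_mulVec_nonneg u
  simp only [star_trivial, Matrix.sub_mulVec, dotProduct_sub, Matrix.smul_mulVec, Matrix.one_mulVec,
    dotProduct_smul, smul_eq_mul] at this
  linarith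

lemma IsProx.injOn (hT : IsProx B b c T) : InjOn T univ := by
  intro g _ g' _ h
  have h1 := hT.eqn g
  rw [h] at h1
  exact h1.symm.trans (hT.eqn g')

lemma trace_nonneg_of_form {H : Matrix ι ι ℝ} (h : ∀ y : ι → ℝ, 0 ≤ y ⬝ᵥ (H *ᵥ y)) : 0 ≤ trace H := by
  rw [Matrix.trace]
  refine Finset.sum_nonneg fun i _ => ?_
  have := h (Pi.single i 1)
  rw [mulVec_single_one, single_dotProduct, one_mul, col_apply] at this
  rw [diag_apply]
  exact this

lemma trace_Hm_nonneg (hB : Setup B c) {R : Matrix κ κ ℝ} (hR : R.PosDef) : 0 ≤ trace (Hm B c R) :=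
  trace_nonneg_of_form (Hm_nonneg hB hR)

lemma IsProx.fam_one (hB : Setup B c) (hT : IsProx B b c T) (hb0 : 0 < b) :
    Fam B b c T (fun g => Rm B b (T g)) (fun g => Pm B c (Rm B b (T g))) := by
  have := hT.fam hB hb0 ⟨zero_le_one, le_rfl⟩
  simp only [one_smul] at this
  exact this

theorem smallBall0 : SmallBall0 := by
  intro ι κ _ _ _ _ B b c hB hb
  have hb0 : 0 < b := by linarith
  obtain ⟨T, hT⟩ := exists_prox (b := b) hB hb0
  obtain ⟨W, hWc, hWi, hW, hEW⟩ :=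
    (hT.fam_one hB hb0).estimate hB hb0 (hT.op_bound hB hb) (hT.trace_le hB.cpos hb0)
  have hW0 : ∀ g, 0 ≤ W g := fun g => (trace_Hm_nonneg hB (hT.Rpos g)).trans (hW g)
  exact (exp_neg_le_integral hWc hWi hW0 hEW).trans (gam_ge_of_map hT.deriv hT.injOn hT.norm_le
    (fun g => (Real.exp_le_exp.2 (neg_le_neg (hW g))).trans (Pm_det hB (hT.Rpos g)))
    (measurableSet_ball B b) hT.subset)

end Pool.Agent.MS
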