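import Mathlib

-- part Pool.Agent.Lib.MP_e2be92_co.Defs
section

set_option autoImplicit false
open Matrix MeasureTheory

namespace Pool.Agent.MS

section Gauss
variable {ι : Type} [Fintype ι]

/-- The standard Gaussian density on `ι → ℝ`. -/
noncomputable def rho (x : ι → ℝ) : ℝ :=
  (Real.sqrt (2 * Real.pi))⁻¹ ^ Fintype.card ι * Real.exp (-(x ⬝ᵥ x) / 2)

/-- The standard Gaussian measure on `ι → ℝ`. -/
noncomputable def gam (ι : Type) [Fintype ι] : Measure (ι → ℝ) :=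
  volume.withDensity (fun x => ENNReal.ofReal (rho x))

/-- Polynomial growth. -/
def PG (f : (ι → ℝ) → ℝ) : Prop := ∃ (C : ℝ) (k : ℕ), ∀ x, |f x| ≤ C * (1 + x ⬝ᵥ x) ^ k

/-- The linear functional `y ↦ w ⬝ᵥ y`. -/
noncomputable def dotL (w : ι → ℝ) : (ι → ℝ) →L[ℝ] ℝ :=
  ∑ l, w l • (ContinuousLinearMap.proj l : (ι → ℝ) →L[ℝ] ℝ)

/-- `f` is differentiable with gradient `f'`, both of polynomial growth. -/
structure Good (f : (ι → ℝ) → ℝ) (f' : (ι → ℝ) → ι → ℝ) : Prop where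
  grad : ∀ x, HasFDerivAt f (dotL (f' x)) x
  pg : PG f
  pg' : ∀ l, PG (fun x => f' x l)

/-- Entrywise version of `Good`: `F' x l` is the derivative of `F` at `x` along coordinate `l`. -/
def MGood {κ₁ κ₂ : Type} (F : (ι → ℝ) → Matrix κ₁ κ₂ ℝ) (F' : (ι → ℝ) → ι → Matrix κ₁ κ₂ ℝ) : Prop :=
  ∀ a b, Good (fun x => F x a b) (fun x l => F' x l a b)

/-- The continuous linear map of a square matrix. -/
noncomputable def matL (M : Matrix ι ι ℝ) : (ι → ℝ) →L[ℝ] (ι → ℝ) :=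
  LinearMap.toContinuousLinearMap (Matrix.mulVecLin M)

@[simp] lemma dotL_apply (w y : ι → ℝ) : dotL w y = w ⬝ᵥ y := by
  simp [dotL, dotProduct]

@[simp] lemma matL_apply (M : Matrix ι ι ℝ) (y : ι → ℝ) : matL M y = M *ᵥ y := rfl

lemma matL_det [DecidableEq ι] (M : Matrix ι ι ℝ) : (matL M).det = M.det := by
  rw [← LinearMap.det_toLin' M]
  rfl

lemma dot_self_nonneg {κ : Type} [Fintype κ] (x : κ → ℝ) : 0 ≤ x ⬝ᵥ x :=
  Finset.sum_nonneg fun i _ => mul_self_nonneg (x i)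

lemma rho_pos (x : ι → ℝ) : 0 < rho x := by
  unfold rho
  have : 0 < Real.sqrt (2 * Real.pi) := Real.sqrt_pos.2 (by positivity)
  positivity

lemma continuous_dot_self : Continuous fun x : ι → ℝ => x ⬝ᵥ x := by
  unfold dotProduct; fun_prop

lemma continuous_rho : Continuous (rho : (ι → ℝ) → ℝ) := by
  unfold rho
  have := continuous_dot_self (ι := ι)
  fun_prop

lemma rho_neg (x : ι → ℝ) : rho (-x) = rho x := by simp [rho]

lemma rho_anti {x y : ι → ℝ} (h : x ⬝ᵥ x ≤ y ⬝ᵥ y) : rho y ≤ rho x := by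
  unfold rho
  have : 0 < Real.sqrt (2 * Real.pi) := Real.sqrt_pos.2 (by positivity)
  apply mul_le_mul_of_nonneg_left _ (by positivity)
  apply Real.exp_le_exp.2; linarith

lemma rho_eq_prod (x : ι → ℝ) :
    rho x = ∏ i, ((Real.sqrt (2 * Real.pi))⁻¹ * Real.exp (-(1/2) * x i ^ 2)) := by
  rw [Finset.prod_mul_distrib, Finset.prod_const, Finset.card_univ, ← Real.exp_sum, rho]
  congr 2
  simp only [dotProduct, ← Finset.mul_sum, sq]
  ring

lemma measurable_rho' : Measurable fun x : ι → ℝ => ENNReal.ofReal (rho x) :=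
  ENNReal.measurable_ofReal.comp continuous_rho.measurable

lemma integrable_rho : Integrable (rho : (ι → ℝ) → ℝ) := by
  have : (rho : (ι → ℝ) → ℝ) = fun x => ∏ i, ((Real.sqrt (2 * Real.pi))⁻¹ * Real.exp (-(1/2) * x i ^ 2)) :=
    funext rho_eq_prod
  rw [this]
  exact Integrable.fintype_prod (f := fun (_ : ι) (s : ℝ) => (Real.sqrt (2 * Real.pi))⁻¹ * Real.exp (-(1/2) * s ^ 2))
    (fun _ => (integrable_exp_neg_mul_sq (by norm_num : (0:ℝ) < 1/2)).const_mul _)

lemma integral_rho : ∫ x : ι → ℝ, rho x = 1 := by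
  simp_rw [rho_eq_prod]
  rw [integral_fintype_prod_volume_eq_pow (fun s : ℝ => (Real.sqrt (2 * Real.pi))⁻¹ * Real.exp (-(1/2) * s ^ 2))]
  rw [integral_const_mul, integral_gaussian]
  have h : Real.pi / (1/2) = 2 * Real.pi := by ring
  have : 0 < Real.sqrt (2 * Real.pi) := Real.sqrt_pos.2 (by positivity)
  rw [h, inv_mul_cancel₀ this.ne', one_pow]

lemma gam_apply (s : Set (ι → ℝ)) (hs : MeasurableSet s) :
    gam ι s = ∫⁻ x in s, ENNReal.ofReal (rho x) := by
  rw [gam, withDensity_apply _ hs]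

instance : IsProbabilityMeasure (gam ι) := ⟨by
  rw [gam_apply _ MeasurableSet.univ, Measure.restrict_univ,
    ← ofReal_integral_eq_lintegral_ofReal integrable_rho (Filter.Eventually.of_forall fun x => (rho_pos x).le),
    integral_rho, ENNReal.ofReal_one]⟩

lemma lintegral_gam (f : (ι → ℝ) → ENNReal) (hf : Measurable f) :
    ∫⁻ x, f x ∂gam ι = ∫⁻ x, ENNReal.ofReal (rho x) * f x := by
  rw [gam, lintegral_withDensity_eq_lintegral_mul _ measurable_rho' hf]; rfl

lemma integral_gam (f : (ι → ℝ) → ℝ) : ∫ x, f x ∂gam ι = ∫ x, rho x * f x := by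
  rw [gam, integral_withDensity_eq_integral_toReal_smul measurable_rho'
    (Filter.Eventually.of_forall fun x => ENNReal.ofReal_lt_top)]
  simp only [ENNReal.toReal_ofReal (rho_pos _).le, smul_eq_mul]

lemma integrable_gam_iff (f : (ι → ℝ) → ℝ) :
    Integrable f (gam ι) ↔ Integrable (fun x => rho x * f x) := by
  rw [gam, integrable_withDensity_iff_integrable_smul' measurable_rho'
    (Filter.Eventually.of_forall fun x => ENNReal.ofReal_lt_top)]
  simp only [ENNReal.toReal_ofReal (rho_pos _).le, smul_eq_mul]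

lemma one_add_pow_le (k : ℕ) (s : ℝ) (hs : 0 ≤ s) :
    (1 + s) ^ k ≤ (4 ^ k * k.factorial * Real.exp (1/4)) * Real.exp (s / 4) := by
  have h := Real.pow_div_factorial_le_exp (x := (1 + s) / 4) (by positivity) k
  rw [div_le_iff₀ (by positivity), div_pow, div_le_iff₀ (by positivity)] at h
  have e : Real.exp ((1 + s) / 4) = Real.exp (1/4) * Real.exp (s/4) := by
    rw [← Real.exp_add]; congr 1; ring
  rw [e] at h
  calc _ ≤ _ := h
    _ = _ := by ring

lemma integrable_pow_gam (k : ℕ) : Integrable (fun x : ι → ℝ => (1 + x ⬝ᵥ x) ^ k) (gam ι) := by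
  rw [integrable_gam_iff]
  have hI : Integrable (fun x : ι → ℝ => ∏ i, Real.exp (-(1/4) * x i ^ 2)) :=
    Integrable.fintype_prod (f := fun (_ : ι) (s : ℝ) => Real.exp (-(1/4) * s ^ 2))
      (fun _ => integrable_exp_neg_mul_sq (by norm_num : (0:ℝ) < 1/4))
  refine (hI.const_mul ((Real.sqrt (2 * Real.pi))⁻¹ ^ Fintype.card ι * (4 ^ k * k.factorial * Real.exp (1/4)))).mono' ?_ ?_
  · have := continuous_dot_self (ι := ι)
    have := continuous_rho (ι := ι)
    exact Continuous.aestronglyMeasurable (by fun_prop)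
  · refine Filter.Eventually.of_forall fun x => ?_
    have h0 := dot_self_nonneg x
    have h1 := rho_pos x
    rw [Real.norm_of_nonneg (by positivity), ← Real.exp_sum]
    have e : ∑ i, -(1/4 : ℝ) * x i ^ 2 = -(x ⬝ᵥ x) / 2 + x ⬝ᵥ x / 4 := by
      simp only [dotProduct, ← Finset.mul_sum, sq]; ring
    rw [e, Real.exp_add, rho]
    have h2 := one_add_pow_le k _ h0
    have : 0 < Real.sqrt (2 * Real.pi) := Real.sqrt_pos.2 (by positivity)
    calc _ ≤ (Real.sqrt (2 * Real.pi))⁻¹ ^ Fintype.card ι * Real.exp (-(x ⬝ᵥ x) / 2) *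
          ((4 ^ k * k.factorial * Real.exp (1/4)) * Real.exp (x ⬝ᵥ x / 4)) :=
          mul_le_mul_of_nonneg_left h2 (by positivity)
      _ = _ := by ring

lemma PG.integrable {f : (ι → ℝ) → ℝ} (hf : PG f) (hm : AEStronglyMeasurable f (gam ι)) :
    Integrable f (gam ι) := by
  obtain ⟨C, k, h⟩ := hf
  exact ((integrable_pow_gam k).const_mul C).mono' hm (Filter.Eventually.of_forall h)

lemma PG.const (a : ℝ) : PG (fun _ : ι → ℝ => a) := ⟨|a|, 0, fun x => by simp⟩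

lemma PG.of_le {f g : (ι → ℝ) → ℝ} (hg : PG g) (h : ∀ x, |f x| ≤ |g x|) : PG f := by
  obtain ⟨C, k, hg⟩ := hg
  exact ⟨C, k, fun x => (h x).trans (hg x)⟩

lemma PG.add {f g : (ι → ℝ) → ℝ} (hf : PG f) (hg : PG g) : PG (fun x => f x + g x) := by
  obtain ⟨C, k, hf⟩ := hf
  obtain ⟨D, m, hg⟩ := hg
  refine ⟨|C| + |D|, k + m, fun x => ?_⟩
  have h0 := dot_self_nonneg x
  have h1 : (1:ℝ) ≤ 1 + x ⬝ᵥ x := by linarith
  have a1 : (1 + x ⬝ᵥ x) ^ k ≤ (1 + x ⬝ᵥ x) ^ (k + m) := pow_le_pow_right₀ h1 (by omega)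
  have a2 : (1 + x ⬝ᵥ x) ^ m ≤ (1 + x ⬝ᵥ x) ^ (k + m) := pow_le_pow_right₀ h1 (by omega)
  have b1 : C * (1 + x ⬝ᵥ x) ^ k ≤ |C| * (1 + x ⬝ᵥ x) ^ (k + m) :=
    mul_le_mul (le_abs_self C) a1 (by positivity) (abs_nonneg C)
  have b2 : D * (1 + x ⬝ᵥ x) ^ m ≤ |D| * (1 + x ⬝ᵥ x) ^ (k + m) :=
    mul_le_mul (le_abs_self D) a2 (by positivity) (abs_nonneg D)
  have := abs_add_le (f x) (g x)
  have := hf x
  have := hg x
  linarith

lemma PG.mul {f g : (ι → ℝ) → ℝ} (hf : PG f) (hg : PG g) : PG (fun x => f x * g x) := by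
  obtain ⟨C, k, hf⟩ := hf
  obtain ⟨D, m, hg⟩ := hg
  refine ⟨C * D, k + m, fun x => ?_⟩
  rw [abs_mul, pow_add]
  calc _ ≤ (C * (1 + x ⬝ᵥ x) ^ k) * (D * (1 + x ⬝ᵥ x) ^ m) :=
        mul_le_mul (hf x) (hg x) (abs_nonneg _) ((abs_nonneg _).trans (hf x))
    _ = _ := by ring

lemma PG.neg {f : (ι → ℝ) → ℝ} (hf : PG f) : PG (fun x => - f x) := hf.of_le fun x => by simp

lemma PG.sum {α : Type} (s : Finset α) {f : α → (ι → ℝ) → ℝ} (hf : ∀ a ∈ s, PG (f a)) :
    PG (fun x => ∑ a ∈ s, f a x) := by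
  classical
  induction s using Finset.induction_on with
  | empty => simpa using PG.const 0
  | insert a s ha ih =>
    simp only [Finset.sum_insert ha]
    exact (hf a (Finset.mem_insert_self a s)).add (ih fun b hb => hf b (Finset.mem_insert_of_mem hb))

lemma sq_le_dot {κ : Type} [Fintype κ] (x : κ → ℝ) (l : κ) : x l ^ 2 ≤ x ⬝ᵥ x := by
  rw [sq]
  exact Finset.single_le_sum (f := fun i => x i * x i) (fun i _ => mul_self_nonneg (x i)) (Finset.mem_univ l)

lemma PG.coord (l : ι) : PG (fun x : ι → ℝ => x l) := by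
  refine ⟨1, 1, fun x => ?_⟩
  have := sq_le_dot x l
  rw [one_mul, pow_one, abs_le]
  constructor <;> nlinarith [sq_nonneg (x l + 1), sq_nonneg (x l - 1)]

lemma Good.continuous {f : (ι → ℝ) → ℝ} {f' : (ι → ℝ) → ι → ℝ} (h : Good f f') : Continuous f :=
  continuous_iff_continuousAt.2 fun x => (h.grad x).continuousAt

lemma Good.integrable {f : (ι → ℝ) → ℝ} {f' : (ι → ℝ) → ι → ℝ} (h : Good f f') :
    Integrable f (gam ι) := h.pg.integrable h.continuous.aestronglyMeasurable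

lemma Good.measurable' {f : (ι → ℝ) → ℝ} {f' : (ι → ℝ) → ι → ℝ} (h : Good f f') (l : ι) :
    Measurable fun x => f' x l := by
  classical
  have : (fun x => f' x l) = fun x => fderiv ℝ f x (Pi.single l 1) := by
    funext x; rw [(h.grad x).fderiv]; simp
  rw [this]
  exact measurable_fderiv_apply_const ℝ f _

lemma gam_neg : (gam ι).map (fun x => -x) = gam ι := by
  ext s hs
  rw [Measure.map_apply measurable_neg hs, gam_apply _ hs, gam_apply _ (measurable_neg hs)]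
  have h := (Measure.measurePreserving_neg (volume : Measure (ι → ℝ))).setLIntegral_comp_preimage hs
    (measurable_rho' (ι := ι))
  simpa [rho_neg] using h

lemma integral_odd {f : (ι → ℝ) → ℝ} (hf : Continuous f) (h : ∀ x, f (-x) = - f x) :
    ∫ x, f x ∂gam ι = 0 := by
  have h1 : ∫ x, f x ∂gam ι = ∫ x, f (-x) ∂gam ι := by
    conv_lhs => rw [← gam_neg]
    rw [integral_map measurable_neg.aemeasurable hf.aestronglyMeasurable]
  simp only [h, integral_neg] at h1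
  linarith

end Gauss

section Mat
variable {ι κ : Type} [Fintype ι] [Fintype κ]

/-- The linear combination `∑ y i • B i`. -/
def Xm (B : ι → Matrix κ κ ℝ) (y : ι → ℝ) : Matrix κ κ ℝ := ∑ i, y i • B i

/-- Squared Frobenius norm. -/
def fro (M : Matrix κ κ ℝ) : ℝ := ∑ a, ∑ b, M a b ^ 2

/-- The completely positive map `M ↦ ∑ B i * M * B i`. -/
def Sm (B : ι → Matrix κ κ ℝ) (M : Matrix κ κ ℝ) : Matrix κ κ ℝ := ∑ i, B i * M * B i

/-- Derivative of `R ^ 2` when `R` moves by `R * Y * R`. -/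
def D2 (R Y : Matrix κ κ ℝ) : Matrix κ κ ℝ := R * Y * R * R + R * (R * Y * R)

variable [DecidableEq κ]

/-- Derivative of `R ^ 5` when `R` moves by `R * Y * R`. -/
def D5 (R Y : Matrix κ κ ℝ) : Matrix κ κ ℝ :=
  R * Y * R ^ 5 + R ^ 2 * Y * R ^ 4 + R ^ 3 * Y * R ^ 3 + R ^ 4 * Y * R ^ 2 + R ^ 5 * Y * R

/-- Standing hypotheses of the small-ball theorem. -/
structure Setup (B : ι → Matrix κ κ ℝ) (c : ℝ) : Prop where
  symm : ∀ i, (B i)ᵀ = B i
  sig : ∀ u : κ → ℝ, ∑ i, (B i *ᵥ u) ⬝ᵥ (B i *ᵥ u) ≤ u ⬝ᵥ u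
  var : ∀ y : ι → ℝ, fro (Xm B y) ≤ 2 * c * (y ⬝ᵥ y)
  cpos : 0 < c
  flip : ∃ Q : Matrix κ κ ℝ, Q * Qᵀ = 1 ∧ ∀ i, Q * B i * Qᵀ = - B i

/-- The resolvent. -/
noncomputable def Rm (B : ι → Matrix κ κ ℝ) (b : ℝ) (x : ι → ℝ) : Matrix κ κ ℝ :=
  (b • (1 : Matrix κ κ ℝ) - Xm B x)⁻¹

/-- The gradient of the barrier `c * trace (R ^ 4)`. -/
def Fv (B : ι → Matrix κ κ ℝ) (c : ℝ) (R : Matrix κ κ ℝ) : ι → ℝ :=
  fun i => 4 * c * trace (R ^ 5 * B i)

/-- The Hessian of the barrier. -/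
def Hm (B : ι → Matrix κ κ ℝ) (c : ℝ) (R : Matrix κ κ ℝ) : Matrix ι ι ℝ :=
  Matrix.of fun i j => 4 * c * trace (D5 R (B j) * B i)

/-- The derivative of the prox map. -/
noncomputable def Pm [DecidableEq ι] (B : ι → Matrix κ κ ℝ) (c : ℝ) (R : Matrix κ κ ℝ) : Matrix ι ι ℝ :=
  (1 + Hm B c R)⁻¹

/-- What the prox map satisfies. -/
structure IsProx [DecidableEq ι] (B : ι → Matrix κ κ ℝ) (b c : ℝ) (T : (ι → ℝ) → (ι → ℝ)) : Prop where
  pos : ∀ g, (b • (1 : Matrix κ κ ℝ) - Xm B (T g)).PosDef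
  eqn : ∀ g, T g + Fv B c (Rm B b (T g)) = g
  mono : ∀ g, 0 ≤ T g ⬝ᵥ Fv B c (Rm B b (T g))
  odd : ∀ g, T (-g) = - T g
  deriv : ∀ g, HasFDerivAt T (matL (Pm B c (Rm B b (T g)))) g

/-- The data fed to the bootstrap. -/
structure Fam (B : ι → Matrix κ κ ℝ) (b c : ℝ) (x : (ι → ℝ) → (ι → ℝ))
    (R : (ι → ℝ) → Matrix κ κ ℝ) (U : (ι → ℝ) → Matrix ι ι ℝ) : Prop where
  pos : ∀ g, (R g).PosDef
  inv : ∀ g, R g * (b • (1 : Matrix κ κ ℝ) - Xm B (x g)) = 1
  usymm : ∀ g, (U g)ᵀ = U g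
  ucontr : ∀ g y, (U g *ᵥ y) ⬝ᵥ (U g *ᵥ y) ≤ y ⬝ᵥ y
  ud2 : ∀ g y, 8 * c * fro (D2 (R g) (Xm B (U g *ᵥ y))) ≤ y ⬝ᵥ y
  gx : ∀ i, Good (fun g => x g i) (fun g l => U g i l)
  gR : MGood R (fun g l => R g * Xm B (fun j => U g j l) * R g)
  mean : ∀ i, ∫ g, x g i ∂gam ι = 0

end Mat

/-- The core small-ball estimate. -/
def SmallBall0 : Prop :=
  ∀ (ι κ : Type) [Fintype ι] [DecidableEq ι] [Fintype κ] [DecidableEq κ]
    (B : ι → Matrix κ κ ℝ) (b c : ℝ), Setup B c → 10 ≤ b →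
    ENNReal.ofReal (Real.exp (-(30 * Fintype.card ι / b + 7680 * c * Fintype.card κ / b ^ 5))) ≤
      gam ι {y | ∀ u : κ → ℝ, u ⬝ᵥ (Xm B y *ᵥ u) ≤ b * (u ⬝ᵥ u)}

/-- The small-ball estimate for contractions. -/
def SmallBall : Prop :=
  ∀ (ι κ : Type) [Fintype ι] [DecidableEq ι] [Fintype κ] [DecidableEq κ]
    (A : ι → Matrix κ κ ℝ), (∀ i, (A i)ᵀ = A i) →
    (∀ i (u : κ → ℝ), (A i *ᵥ u) ⬝ᵥ (A i *ᵥ u) ≤ u ⬝ᵥ u) →
    (∃ Q : Matrix κ κ ℝ, Q * Qᵀ = 1 ∧ ∀ i, Q * A i * Qᵀ = - A i) →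
    1 ≤ Fintype.card ι → Fintype.card ι ≤ Fintype.card κ →
    ENNReal.ofReal (Real.exp (-(Fintype.card ι : ℝ) / 4)) ≤
      gam ι {y | ∀ u : κ → ℝ, u ⬝ᵥ (Xm A y *ᵥ u) ≤
        300 * (Fintype.card κ : ℝ) ^ (2 / 5 : ℝ) * (Fintype.card ι : ℝ) ^ (1 / 10 : ℝ) * (u ⬝ᵥ u)}

end Pool.Agent.MS
end

-- part Pool.Agent.Lib.MP_e2be92_co.Calc
section

set_option autoImplicit false
open Matrix MeasureTheory

namespace Pool.Agent.MS

variable {ι : Type} [Fintype ι]

lemma Good.congr {f : (ι → ℝ) → ℝ} {f' f'' : (ι → ℝ) → ι → ℝ} (h : Good f f')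
    (e : ∀ x l, f' x l = f'' x l) : Good f f'' := by
  have : f' = f'' := funext fun x => funext fun l => e x l
  exact this ▸ h

lemma Good.congr_fun {f g : (ι → ℝ) → ℝ} {f' : (ι → ℝ) → ι → ℝ} (h : Good f f')
    (e : ∀ x, f x = g x) : Good g f' := by
  have : f = g := funext e
  exact this ▸ h

lemma Good.const (a : ℝ) : Good (fun _ : ι → ℝ => a) (fun _ _ => 0) := by
  refine ⟨fun x => ?_, PG.const a, fun _ => PG.const 0⟩
  convert hasFDerivAt_const a x using 1
  ext y; simp [dotProduct]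

lemma Good.add {f g : (ι → ℝ) → ℝ} {f' g' : (ι → ℝ) → ι → ℝ} (hf : Good f f') (hg : Good g g') :
    Good (fun x => f x + g x) (fun x l => f' x l + g' x l) := by
  refine ⟨fun x => ?_, hf.pg.add hg.pg, fun l => (hf.pg' l).add (hg.pg' l)⟩
  refine ((hf.grad x).add (hg.grad x)).congr_fderiv ?_
  ext y; simp [dotProduct, add_mul, Finset.sum_add_distrib]

lemma Good.mul {f g : (ι → ℝ) → ℝ} {f' g' : (ι → ℝ) → ι → ℝ} (hf : Good f f') (hg : Good g g') :
    Good (fun x => f x * g x) (fun x l => f' x l * g x + f x * g' x l) := by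
  refine ⟨fun x => ?_, hf.pg.mul hg.pg, fun l => ((hf.pg' l).mul hg.pg).add (hf.pg.mul (hg.pg' l))⟩
  refine ((hf.grad x).mul (hg.grad x)).congr_fderiv ?_
  ext y
  simp only [dotL_apply, dotProduct, _root_.add_apply, _root_.smul_apply,
    smul_eq_mul, Finset.mul_sum, ← Finset.sum_add_distrib]
  exact Finset.sum_congr rfl fun l _ => by ring

lemma Good.sum {α : Type} (s : Finset α) {f : α → (ι → ℝ) → ℝ} {f' : α → (ι → ℝ) → ι → ℝ}
    (hf : ∀ a ∈ s, Good (f a) (f' a)) :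
    Good (fun x => ∑ a ∈ s, f a x) (fun x l => ∑ a ∈ s, f' a x l) := by
  classical
  induction s using Finset.induction_on with
  | empty => simpa using Good.const 0
  | insert a s ha ih =>
    simp only [Finset.sum_insert ha]
    exact (hf a (Finset.mem_insert_self a s)).add (ih fun b hb => hf b (Finset.mem_insert_of_mem hb))

lemma Good.const_mul {f : (ι → ℝ) → ℝ} {f' : (ι → ℝ) → ι → ℝ} (a : ℝ) (hf : Good f f') :
    Good (fun x => a * f x) (fun x l => a * f' x l) :=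
  ((Good.const a).mul hf).congr fun x l => by simp

variable {κ₁ κ₂ κ₃ : Type}

lemma MGood.congr {F : (ι → ℝ) → Matrix κ₁ κ₂ ℝ} {F' F'' : (ι → ℝ) → ι → Matrix κ₁ κ₂ ℝ}
    (h : MGood F F') (e : ∀ x l, F' x l = F'' x l) : MGood F F'' := by
  have : F' = F'' := funext fun x => funext fun l => e x l
  exact this ▸ h

lemma MGood.congr_fun {F G : (ι → ℝ) → Matrix κ₁ κ₂ ℝ} {F' : (ι → ℝ) → ι → Matrix κ₁ κ₂ ℝ}
    (h : MGood F F') (e : ∀ x, F x = G x) : MGood G F' := by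
  have : F = G := funext e
  exact this ▸ h

lemma MGood.const (M : Matrix κ₁ κ₂ ℝ) : MGood (fun _ : ι → ℝ => M) (fun _ _ => 0) :=
  fun a b => Good.const (M a b)

lemma MGood.add {F G : (ι → ℝ) → Matrix κ₁ κ₂ ℝ} {F' G' : (ι → ℝ) → ι → Matrix κ₁ κ₂ ℝ}
    (hF : MGood F F') (hG : MGood G G') :
    MGood (fun x => F x + G x) (fun x l => F' x l + G' x l) :=
  fun a b => (hF a b).add (hG a b)

lemma MGood.sum {α : Type} (s : Finset α) {F : α → (ι → ℝ) → Matrix κ₁ κ₂ ℝ}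
    {F' : α → (ι → ℝ) → ι → Matrix κ₁ κ₂ ℝ} (hF : ∀ a ∈ s, MGood (F a) (F' a)) :
    MGood (fun x => ∑ a ∈ s, F a x) (fun x l => ∑ a ∈ s, F' a x l) := by
  intro a b
  simp only [Matrix.sum_apply]
  exact Good.sum s fun i hi => hF i hi a b

lemma MGood.mul [Fintype κ₂] {F : (ι → ℝ) → Matrix κ₁ κ₂ ℝ} {G : (ι → ℝ) → Matrix κ₂ κ₃ ℝ}
    {F' : (ι → ℝ) → ι → Matrix κ₁ κ₂ ℝ} {G' : (ι → ℝ) → ι → Matrix κ₂ κ₃ ℝ}
    (hF : MGood F F') (hG : MGood G G') :
    MGood (fun x => F x * G x) (fun x l => F' x l * G x + F x * G' x l) := by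
  intro a b
  simp only [Matrix.mul_apply, Matrix.add_apply, ← Finset.sum_add_distrib]
  exact Good.sum _ fun e _ => (hF a e).mul (hG e b)

lemma MGood.mul_const [Fintype κ₂] {F : (ι → ℝ) → Matrix κ₁ κ₂ ℝ}
    {F' : (ι → ℝ) → ι → Matrix κ₁ κ₂ ℝ} (hF : MGood F F') (M : Matrix κ₂ κ₃ ℝ) :
    MGood (fun x => F x * M) (fun x l => F' x l * M) :=
  (hF.mul (MGood.const M)).congr fun x l => by simp

lemma MGood.const_mul [Fintype κ₂] {F : (ι → ℝ) → Matrix κ₂ κ₃ ℝ}
    {F' : (ι → ℝ) → ι → Matrix κ₂ κ₃ ℝ} (M : Matrix κ₁ κ₂ ℝ) (hF : MGood F F') :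
    MGood (fun x => M * F x) (fun x l => M * F' x l) :=
  ((MGood.const M).mul hF).congr fun x l => by simp

lemma MGood.trace [Fintype κ₁] {F : (ι → ℝ) → Matrix κ₁ κ₁ ℝ}
    {F' : (ι → ℝ) → ι → Matrix κ₁ κ₁ ℝ} (hF : MGood F F') :
    Good (fun x => trace (F x)) (fun x l => trace (F' x l)) :=
  Good.sum Finset.univ fun a _ => hF a a

lemma MGood.form [Fintype κ₁] [Fintype κ₂] {F : (ι → ℝ) → Matrix κ₁ κ₂ ℝ}
    {F' : (ι → ℝ) → ι → Matrix κ₁ κ₂ ℝ} (hF : MGood F F') (u : κ₁ → ℝ) (v : κ₂ → ℝ) :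
    Good (fun x => u ⬝ᵥ (F x *ᵥ v)) (fun x l => u ⬝ᵥ (F' x l *ᵥ v)) := by
  simp only [dotProduct, Matrix.mulVec]
  refine Good.sum _ fun a _ => Good.const_mul _ (Good.sum _ fun b _ => ?_)
  exact ((hF a b).mul (Good.const (v b))).congr fun x l => by simp

lemma MGood.Sm {κ : Type} [Fintype κ] {ι' : Type} [Fintype ι'] (B : ι' → Matrix κ κ ℝ)
    {F : (ι → ℝ) → Matrix κ κ ℝ} {F' : (ι → ℝ) → ι → Matrix κ κ ℝ} (hF : MGood F F') :
    MGood (fun x => Sm B (F x)) (fun x l => Sm B (F' x l)) :=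
  MGood.sum Finset.univ fun i _ => (MGood.const_mul (B i) hF).mul_const (B i)

/-- Entrywise expectation of a random matrix. -/
noncomputable def EM (F : (ι → ℝ) → Matrix κ₁ κ₂ ℝ) : Matrix κ₁ κ₂ ℝ :=
  Matrix.of fun a b => ∫ x, F x a b ∂gam ι

lemma EM_form [Fintype κ₁] [Fintype κ₂] {F : (ι → ℝ) → Matrix κ₁ κ₂ ℝ}
    (hF : ∀ a b, Integrable (fun x => F x a b) (gam ι)) (u : κ₁ → ℝ) (v : κ₂ → ℝ) :
    u ⬝ᵥ (EM F *ᵥ v) = ∫ x, u ⬝ᵥ (F x *ᵥ v) ∂gam ι := by
  simp only [dotProduct, Matrix.mulVec, EM, Matrix.of_apply]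
  rw [integral_finsetSum _ fun a _ => Integrable.const_mul
    (integrable_finsetSum _ fun b _ => (hF a b).mul_const _) _]
  refine Finset.sum_congr rfl fun a _ => ?_
  rw [integral_const_mul, integral_finsetSum _ fun b _ => (hF a b).mul_const _]
  simp only [integral_mul_const]

lemma EM_trace [Fintype κ₁] {F : (ι → ℝ) → Matrix κ₁ κ₁ ℝ}
    (hF : ∀ a b, Integrable (fun x => F x a b) (gam ι)) :
    trace (EM F) = ∫ x, trace (F x) ∂gam ι := by
  simp only [Matrix.trace, Matrix.diag, EM, Matrix.of_apply]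
  rw [integral_finsetSum _ fun a _ => hF a a]

lemma EM_Sm {κ : Type} [Fintype κ] {ι' : Type} [Fintype ι'] (B : ι' → Matrix κ κ ℝ)
    {F : (ι → ℝ) → Matrix κ κ ℝ} (hF : ∀ a b, Integrable (fun x => F x a b) (gam ι)) :
    EM (fun x => Sm B (F x)) = Sm B (EM F) := by
  ext a b
  simp only [EM, Sm, Matrix.of_apply, Matrix.sum_apply, Matrix.mul_apply]
  rw [integral_finsetSum _ fun i _ => integrable_finsetSum _ fun e _ => Integrable.mul_const
    (integrable_finsetSum _ fun f _ => (hF f e).const_mul _) _]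
  refine Finset.sum_congr rfl fun i _ => ?_
  rw [integral_finsetSum _ fun e _ => Integrable.mul_const
    (integrable_finsetSum _ fun f _ => (hF f e).const_mul _) _]
  refine Finset.sum_congr rfl fun e _ => ?_
  rw [integral_mul_const, integral_finsetSum _ fun f _ => (hF f e).const_mul _]
  simp only [integral_const_mul]

end Pool.Agent.MS
end

-- part Pool.Agent.Lib.MP_e2be92_co.Cov
section

set_option autoImplicit false
open Matrix MeasureTheory

namespace Pool.Agent.MS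

variable {ι : Type} [Fintype ι]

lemma cov_line_rho [DecidableEq ι] (x : ι → ℝ) (l : ι) :
    HasLineDerivAt ℝ rho (-(x l * rho x)) x (Pi.single l 1) := by
  unfold HasLineDerivAt
  have e : (fun t : ℝ => rho (x + t • (Pi.single l 1 : ι → ℝ))) = fun t : ℝ =>
      (Real.sqrt (2 * Real.pi))⁻¹ ^ Fintype.card ι *
        Real.exp (-(x ⬝ᵥ x + 2 * x l * t + t * t) / 2) := by
    funext t
    unfold rho
    congr 4
    simp
    ring
  rw [e]
  have h1 : HasDerivAt (fun t : ℝ => -(x ⬝ᵥ x + 2 * x l * t + t * t) / 2)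
      (-(2 * x l * 1 + (1 * 0 + 0 * 1)) / 2) 0 :=
    ((((hasDerivAt_id' (0 : ℝ)).const_mul _).const_add _).add
      ((hasDerivAt_id' _).mul (hasDerivAt_id' _))).neg.div_const _
  refine (h1.exp.const_mul _).congr_deriv ?_
  simp [rho]
  ring

lemma cov_stein_line [DecidableEq ι] {F G : (ι → ℝ) → ℝ} (l : ι) (hF : PG F) (hG : PG G)
    (mF : Measurable F) (mG : Measurable G)
    (h : ∀ x, HasLineDerivAt ℝ F (G x) x (Pi.single l 1)) :
    ∫ x, x l * F x ∂gam ι = ∫ x, G x ∂gam ι := by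
  have i1 := (integrable_gam_iff _).1 (((PG.coord l).mul hF).integrable
    ((measurable_pi_apply l).mul mF).aestronglyMeasurable)
  have i2 := (integrable_gam_iff _).1 (hG.integrable mG.aestronglyMeasurable)
  have i3 := (integrable_gam_iff _).1 (hF.integrable mF.aestronglyMeasurable)
  have := integral_bilinear_hasLineDerivAt_right_eq_neg_left_of_integrable
    (μ := (volume : Measure (ι → ℝ))) (B := ContinuousLinearMap.mul ℝ ℝ)
    (f := rho) (f' := fun x => -(x l * rho x)) (g := F) (g' := G) (v := Pi.single l 1)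
    (i1.neg.congr (Filter.Eventually.of_forall fun x => by simp; ring)) i2 i3
    (fun x _ => cov_line_rho x l) (fun x _ => h x)
  rw [integral_gam, integral_gam]
  simp only [ContinuousLinearMap.mul_apply'] at this
  rw [this, ← integral_neg]
  congr 1
  funext x
  ring

/-- Gaussian integration by parts. -/
theorem stein {f : (ι → ℝ) → ℝ} {f' : (ι → ℝ) → ι → ℝ} (hf : Good f f') (l : ι) :
    ∫ x, x l * f x ∂gam ι = ∫ x, f' x l ∂gam ι := by
  classical
  refine cov_stein_line l hf.pg (hf.pg' l) hf.continuous.measurable (hf.measurable' l) fun x => ?_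
  simpa using (hf.grad x).hasLineDerivAt (Pi.single l 1)

theorem integral_dot_self : ∫ x, x ⬝ᵥ x ∂gam ι = Fintype.card ι := by
  classical
  have h : ∀ l : ι, ∫ x, x l * x l ∂gam ι = 1 := by
    intro l
    rw [cov_stein_line (G := fun _ => 1) l (PG.coord l) (PG.const 1) (measurable_pi_apply l)
      measurable_const fun x => ?_]
    · simp
    · have := ((ContinuousLinearMap.proj l : (ι → ℝ) →L[ℝ] ℝ).hasFDerivAt
        (x := x)).hasLineDerivAt (Pi.single l 1)
      rwa [ContinuousLinearMap.proj_apply, Pi.single_eq_same] at this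
  unfold dotProduct
  rw [integral_finsetSum _ fun l _ => ((PG.coord l).mul (PG.coord l)).integrable
    ((measurable_pi_apply l).mul (measurable_pi_apply l)).aestronglyMeasurable]
  simp [h]

lemma cov_mp_density {X Y : Type} [MeasurableSpace X] [MeasurableSpace Y] {μ : Measure X}
    {ν : Measure Y} {T : X → Y} (hT : MeasurePreserving T μ ν) {d : Y → ENNReal}
    (hd : Measurable d) {e : X → ENNReal} (he : ∀ x, e x = d (T x)) :
    MeasurePreserving T (μ.withDensity e) (ν.withDensity d) := by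
  refine ⟨hT.measurable, ?_⟩
  ext s hs
  rw [Measure.map_apply hT.measurable hs, withDensity_apply _ hs,
    withDensity_apply _ (hT.measurable hs), ← hT.setLIntegral_comp_preimage hs hd]
  simp only [he]

lemma cov_orth [DecidableEq ι] (Q : Matrix ι ι ℝ) (hQ : Qᵀ * Q = 1) :
    MeasurePreserving (fun x => Q *ᵥ x) (gam ι) (gam ι) := by
  have h1 : Q.det * Q.det = 1 := by simpa using congrArg det hQ
  have h2 : |Q.det⁻¹| = 1 := by
    rcases mul_self_eq_one_iff.1 h1 with h | h <;> simp [h]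
  have h3 := Real.map_matrix_volume_pi_eq_smul_volume_pi (left_ne_zero_of_mul_eq_one h1)
  rw [h2, ENNReal.ofReal_one, one_smul] at h3
  refine cov_mp_density ⟨(matL Q).continuous.measurable, h3⟩ measurable_rho' fun x => ?_
  unfold rho
  rw [matL_apply, dotProduct_mulVec, vecMul_mulVec, hQ, vecMul_one]

/-- The combination `c x + s y`. -/
def covMix (c s : ℝ) (p : ι ⊕ ι → ℝ) : ι → ℝ := fun l => c * p (.inl l) + s * p (.inr l)

/-- The rotation. -/
def covRot (c s : ℝ) (p : ι ⊕ ι → ℝ) : ι ⊕ ι → ℝ := Sum.elim (covMix c s p) (covMix (-s) c p)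

lemma cov_dot_sum (p : ι ⊕ ι → ℝ) : p ⬝ᵥ p = covMix 1 0 p ⬝ᵥ covMix 1 0 p +
    covMix 0 1 p ⬝ᵥ covMix 0 1 p := by
  simp [dotProduct, covMix]

lemma cov_rot_dot {c s : ℝ} (h : c ^ 2 + s ^ 2 = 1) (p : ι ⊕ ι → ℝ) :
    covRot c s p ⬝ᵥ covRot c s p = p ⬝ᵥ p := by
  simp only [dotProduct, covRot, covMix, Fintype.sum_sum_type, Sum.elim_inl, Sum.elim_inr,
    ← Finset.sum_add_distrib]
  exact Finset.sum_congr rfl fun l _ => by
    linear_combination (p (.inl l) ^ 2 + p (.inr l) ^ 2) * h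

omit [Fintype ι] in
lemma cov_mix_one (c s : ℝ) (p : ι ⊕ ι → ℝ) : covMix 1 0 (covRot c s p) = covMix c s p := by
  funext l; simp [covMix, covRot]

omit [Fintype ι] in
lemma cov_mix_back {c s : ℝ} (h : c ^ 2 + s ^ 2 = 1) (p : ι ⊕ ι → ℝ) :
    covMix c (-s) (covRot c s p) = covMix 1 0 p := by
  funext l
  simp only [covMix, covRot, Sum.elim_inl, Sum.elim_inr]
  linear_combination (p (.inl l)) * h

lemma cov_mix_dot {c s : ℝ} (h : c ^ 2 + s ^ 2 = 1) (p : ι ⊕ ι → ℝ) :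
    covMix c s p ⬝ᵥ covMix c s p ≤ p ⬝ᵥ p := by
  rw [← cov_rot_dot h p, cov_dot_sum, cov_mix_one]
  exact le_add_of_nonneg_right (dot_self_nonneg _)

omit [Fintype ι] in
lemma cov_mix_cont (c s : ℝ) : Continuous (covMix c s : (ι ⊕ ι → ℝ) → ι → ℝ) := by
  unfold covMix; fun_prop

lemma cov_rot_mp {c s : ℝ} (h : c ^ 2 + s ^ 2 = 1) :
    MeasurePreserving (covRot c s) (gam (ι ⊕ ι)) (gam (ι ⊕ ι)) := by
  classical
  have := cov_orth (fromBlocks (c • (1 : Matrix ι ι ℝ)) (s • (1 : Matrix ι ι ℝ))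
      ((-s) • (1 : Matrix ι ι ℝ)) (c • (1 : Matrix ι ι ℝ))) (by
    rw [fromBlocks_transpose, fromBlocks_multiply, ← fromBlocks_one]
    simp only [transpose_smul, transpose_one, smul_mul_smul_comm, mul_one, ← add_smul]
    rw [show c * c + -s * -s = 1 by linarith, show s * s + c * c = 1 by linarith,
      show c * s + -s * c = 0 by ring, show s * c + c * -s = 0 by ring]
    simp)
  convert this using 2 with p
  rw [fromBlocks_mulVec]
  funext i
  rcases i with l | l <;> simp [covRot, covMix, smul_mulVec, neg_mulVec]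

lemma cov_split : MeasurePreserving (MeasurableEquiv.sumPiEquivProdPi (fun _ : ι ⊕ ι => ℝ))
    (gam (ι ⊕ ι)) ((gam ι).prod (gam ι)) := by
  unfold gam
  rw [prod_withDensity measurable_rho' measurable_rho']
  refine cov_mp_density (volume_measurePreserving_sumPiEquivProdPi _)
    ((measurable_rho'.comp measurable_fst).mul (measurable_rho'.comp measurable_snd)) fun p => ?_
  rw [← ENNReal.ofReal_mul (rho_pos _).le]
  simp only [rho_eq_prod, Fintype.prod_sum_type]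
  rfl

lemma cov_indep (F G : (ι → ℝ) → ℝ) :
    ∫ p, F (covMix 1 0 p) * G (covMix 0 1 p) ∂gam (ι ⊕ ι) =
      (∫ x, F x ∂gam ι) * ∫ x, G x ∂gam ι := by
  rw [← integral_prod_mul, ← cov_split.integral_comp']
  congr 1
  funext p
  congr 2 <;> funext l <;> simp [covMix] <;> rfl

lemma cov_mix_mp {c s : ℝ} (h : c ^ 2 + s ^ 2 = 1) :
    MeasurePreserving (covMix c s) (gam (ι ⊕ ι)) (gam ι) := by
  exact (measurePreserving_fst.comp (cov_split (ι := ι))).comp (cov_rot_mp h)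

lemma cov_int_comp {X Y : Type} [MeasurableSpace X] [MeasurableSpace Y] {μ : Measure X}
    {ν : Measure Y} {T : X → Y} (hT : MeasurePreserving T μ ν) {g : Y → ℝ}
    (hg : AEStronglyMeasurable g ν) : ∫ x, g (T x) ∂μ = ∫ y, g y ∂ν := by
  rw [← integral_map hT.measurable.aemeasurable (hT.map_eq.symm ▸ hg), hT.map_eq]

lemma cov_bound {κ : Type} [Fintype κ] {f : (ι → ℝ) → ℝ} (hf : PG f) : ∃ (C : ℝ) (k : ℕ),
    ∀ (x : ι → ℝ) (p : κ → ℝ), x ⬝ᵥ x ≤ p ⬝ᵥ p → |f x| ≤ C * (1 + p ⬝ᵥ p) ^ k := by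
  obtain ⟨C, k, h⟩ := hf
  refine ⟨|C|, k, fun x p hp => (h x).trans ?_⟩
  have := dot_self_nonneg x
  exact mul_le_mul (le_abs_self C) (pow_le_pow_left₀ (by linarith) (by linarith) k)
    (by positivity) (abs_nonneg C)

lemma cov_pg_mix {f : (ι → ℝ) → ℝ} (hf : PG f) {c s : ℝ} (h : c ^ 2 + s ^ 2 = 1) :
    PG (fun p => f (covMix c s p)) := by
  obtain ⟨C, k, H⟩ := cov_bound (κ := ι ⊕ ι) hf
  exact ⟨C, k, fun p => H _ _ (cov_mix_dot h p)⟩

lemma cov_step {f h : (ι → ℝ) → ℝ} {f' h' : (ι → ℝ) → ι → ℝ} (hf : Good f f') (hh : Good h h')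
    {c s : ℝ} (e : c ^ 2 + s ^ 2 = 1) (l : ι) :
    ∫ q, q (.inr l) * (f (covMix c (-s) q) * h' (covMix 1 0 q) l) ∂gam (ι ⊕ ι) =
      ∫ q, -s * (f' (covMix c (-s) q) l * h' (covMix 1 0 q) l) ∂gam (ι ⊕ ι) := by
  classical
  have e' : c ^ 2 + (-s) ^ 2 = 1 := by linarith
  have e1 : (1 : ℝ) ^ 2 + 0 ^ 2 = 1 := by norm_num
  have m1 := (hh.measurable' l).comp (cov_mix_cont (ι := ι) 1 0).measurable
  refine cov_stein_line _ ((cov_pg_mix hf.pg e').mul (cov_pg_mix (hh.pg' l) e1))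
    ((PG.const _).mul ((cov_pg_mix (hf.pg' l) e').mul (cov_pg_mix (hh.pg' l) e1)))
    ((hf.continuous.comp (cov_mix_cont _ _)).measurable.mul m1)
    ((((hf.measurable' l).comp (cov_mix_cont _ _).measurable).mul m1).const_mul _) fun q => ?_
  unfold HasLineDerivAt
  have a1 : ∀ t : ℝ, covMix 1 0 (q + t • (Pi.single (.inr l) 1 : ι ⊕ ι → ℝ)) = covMix 1 0 q := by
    intro t; funext j; simp [covMix]
  have a2 : ∀ t : ℝ, covMix c (-s) (q + t • (Pi.single (.inr l) 1 : ι ⊕ ι → ℝ)) =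
      covMix c (-s) q + t • ((-s) • (Pi.single l 1 : ι → ℝ)) := by
    intro t; funext j
    by_cases hj : j = l
    · subst hj; simp [covMix]; ring
    · simp [covMix, hj]
  simp only [a1, a2]
  have := ((hf.grad (covMix c (-s) q)).hasLineDerivAt ((-s) • Pi.single l 1))
  unfold HasLineDerivAt at this
  refine (this.mul_const _).congr_deriv ?_
  simp
  ring

lemma cov_deriv {f h : (ι → ℝ) → ℝ} {f' h' : (ι → ℝ) → ι → ℝ} (hf : Good f f') (hh : Good h h')
    (θ : ℝ) : HasDerivAt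
      (fun t => ∫ p, f (covMix 1 0 p) * h (covMix (Real.cos t) (Real.sin t) p) ∂gam (ι ⊕ ι))
      (∑ l, ∫ q, -Real.sin θ * (f' (covMix (Real.cos θ) (-Real.sin θ) q) l *
        h' (covMix 1 0 q) l) ∂gam (ι ⊕ ι)) θ := by
  have e1 : (1 : ℝ) ^ 2 + 0 ^ 2 = 1 := by norm_num
  have e : ∀ t, Real.cos t ^ 2 + Real.sin t ^ 2 = 1 := Real.cos_sq_add_sin_sq
  let G : (ι ⊕ ι → ℝ) → ℝ := fun q => ∑ l, q (.inr l) * h' (covMix 1 0 q) l
  have hG : PG G := PG.sum _ fun l _ => (PG.coord _).mul (cov_pg_mix (hh.pg' l) e1)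
  have m1 : ∀ l, Measurable fun q : ι ⊕ ι → ℝ => h' (covMix 1 0 q) l := fun l =>
    (hh.measurable' l).comp (cov_mix_cont (ι := ι) 1 0).measurable
  have mG : Measurable G := Finset.measurable_sum _ fun l _ => (measurable_pi_apply _).mul (m1 l)
  obtain ⟨C, k, hC⟩ := cov_bound (κ := ι ⊕ ι) hG
  have cf : ∀ c s, Continuous fun p : ι ⊕ ι → ℝ => f (covMix c s p) := fun c s =>
    hf.continuous.comp (cov_mix_cont c s)
  have ch : ∀ c s, Continuous fun p : ι ⊕ ι → ℝ => h (covMix c s p) := fun c s =>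
    hh.continuous.comp (cov_mix_cont c s)
  have hD := hasDerivAt_integral_of_dominated_loc_of_deriv_le (μ := gam (ι ⊕ ι)) (x₀ := θ)
    (F := fun t p => f (covMix 1 0 p) * h (covMix (Real.cos t) (Real.sin t) p))
    (F' := fun t p => f (covMix 1 0 p) * G (covRot (Real.cos t) (Real.sin t) p))
    (bound := fun p => |f (covMix 1 0 p)| * (C * (1 + p ⬝ᵥ p) ^ k)) Filter.univ_mem
    (Filter.Eventually.of_forall fun t => ((cf _ _).mul (ch _ _)).aestronglyMeasurable)
    (((cov_pg_mix hf.pg e1).mul (cov_pg_mix hh.pg (e θ))).integrable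
      ((cf _ _).mul (ch _ _)).aestronglyMeasurable)
    ((cf _ _).measurable.mul (mG.comp (cov_rot_mp (e θ)).measurable)).aestronglyMeasurable
    (Filter.Eventually.of_forall fun p t _ => by
      rw [Real.norm_eq_abs, abs_mul]
      exact mul_le_mul_of_nonneg_left (hC _ _ (cov_rot_dot (e t) p).le) (abs_nonneg _))
    (PG.integrable (PG.mul ((cov_pg_mix hf.pg e1).of_le fun p => by simp)
      ⟨|C|, k, fun p => by
        have := dot_self_nonneg p
        rw [abs_mul, abs_of_nonneg (a := (1 + p ⬝ᵥ p) ^ k) (by positivity)]⟩)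
      (Continuous.aestronglyMeasurable ((cf 1 0).abs.mul (continuous_const.mul
        ((continuous_const.add continuous_dot_self).pow k)))))
    (Filter.Eventually.of_forall fun p t _ => by
      have d1 : HasDerivAt (fun t => covMix (Real.cos t) (Real.sin t) p)
          (covMix (-Real.sin t) (Real.cos t) p) t :=
        hasDerivAt_pi.2 fun l =>
          ((Real.hasDerivAt_cos t).mul_const _).add ((Real.hasDerivAt_sin t).mul_const _)
      refine (((hh.grad _).comp_hasDerivAt t d1).const_mul _).congr_deriv ?_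
      simp only [G, cov_mix_one, dotL_apply, dotProduct]
      congr 1
      exact Finset.sum_congr rfl fun l _ => mul_comm _ _)
  refine hD.2.congr_deriv ?_
  have e' : Real.cos θ ^ 2 + (-Real.sin θ) ^ 2 = 1 := by linarith [e θ]
  have := cov_int_comp (cov_rot_mp (ι := ι) (e θ))
    (g := fun q => f (covMix (Real.cos θ) (-Real.sin θ) q) * G q)
    ((cf _ _).measurable.mul mG).aestronglyMeasurable
  simp only [cov_mix_back (e θ)] at this
  rw [this]
  simp only [← cov_step hf hh (e θ), G, Finset.mul_sum]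
  rw [← integral_finsetSum _ fun l _ => ((PG.coord _).mul ((cov_pg_mix hf.pg e').mul
    (cov_pg_mix (hh.pg' l) e1))).integrable
      ((measurable_pi_apply _).mul ((cf _ _).measurable.mul (m1 l))).aestronglyMeasurable]
  congr 1
  funext q
  exact Finset.sum_congr rfl fun l _ => by ring

/-- Gaussian covariance inequality. -/
theorem cov_le {α : Type} [Fintype α] {f h : α → (ι → ℝ) → ℝ} {f' h' : α → (ι → ℝ) → ι → ℝ}
    (hf : ∀ a, Good (f a) (f' a)) (hh : ∀ a, Good (h a) (h' a))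
    {W : (ι → ℝ) → ℝ} (hW : Integrable W (gam ι))
    (hb : ∀ x y, ∑ a, ∑ l, f' a x l * h' a y l ≤ W x) :
    ∫ x, ∑ a, f a x * h a x ∂gam ι ≤
      ∑ a, (∫ x, f a x ∂gam ι) * (∫ x, h a x ∂gam ι) + ∫ x, W x ∂gam ι := by
  have e1 : (1 : ℝ) ^ 2 + 0 ^ 2 = 1 := by norm_num
  have hD := fun θ => (HasDerivAt.fun_sum (u := Finset.univ) fun a _ =>
    cov_deriv (hf a) (hh a) θ).sub ((Real.hasDerivAt_cos θ).mul_const (∫ x, W x ∂gam ι))
  have hm := monotoneOn_of_deriv_nonneg (convex_Icc 0 (Real.pi / 2))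
    (fun θ _ => (hD θ).continuousAt.continuousWithinAt)
    (fun θ _ => (hD θ).differentiableAt.differentiableWithinAt) (fun θ hθ => by
      rw [(hD θ).deriv]
      have hθ' := interior_subset hθ
      have hs : 0 ≤ Real.sin θ :=
        Real.sin_nonneg_of_nonneg_of_le_pi hθ'.1 (by linarith [hθ'.2, Real.pi_pos])
      have e' : Real.cos θ ^ 2 + (-Real.sin θ) ^ 2 = 1 := by
        linarith [Real.cos_sq_add_sin_sq θ]
      have hi : ∀ a l, Integrable (fun q => f' a (covMix (Real.cos θ) (-Real.sin θ) q) l *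
          h' a (covMix 1 0 q) l) (gam (ι ⊕ ι)) := fun a l =>
        ((cov_pg_mix ((hf a).pg' l) e').mul (cov_pg_mix ((hh a).pg' l) e1)).integrable
          ((((hf a).measurable' l).comp (cov_mix_cont _ _).measurable).mul
            (((hh a).measurable' l).comp (cov_mix_cont _ _).measurable)).aestronglyMeasurable
      have := integral_mono (integrable_finsetSum Finset.univ fun a _ =>
        integrable_finsetSum Finset.univ fun l _ => hi a l)
        ((cov_mix_mp e').integrable_comp_of_integrable hW) (fun q => hb _ _)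
      rw [integral_finsetSum _ fun a _ => integrable_finsetSum Finset.univ fun l _ => hi a l,
        Finset.sum_congr rfl fun a _ => integral_finsetSum _ fun l _ => hi a l] at this
      simp only [Function.comp_def] at this
      rw [cov_int_comp (cov_mix_mp e') hW.1] at this
      simp only [integral_const_mul, ← Finset.mul_sum]
      nlinarith [mul_le_mul_of_nonneg_left this hs])
  have := hm (a := 0) (b := Real.pi / 2) ⟨le_rfl, by positivity⟩ ⟨by positivity, le_rfl⟩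
    (by positivity)
  simp only [Pi.sub_apply, Real.cos_zero, Real.sin_zero, Real.cos_pi_div_two, Real.sin_pi_div_two,
    cov_indep] at this
  rw [integral_finsetSum _ fun a _ => ((hf a).mul (hh a)).integrable]
  rw [Finset.sum_congr rfl fun a _ => cov_int_comp (cov_mix_mp e1)
    (g := fun x => f a x * h a x) ((hf a).mul (hh a)).integrable.1] at this
  linarith

/-- Matrix form of the covariance inequality. -/
theorem mcov_le {κ : Type} [Fintype κ] {F G : (ι → ℝ) → Matrix κ κ ℝ}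
    {F' G' : (ι → ℝ) → ι → Matrix κ κ ℝ} (hF : MGood F F') (hG : MGood G G')
    {W : (ι → ℝ) → ℝ} (hW : Integrable W (gam ι))
    (hb : ∀ x y, ∑ l, trace (F' x l * G' y l) ≤ W x) :
    ∫ x, trace (F x * G x) ∂gam ι ≤ trace (EM F * EM G) + ∫ x, W x ∂gam ι := by
  have := cov_le (α := κ × κ) (f := fun a x => F x a.1 a.2) (h := fun a x => G x a.2 a.1)
    (fun a => hF a.1 a.2) (fun a => hG a.2 a.1) hW (fun x y => by
      refine le_trans (le_of_eq ?_) (hb x y)
      rw [Finset.sum_comm]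
      simp [trace, mul_apply, Fintype.sum_prod_type])
  simpa [trace, mul_apply, Fintype.sum_prod_type, EM] using this

end Pool.Agent.MS
end

-- part Pool.Agent.Lib.MP_e2be92_co.Alg
section

set_option autoImplicit false
open Matrix

namespace Pool.Agent.MS

variable {ι κ : Type} [Fintype ι] [DecidableEq ι] [Fintype κ] [DecidableEq κ]

/-- Spectral theorem for a real symmetric matrix, in plain form. -/
theorem spectral_symm (M : Matrix κ κ ℝ) (hM : Mᵀ = M) :
    ∃ (O : Matrix κ κ ℝ) (r : κ → ℝ), O * Oᵀ = 1 ∧ Oᵀ * O = 1 ∧ M = O * diagonal r * Oᵀ := by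
  have h : M.IsHermitian := hM
  refine ⟨h.eigenvectorUnitary, h.eigenvalues, ?_, ?_, ?_⟩
  · exact Unitary.coe_mul_star_self h.eigenvectorUnitary
  · exact Unitary.coe_star_mul_self h.eigenvectorUnitary
  · exact h.spectral_theorem

lemma Alg_col {O : Matrix κ κ ℝ} (h : Oᵀ * O = 1) (a : κ) : O.col a ⬝ᵥ O.col a = 1 := by
  simpa [Matrix.mul_apply, dotProduct] using congrFun (congrFun h a) a

omit [DecidableEq κ] in
lemma Alg_conj (O M : Matrix κ κ ℝ) (a : κ) : (Oᵀ * M * O) a a = O.col a ⬝ᵥ (M *ᵥ O.col a) := by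
  rw [Matrix.mul_assoc]; rfl

lemma Alg_diag {O M : Matrix κ κ ℝ} {r : κ → ℝ} (h : Oᵀ * O = 1) (hM : M = O * diagonal r * Oᵀ)
    (a : κ) : O.col a ⬝ᵥ (M *ᵥ O.col a) = r a := by
  rw [← Alg_conj, hM, ← Matrix.mul_assoc, ← Matrix.mul_assoc, h, Matrix.mul_assoc, h]
  simp

lemma Alg_trace {O : Matrix κ κ ℝ} (h : Oᵀ * O = 1) (r : κ → ℝ) :
    trace (O * diagonal r * Oᵀ) = ∑ a, r a := by
  rw [trace_mul_comm, ← Matrix.mul_assoc, h]; simp

lemma Alg_pow {O : Matrix κ κ ℝ} (h1 : O * Oᵀ = 1) (h : Oᵀ * O = 1) (r : κ → ℝ) (k : ℕ) :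
    (O * diagonal r * Oᵀ) ^ k = O * diagonal (fun a => r a ^ k) * Oᵀ := by
  induction k with
  | zero => simp [h1]
  | succ k ih =>
    rw [pow_succ, ih, Matrix.mul_assoc, Matrix.mul_assoc, Matrix.mul_assoc,
      ← Matrix.mul_assoc Oᵀ, h, Matrix.one_mul, ← Matrix.mul_assoc (diagonal _),
      diagonal_mul_diagonal, Matrix.mul_assoc]
    simp only [pow_succ]

lemma Alg_tr (O : Matrix κ κ ℝ) (p q : κ → ℝ) {Y : Matrix κ κ ℝ} (hY : Yᵀ = Y) :
    trace (O * diagonal p * Oᵀ * Y * (O * diagonal q * Oᵀ) * Y) =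
      ∑ a, ∑ b, p a * q b * (Oᵀ * Y * O) a b ^ 2 := by
  have h : ∀ a b, (Oᵀ * Y * O) b a = (Oᵀ * Y * O) a b := fun a b => by
    rw [← transpose_apply (Oᵀ * Y * O), transpose_mul, transpose_mul, hY, transpose_transpose,
      Matrix.mul_assoc]
  rw [show O * diagonal p * Oᵀ * Y * (O * diagonal q * Oᵀ) * Y =
    O * (diagonal p * (Oᵀ * Y * O) * diagonal q * (Oᵀ * Y)) by simp only [Matrix.mul_assoc],
    trace_mul_comm, Matrix.mul_assoc _ _ O]
  generalize Oᵀ * Y * O = Z at h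
  simp only [trace, diag, Matrix.mul_apply (M := _ * diagonal q), mul_diagonal, diagonal_mul]
  exact Finset.sum_congr rfl fun a _ => Finset.sum_congr rfl fun b _ => by rw [h a b]; ring

theorem spectral_posDef (R : Matrix κ κ ℝ) (hR : R.PosDef) :
    ∃ (O : Matrix κ κ ℝ) (r : κ → ℝ), O * Oᵀ = 1 ∧ Oᵀ * O = 1 ∧ (∀ a, 0 < r a) ∧
      R = O * diagonal r * Oᵀ := by
  obtain ⟨O, r, h1, h2, h3⟩ := spectral_symm R hR.1
  exact ⟨O, r, h1, h2, fun a => by
    rw [← Alg_diag h2 h3 a]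
    refine hR.dotProduct_mulVec_pos fun h => ?_
    have := Alg_col h2 a
    rw [show O.col a = 0 from h] at this
    simp at this, h3⟩

theorem posDef_transpose_eq {R : Matrix κ κ ℝ} (hR : R.PosDef) : Rᵀ = R := by
  exact hR.1

omit [DecidableEq ι] [Fintype κ] [DecidableEq κ] in
theorem Xm_transpose {B : ι → Matrix κ κ ℝ} (hB : ∀ i, (B i)ᵀ = B i) (y : ι → ℝ) :
    (Xm B y)ᵀ = Xm B y := by
  simp [Xm, transpose_sum, hB]

omit [DecidableEq ι] in
theorem dot_Hm (B : ι → Matrix κ κ ℝ) (c : ℝ) (R : Matrix κ κ ℝ) (y z : ι → ℝ) :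
    y ⬝ᵥ (Hm B c R *ᵥ z) = 4 * c * trace (D5 R (Xm B z) * Xm B y) := by
  simp only [dotProduct, Matrix.mulVec, Hm, D5, Xm, of_apply, Matrix.add_mul,
    Matrix.sum_mul, Matrix.mul_smul, Matrix.smul_mul, trace_add, trace_sum, trace_smul,
    smul_eq_mul, Finset.mul_sum, ← Finset.sum_add_distrib]
  exact Finset.sum_congr rfl fun i _ => Finset.sum_congr rfl fun j _ => by ring

variable {B : ι → Matrix κ κ ℝ} {c : ℝ} {R : Matrix κ κ ℝ}

omit [DecidableEq ι] in
theorem Hm_transpose (hB : Setup B c) (hR : R.PosDef) : (Hm B c R)ᵀ = Hm B c R := by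
  have h : ∀ (P Q : Matrix κ κ ℝ) i j, trace (P * B i * Q * B j) = trace (Q * B j * P * B i) :=
    fun P Q i j => by
      rw [Matrix.mul_assoc (P * B i), trace_mul_comm, Matrix.mul_assoc (Q * B j)]
  ext i j
  simp only [transpose_apply, Hm, of_apply, D5, Matrix.add_mul, trace_add, h _ _ i j]
  ring

lemma Alg_T_nonneg (hR : R.PosDef) {Y : Matrix κ κ ℝ} (hY : Yᵀ = Y) (k m : ℕ) :
    0 ≤ trace (R ^ k * Y * R ^ m * Y) := by
  obtain ⟨O, r, h1, h2, h3, rfl⟩ := spectral_posDef R hR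
  rw [Alg_pow h1 h2, Alg_pow h1 h2, Alg_tr O _ _ hY]
  refine Finset.sum_nonneg fun a _ => Finset.sum_nonneg fun b _ => ?_
  have := h3 a
  have := h3 b
  positivity

omit [DecidableEq ι] in
theorem D2_le (hB : Setup B c) (hR : R.PosDef) (y : ι → ℝ) :
    2 * c * fro (D2 R (Xm B y)) ≤ y ⬝ᵥ (Hm B c R *ᵥ y) := by
  have hY := Xm_transpose hB.symm y
  have h := fun k m => Alg_T_nonneg hR hY k m
  have h1 : fro (D2 R (Xm B y)) = trace (R ^ 3 * Xm B y * R ^ 3 * Xm B y) +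
      trace (R ^ 2 * Xm B y * R ^ 4 * Xm B y) + (trace (R ^ 4 * Xm B y * R ^ 2 * Xm B y) +
      trace (R ^ 3 * Xm B y * R ^ 3 * Xm B y)) := by
    have h2 : ∀ k m l n : ℕ, trace (R ^ k * Xm B y * R ^ m * (R ^ l * Xm B y * R ^ n)) =
        trace (R ^ (n + k) * Xm B y * R ^ (m + l) * Xm B y) := fun k m l n => by
      rw [← Matrix.mul_assoc, trace_mul_comm]
      simp only [pow_add, Matrix.mul_assoc]
    have h3 : D2 R (Xm B y) = R ^ 1 * Xm B y * R ^ 2 + R ^ 2 * Xm B y * R ^ 1 := by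
      simp only [D2, pow_one, pow_two, Matrix.mul_assoc]
    have h4 : (D2 R (Xm B y))ᵀ = R ^ 1 * Xm B y * R ^ 2 + R ^ 2 * Xm B y * R ^ 1 := by
      rw [h3, add_comm (R ^ 1 * _ * _), transpose_add, add_comm]
      simp only [transpose_mul, transpose_pow, hY, posDef_transpose_eq hR,
        Matrix.mul_assoc]
    rw [show fro (D2 R (Xm B y)) = trace (D2 R (Xm B y) * (D2 R (Xm B y))ᵀ) by
      simp [fro, trace, Matrix.mul_apply, sq], h4, h3]
    simp only [Matrix.add_mul, Matrix.mul_add, trace_add, h2]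
    ring
  have h5 := h 1 5
  have h6 := h 5 1
  rw [pow_one] at h5 h6
  rw [dot_Hm, h1]
  simp only [D5, Matrix.add_mul, trace_add]
  nlinarith [hB.cpos, h 2 4, h 4 2]

omit [DecidableEq ι] in
theorem Hm_nonneg (hB : Setup B c) (hR : R.PosDef) (y : ι → ℝ) : 0 ≤ y ⬝ᵥ (Hm B c R *ᵥ y) := by
  refine le_trans (mul_nonneg (by linarith [hB.cpos]) ?_) (D2_le hB hR y)
  exact Finset.sum_nonneg fun a _ => Finset.sum_nonneg fun b _ => sq_nonneg _

theorem one_add_Hm_posDef (hB : Setup B c) (hR : R.PosDef) : (1 + Hm B c R).PosDef := by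
  have h : (Hm B c R).IsHermitian := by
    rw [Matrix.IsHermitian, conjTranspose_eq_transpose_of_trivial, Hm_transpose hB hR]
  exact Matrix.PosDef.one.add_posSemidef
    (Matrix.PosSemidef.of_dotProduct_mulVec_nonneg h fun y => by simpa using Hm_nonneg hB hR y)

theorem mul_Pm (hB : Setup B c) (hR : R.PosDef) : (1 + Hm B c R) * Pm B c R = 1 := by
  exact mul_nonsing_inv _ (one_add_Hm_posDef hB hR).det_pos.ne'.isUnit

theorem Pm_mul (hB : Setup B c) (hR : R.PosDef) : Pm B c R * (1 + Hm B c R) = 1 := by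
  exact nonsing_inv_mul _ (one_add_Hm_posDef hB hR).det_pos.ne'.isUnit

theorem Pm_transpose (hB : Setup B c) (hR : R.PosDef) : (Pm B c R)ᵀ = Pm B c R := by
  rw [Pm, transpose_nonsing_inv, posDef_transpose_eq (one_add_Hm_posDef hB hR)]

lemma Alg_y (hB : Setup B c) (hR : R.PosDef) (y : ι → ℝ) : y ⬝ᵥ y =
    (Pm B c R *ᵥ y) ⬝ᵥ (Pm B c R *ᵥ y) + 2 * ((Pm B c R *ᵥ y) ⬝ᵥ (Hm B c R *ᵥ (Pm B c R *ᵥ y))) +
      (Hm B c R *ᵥ (Pm B c R *ᵥ y)) ⬝ᵥ (Hm B c R *ᵥ (Pm B c R *ᵥ y)) := by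
  have h : y = Pm B c R *ᵥ y + Hm B c R *ᵥ (Pm B c R *ᵥ y) := by
    conv_lhs => rw [← one_mulVec y, ← mul_Pm hB hR, ← mulVec_mulVec, add_mulVec, one_mulVec]
  conv_lhs => rw [h]
  rw [add_dotProduct, dotProduct_add, dotProduct_add, dotProduct_comm (Hm B c R *ᵥ _) (Pm B c R *ᵥ y)]
  ring

theorem Pm_contr (hB : Setup B c) (hR : R.PosDef) (y : ι → ℝ) :
    (Pm B c R *ᵥ y) ⬝ᵥ (Pm B c R *ᵥ y) ≤ y ⬝ᵥ y := by
  have h := Alg_y hB hR y
  have := Hm_nonneg hB hR (Pm B c R *ᵥ y)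
  have := dot_self_nonneg (Hm B c R *ᵥ (Pm B c R *ᵥ y))
  linarith

theorem Pm_D2 (hB : Setup B c) (hR : R.PosDef) (y : ι → ℝ) :
    8 * c * fro (D2 R (Xm B (Pm B c R *ᵥ y))) ≤ y ⬝ᵥ y := by
  have h := Alg_y hB hR y
  have h1 := D2_le hB hR (Pm B c R *ᵥ y)
  have h2 := dot_self_nonneg (Pm B c R *ᵥ y - Hm B c R *ᵥ (Pm B c R *ᵥ y))
  rw [sub_dotProduct, dotProduct_sub, dotProduct_sub,
    dotProduct_comm (Hm B c R *ᵥ _) (Pm B c R *ᵥ y)] at h2
  linarith

theorem Pm_det (hB : Setup B c) (hR : R.PosDef) :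
    Real.exp (-trace (Hm B c R)) ≤ (Pm B c R).det := by
  obtain ⟨O, r, h1, h2, h3, h4⟩ := spectral_posDef _ (one_add_Hm_posDef hB hR)
  have h5 : (1 + Hm B c R).det = ∏ a, r a := by
    rw [h4, det_mul, det_mul, mul_right_comm, ← det_mul, h1]; simp
  have h6 : trace (Hm B c R) = ∑ a, (r a - 1) := by
    have := Alg_trace h2 r
    rw [← h4, trace_add, trace_one] at this
    simp [← this]
  rw [Pm, det_nonsing_inv, Ring.inverse_eq_inv', h5, Real.exp_neg, h6, Real.exp_sum]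
  exact inv_anti₀ (Finset.prod_pos fun a _ => h3 a) (Finset.prod_le_prod (fun a _ => (h3 a).le)
    fun a _ => by linarith [Real.add_one_le_exp (r a - 1)])

omit [DecidableEq ι] in
theorem trace_Sm_mul_le (hB : Setup B c) {M N : Matrix κ κ ℝ} (hM : Mᵀ = M)
    (hM0 : ∀ u : κ → ℝ, 0 ≤ u ⬝ᵥ (M *ᵥ u)) (hN1 : ∀ u : κ → ℝ, u ⬝ᵥ (N *ᵥ u) ≤ u ⬝ᵥ u) :
    trace (Sm B M * N) ≤ trace M := by
  obtain ⟨O, r, h1, h2, h3⟩ := spectral_symm M hM
  have h4 : ∀ i, trace (B i * M * B i * N) =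
      ∑ a, r a * ((B i *ᵥ O.col a) ⬝ᵥ (N *ᵥ (B i *ᵥ O.col a))) := fun i => by
    rw [h3, show B i * (O * diagonal r * Oᵀ) * B i * N = B i * O * (diagonal r * (Oᵀ * (B i * N)))
      by simp only [Matrix.mul_assoc], trace_mul_comm, show diagonal r * (Oᵀ * (B i * N)) *
      (B i * O) = diagonal r * (Oᵀ * (B i * N * B i) * O) by simp only [Matrix.mul_assoc]]
    refine Finset.sum_congr rfl fun a _ => ?_
    rw [diag_apply, diagonal_mul, Alg_conj, ← mulVec_mulVec, ← mulVec_mulVec, dotProduct_mulVec,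
      ← mulVec_transpose, hB.symm]
  simp only [Sm, Matrix.sum_mul, trace_sum, h4]
  rw [Finset.sum_comm, h3, Alg_trace h2]
  refine Finset.sum_le_sum fun a _ => ?_
  rw [← Finset.mul_sum]
  refine mul_le_of_le_one_right (Alg_diag h2 h3 a ▸ hM0 _) ?_
  exact (Finset.sum_le_sum fun i _ => hN1 _).trans ((hB.sig _).trans_eq (Alg_col h2 a))

omit [DecidableEq ι] in
theorem trace_Hm_le (hB : Setup B c) (hR : R.PosDef) :
    trace (Hm B c R) ≤ 100 * c * trace (R ^ 5) + 4 * c * trace (Sm B (R ^ 5) * (R * R)) := by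
  have h0 := trace_Sm_mul_le hB (M := R ^ 5) (N := 1)
    (by rw [transpose_pow, posDef_transpose_eq hR])
    (fun u => (hR.posSemidef.pow 5).dotProduct_mulVec_nonneg u) (by simp)
  have h : ∀ i, trace (D5 R (B i) * B i) ≤
      25 * trace (B i * R ^ 5 * B i * 1) + trace (B i * R ^ 5 * B i * (R * R)) := fun i => by
    have h1 : ∀ P Q : Matrix κ κ ℝ, trace (B i * P * B i * Q) = trace (P * B i * Q * B i) :=
      fun P Q => by
        rw [trace_mul_comm _ (B i)]; simp only [Matrix.mul_assoc]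
    have h2 : trace (R ^ 1 * B i * R ^ 5 * B i) = trace (R ^ 5 * B i * R ^ 1 * B i) := by
      rw [Matrix.mul_assoc (R ^ 1 * B i), trace_mul_comm, Matrix.mul_assoc (R ^ 5 * B i)]
    have h3 : trace (D5 R (B i) * B i) ≤ 5 * trace (R ^ 1 * B i * R ^ 5 * B i) +
        5 * trace (R ^ 5 * B i * R ^ 1 * B i) ∧ 10 * trace (R ^ 5 * B i * R ^ 1 * B i) ≤
        25 * trace (R ^ 5 * B i * R ^ 0 * B i) + trace (R ^ 5 * B i * R ^ 2 * B i) := by
      rw [show D5 R (B i) = R ^ 1 * B i * R ^ 5 + R ^ 2 * B i * R ^ 4 + R ^ 3 * B i * R ^ 3 +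
        R ^ 4 * B i * R ^ 2 + R ^ 5 * B i * R ^ 1 by simp [D5]]
      obtain ⟨O, r, a1, a2, h3, rfl⟩ := spectral_posDef R hR
      simp only [Matrix.add_mul, trace_add, Alg_pow a1 a2, Alg_tr O _ _ (hB.symm i),
        Finset.mul_sum, ← Finset.sum_add_distrib]
      refine ⟨Finset.sum_le_sum fun a _ => Finset.sum_le_sum fun b _ => ?_,
        Finset.sum_le_sum fun a _ => Finset.sum_le_sum fun b _ => ?_⟩
      · have ha := h3 a
        have hb := h3 b
        have : 0 ≤ r a * r b * (Oᵀ * B i * O) a b ^ 2 * (r a ^ 4 + r b ^ 4 +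
          (r a - r b) ^ 2 * (3 * r a ^ 2 + 5 * r a * r b + 3 * r b ^ 2) +
            3 * (r a * r b) ^ 2) := by positivity
        nlinarith
      · have ha := h3 a
        have : 0 ≤ r a ^ 5 * (r b - 5) ^ 2 * (Oᵀ * B i * O) a b ^ 2 := by positivity
        nlinarith
    rw [h1, h1, ← pow_two, ← pow_zero R]
    linarith [h3.1, h3.2]
  have h4 := Finset.sum_le_sum fun i (_ : i ∈ Finset.univ) => h i
  simp only [Sm, Matrix.sum_mul, trace_sum] at h0 ⊢
  rw [Finset.sum_add_distrib, ← Finset.mul_sum] at h4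
  rw [show trace (Hm B c R) = 4 * c * ∑ i, trace (D5 R (B i) * B i) by
    simp [trace, Hm, Finset.mul_sum]]
  nlinarith [hB.cpos]

theorem trace_four_le (hR : R.PosDef) {b : ℝ} (hb : 0 < b) :
    trace (R ^ 4) ≤ b / 2 * trace (R ^ 5) + Fintype.card κ * (2 / b) ^ 4 := by
  obtain ⟨O, r, h1, h2, h3, rfl⟩ := spectral_posDef R hR
  rw [Alg_pow h1 h2, Alg_pow h1 h2, Alg_trace h2, Alg_trace h2, Finset.mul_sum, ← nsmul_eq_mul,
    ← Finset.card_univ, ← Finset.sum_const, ← Finset.sum_add_distrib]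
  refine Finset.sum_le_sum fun a _ => ?_
  have := h3 a
  by_cases h : r a ≤ 2 / b
  · have := pow_le_pow_left₀ this.le h 4
    have : 0 ≤ b / 2 * r a ^ 5 := by positivity
    linarith
  · have h4 : 1 ≤ b / 2 * r a := by
      rw [not_le, div_lt_iff₀ hb] at h
      linarith
    have : 0 ≤ (2 / b) ^ 4 := by positivity
    nlinarith [pow_pos (h3 a) 4]

theorem trace_pow_nonneg (hR : R.PosDef) (k : ℕ) : 0 ≤ trace (R ^ k) := by
  obtain ⟨O, r, h1, h2, h3, rfl⟩ := spectral_posDef R hR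
  rw [Alg_pow h1 h2, Alg_trace h2]
  exact Finset.sum_nonneg fun a _ => (pow_pos (h3 a) k).le

theorem entry_le (hR : R.PosDef) (a e : κ) : |R a e| ≤ Fintype.card κ + trace (R ^ 5) := by
  obtain ⟨O, r, h1, h2, h3, rfl⟩ := spectral_posDef R hR
  have h4 : ∀ a e, |O a e| ≤ 1 := fun a e => by
    rw [← sq_le_one_iff_abs_le_one, ← Alg_col h2 e]
    exact sq_le_dot (O.col e) a
  rw [Alg_pow h1 h2, Alg_trace h2, Matrix.mul_apply, ← mul_one (Fintype.card κ : ℝ),
    ← nsmul_eq_mul, ← Finset.card_univ, ← Finset.sum_const, ← Finset.sum_add_distrib]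
  refine (Finset.abs_sum_le_sum_abs _ _).trans (Finset.sum_le_sum fun x _ => ?_)
  have h5 := h3 x
  rw [mul_diagonal, transpose_apply, abs_mul, abs_mul, abs_of_pos h5]
  refine (mul_le_of_le_one_right (by positivity) (h4 _ _)).trans
    ((mul_le_of_le_one_left h5.le (h4 _ _)).trans ?_)
  by_cases h : r x ≤ 1
  · linarith [pow_pos h5 5]
  · linarith [le_self_pow₀ (not_le.mp h).le (by norm_num : 5 ≠ 0)]

end Pool.Agent.MS
end

-- part Pool.Agent.Lib.MP_e2be92_co.Half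
section

set_option autoImplicit false
open Matrix MeasureTheory

namespace Pool.Agent.MS

private lemma half_rho {ι : Type} [Fintype ι] (x a : ι → ℝ) :
    2 * (Real.exp (-(a ⬝ᵥ a) / 2) * rho x) ≤ rho (x + a) + rho (-x + a) := by
  have h : 0 < (Real.sqrt (2 * Real.pi))⁻¹ ^ Fintype.card ι := by positivity
  have e1 : -((x + a) ⬝ᵥ (x + a)) / 2 = -(a ⬝ᵥ a) / 2 + -(x ⬝ᵥ x) / 2 + -(x ⬝ᵥ a) := by
    simp only [add_dotProduct, dotProduct_add, dotProduct_comm a x]; ring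
  have e2 : -((-x + a) ⬝ᵥ (-x + a)) / 2 = -(a ⬝ᵥ a) / 2 + -(x ⬝ᵥ x) / 2 + x ⬝ᵥ a := by
    simp only [add_dotProduct, dotProduct_add, neg_dotProduct, dotProduct_neg, dotProduct_comm a x]
    ring
  simp only [rho, e1, e2, Real.exp_add]
  have h1 := Real.add_one_le_exp (-(x ⬝ᵥ a))
  have h2 := Real.add_one_le_exp (x ⬝ᵥ a)
  have h3 := mul_pos h (mul_pos (Real.exp_pos (-(a ⬝ᵥ a) / 2)) (Real.exp_pos (-(x ⬝ᵥ x) / 2)))
  nlinarith

private lemma half_shift {ι : Type} [Fintype ι] {K : Set (ι → ℝ)} (hm : MeasurableSet K)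
    (hs : ∀ y ∈ K, -y ∈ K) (a : ι → ℝ) :
    ENNReal.ofReal (Real.exp (-(a ⬝ᵥ a) / 2)) * gam ι K ≤ gam ι {p | p - a ∈ K} := by
  have hm' : MeasurableSet {p : ι → ℝ | p - a ∈ K} := measurable_sub_const a hm
  have m1 : Measurable fun x : ι → ℝ => K.indicator (fun x => ENNReal.ofReal (rho (x + a))) x :=
    (measurable_rho'.comp (measurable_add_const a)).indicator hm
  have e1 : gam ι {p | p - a ∈ K} = ∫⁻ x, K.indicator (fun x => ENNReal.ofReal (rho (x + a))) x := by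
    rw [gam_apply _ hm', ← lintegral_indicator hm', ← lintegral_add_right_eq_self _ a]
    refine lintegral_congr fun x => ?_
    by_cases h : x ∈ K
    · rw [Set.indicator_of_mem h, Set.indicator_of_mem (by simpa using h)]
    · rw [Set.indicator_of_notMem h, Set.indicator_of_notMem (by simpa using h)]
  have e2 : gam ι {p | p - a ∈ K} = ∫⁻ x, K.indicator (fun x => ENNReal.ofReal (rho (-x + a))) x := by
    rw [e1, ← lintegral_neg_eq_self]
    refine lintegral_congr fun x => ?_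
    by_cases h : x ∈ K
    · rw [Set.indicator_of_mem h, Set.indicator_of_mem (hs x h)]
    · rw [Set.indicator_of_notMem h, Set.indicator_of_notMem fun k => h (neg_neg x ▸ hs _ k)]
  rw [← ENNReal.mul_le_mul_iff_right two_ne_zero ENNReal.ofNat_ne_top, two_mul (gam ι {p | p - a ∈ K})]
  nth_rw 2 [e2]
  rw [e1, ← lintegral_add_left m1, gam_apply _ hm, ← lintegral_indicator hm,
    ← lintegral_const_mul _ (measurable_rho'.indicator hm),
    ← lintegral_const_mul _ ((measurable_rho'.indicator hm).const_mul _)]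
  refine lintegral_mono fun x => ?_
  by_cases h : x ∈ K
  · simp only [Set.indicator_of_mem h]
    rw [← ENNReal.ofReal_add (rho_pos _).le (rho_pos _).le, ← ENNReal.ofReal_mul (Real.exp_pos _).le,
      ← ENNReal.ofReal_ofNat, ← ENNReal.ofReal_mul (by norm_num)]
    exact ENNReal.ofReal_le_ofReal (half_rho x a)
  · simp [h]

private lemma half_count {ι : Type} [Fintype ι] [DecidableEq ι] (S : Finset (ι → Bool))
    (h : ∀ e ∈ S, ∀ e' ∈ S, 20 * (Finset.univ.filter fun i => e i ≠ e' i).card ≤ Fintype.card ι) :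
    (S.card : ℝ) ≤ (123 / 100) ^ Fintype.card ι := by
  rcases S.eq_empty_or_nonempty with rfl | ⟨e', he'⟩
  · simp only [Finset.card_empty, Nat.cast_zero]; positivity
  have h1 : ∀ e ∈ S, (1 : ℝ) ≤ (115 / 100) ^ Fintype.card ι * ∏ i, if e i ≠ e' i then 1 / 16 else 1 := by
    intro e he
    rw [Finset.prod_ite, Finset.prod_const, Finset.prod_const_one, mul_one]
    refine le_trans ?_ (mul_le_mul_of_nonneg_right
      (pow_le_pow_right₀ (by norm_num) (h e he e' he')) (by positivity))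
    rw [pow_mul, ← mul_pow]
    exact one_le_pow₀ (by norm_num)
  have h2 : ∑ e : ι → Bool, ∏ i, (if e i ≠ e' i then (1 / 16 : ℝ) else 1) =
      (17 / 16) ^ Fintype.card ι := by
    rw [← Fintype.piFinset_univ, ← Finset.prod_univ_sum (fun _ => Finset.univ)
      fun i (b : Bool) => if b ≠ e' i then (1 / 16 : ℝ) else 1, ← Finset.card_univ, ← Finset.prod_const]
    exact Finset.prod_congr rfl fun i _ => by cases e' i <;> norm_num
  calc (S.card : ℝ) = ∑ _e ∈ S, 1 := by simp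
    _ ≤ _ := Finset.sum_le_sum h1
    _ ≤ ∑ e : ι → Bool, (115 / 100) ^ Fintype.card ι * ∏ i, if e i ≠ e' i then (1 / 16 : ℝ) else 1 :=
      Finset.sum_le_sum_of_subset_of_nonneg (Finset.subset_univ _) fun e _ _ =>
        mul_nonneg (by positivity) (Finset.prod_nonneg fun i _ => by split_ifs <;> norm_num)
    _ ≤ _ := by
      rw [← Finset.mul_sum, h2, ← mul_pow]
      exact pow_le_pow_left₀ (by norm_num) (by norm_num) _

/-- Giannopoulos-type half colouring lemma. -/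
theorem half_colouring {ι : Type} [Fintype ι] [DecidableEq ι] (hn : 1 ≤ Fintype.card ι)
    {K : Set (ι → ℝ)} (hm : MeasurableSet K) (hc : Convex ℝ K) (hs : ∀ y ∈ K, -y ∈ K)
    (hK : ENNReal.ofReal (Real.exp (-(Fintype.card ι : ℝ) / 4)) ≤ gam ι K) :
    ∃ χ : ι → ℝ, (∀ i, χ i = 0 ∨ χ i = 1 ∨ χ i = -1) ∧ (1 / 2 : ℝ) • χ ∈ K ∧
      20 * ((Finset.univ.filter fun i => χ i = 0).card : ℝ) ≤ 19 * Fintype.card ι := by
  classical
  by_contra hcon
  set a : (ι → Bool) → ι → ℝ := fun e i => if e i then 1 / 2 else -(1 / 2) with ha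
  have h1 : ∀ p : ι → ℝ, ((Finset.univ.filter fun e => p - a e ∈ K).card : ℝ) ≤
      (123 / 100) ^ Fintype.card ι := fun p => half_count _ fun e he e' he' => by
    by_contra hlt
    refine hcon ⟨a e - a e', fun i => ?_, ?_, ?_⟩
    · simp only [ha, Pi.sub_apply]
      cases e i <;> cases e' i <;> norm_num
    · convert hc (Finset.mem_filter.mp he').2 (hs _ (Finset.mem_filter.mp he).2)
        (a := 1 / 2) (b := 1 / 2) (by norm_num) (by norm_num) (by norm_num) using 1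
      module
    · have h2 : (Finset.univ.filter fun i => (a e - a e') i = 0) =
          Finset.univ.filter fun i => ¬ e i ≠ e' i := Finset.filter_congr fun i _ => by
        simp only [ha, Pi.sub_apply]
        cases e i <;> cases e' i <;> norm_num
      have h3 := Finset.card_filter_add_card_filter_not (s := Finset.univ) fun i => e i ≠ e' i
      rw [Finset.card_univ] at h3
      rw [h2]
      exact_mod_cast (by omega : 20 * (Finset.univ.filter fun i => ¬ e i ≠ e' i).card ≤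
        19 * Fintype.card ι)
  have hm' : ∀ e, MeasurableSet {p : ι → ℝ | p - a e ∈ K} := fun e => measurable_sub_const _ hm
  have h2 : ∑ e, gam ι {p | p - a e ∈ K} ≤ ENNReal.ofReal ((123 / 100) ^ Fintype.card ι) := by
    simp only [← lintegral_indicator_one (hm' _)]
    rw [← lintegral_finsetSum _ fun e _ => measurable_one.indicator (hm' e)]
    refine (lintegral_mono fun p => ?_).trans (by rw [lintegral_const, measure_univ, mul_one])
    refine le_trans (le_of_eq ?_) (ENNReal.ofReal_le_ofReal (h1 p))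
    simp [Set.indicator, Finset.sum_boole]
  have h3 : ∀ e, ENNReal.ofReal ((5 / 8) ^ Fintype.card ι) ≤ gam ι {p | p - a e ∈ K} := fun e => by
    refine le_trans ?_ ((mul_le_mul_right hK _).trans (half_shift hm hs (a e)))
    have h4 : a e ⬝ᵥ a e = Fintype.card ι / 4 := by
      rw [dotProduct, Finset.sum_congr rfl (g := fun _ => 1 / 4) fun i _ => by
        simp only [ha]; cases e i <;> norm_num]
      simp [div_eq_mul_inv]
    rw [← ENNReal.ofReal_mul (Real.exp_pos _).le, ← Real.exp_add, h4,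
      show -((Fintype.card ι : ℝ) / 4) / 2 + -(Fintype.card ι : ℝ) / 4 = Fintype.card ι * (-(3 / 8)) by
        ring, Real.exp_nat_mul]
    exact ENNReal.ofReal_le_ofReal (pow_le_pow_left₀ (by norm_num)
      (by linarith [Real.add_one_le_exp (-(3 / 8))]) _)
  have h4 := (Finset.sum_le_sum fun e _ => h3 e).trans h2
  rw [← ENNReal.ofReal_sum_of_nonneg fun _ _ => by positivity,
    ENNReal.ofReal_le_ofReal_iff (by positivity), Finset.sum_const, Finset.card_univ,
    Fintype.card_fun, Fintype.card_bool, nsmul_eq_mul, Nat.cast_pow, ← mul_pow] at h4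
  exact absurd h4 (not_le.mpr (pow_lt_pow_left₀ (by norm_num) (by norm_num) (by omega)))

end Pool.Agent.MS
end
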