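import Pool.Agent.Lib.MP_e2be92_co.Half

-- part Pool.Agent.Lib.MP_e2be92_co.Colour
section

set_option autoImplicit false
open Matrix MeasureTheory

namespace Pool.Agent.MS

private lemma colour_qf {ι κ : Type} [Fintype κ] (S : Finset ι) (A : ι → Matrix κ κ ℝ)
    (y : ι → ℝ) (u : κ → ℝ) :
    u ⬝ᵥ ((∑ i ∈ S, y i • A i) *ᵥ u) = ∑ i ∈ S, y i * (u ⬝ᵥ (A i *ᵥ u)) := by
  rw [Matrix.sum_mulVec, dotProduct_sum]
  refine Finset.sum_congr rfl fun i _ => ?_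
  rw [Matrix.smul_mulVec, dotProduct_smul, smul_eq_mul]

private lemma colour_half (h : SmallBall) {ι κ : Type} [Fintype ι] [DecidableEq ι] [Fintype κ]
    [DecidableEq κ] (A : ι → Matrix κ κ ℝ) (hs : ∀ i, (A i)ᵀ = A i)
    (hc : ∀ i (u : κ → ℝ), (A i *ᵥ u) ⬝ᵥ (A i *ᵥ u) ≤ u ⬝ᵥ u)
    (Q : Matrix κ κ ℝ) (hQ : Q * Qᵀ = 1) (hQA : ∀ i, Q * A i * Qᵀ = - A i)
    (h1 : 1 ≤ Fintype.card ι) (h2 : Fintype.card ι ≤ Fintype.card κ) :
    ∃ χ : ι → ℝ, (∀ i, χ i = 0 ∨ χ i = 1 ∨ χ i = -1) ∧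
      (∀ u : κ → ℝ, ∑ i, χ i * (u ⬝ᵥ (A i *ᵥ u)) ≤
        600 * (Fintype.card κ : ℝ) ^ (2 / 5 : ℝ) * (Fintype.card ι : ℝ) ^ (1 / 10 : ℝ) *
          (u ⬝ᵥ u)) ∧
      20 * ((Finset.univ.filter fun i => χ i = 0).card : ℝ) ≤ 19 * Fintype.card ι := by
  have hK := h ι κ A hs hc ⟨Q, hQ, hQA⟩ h1 h2
  simp only [Xm, colour_qf] at hK
  set L := 300 * (Fintype.card κ : ℝ) ^ (2 / 5 : ℝ) * (Fintype.card ι : ℝ) ^ (1 / 10 : ℝ)
    with hL
  have main := half_colouring h1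
    (K := {y | ∀ u : κ → ℝ, ∑ i, y i * (u ⬝ᵥ (A i *ᵥ u)) ≤ L * (u ⬝ᵥ u)})
  refine (main ?_ ?_ ?_ hK).imp fun χ hχ => ?_
  · refine IsClosed.measurableSet ?_
    rw [Set.ofPred_forall]
    exact isClosed_iInter fun u => isClosed_le (by fun_prop) continuous_const
  · intro x hx y hy a b ha hb hab u
    have e : ∑ i, (a • x + b • y) i * (u ⬝ᵥ (A i *ᵥ u)) =
        a * ∑ i, x i * (u ⬝ᵥ (A i *ᵥ u)) + b * ∑ i, y i * (u ⬝ᵥ (A i *ᵥ u)) := by
      simp only [Pi.add_apply, Pi.smul_apply, smul_eq_mul, add_mul, Finset.sum_add_distrib,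
        Finset.mul_sum, mul_assoc]
    rw [e]
    have k1 := mul_le_mul_of_nonneg_left (hx u) ha
    have k2 := mul_le_mul_of_nonneg_left (hy u) hb
    calc _ ≤ a * (L * (u ⬝ᵥ u)) + b * (L * (u ⬝ᵥ u)) := add_le_add k1 k2
      _ = (a + b) * (L * (u ⬝ᵥ u)) := by ring
      _ = _ := by rw [hab, one_mul]
  · intro y hy u
    have k1 := hy (Qᵀ *ᵥ u)
    have e1 : ∀ B : Matrix κ κ ℝ, (Qᵀ *ᵥ u) ⬝ᵥ (B *ᵥ (Qᵀ *ᵥ u)) = u ⬝ᵥ ((Q * B * Qᵀ) *ᵥ u) := by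
      intro B
      rw [Matrix.mulVec_transpose, ← Matrix.dotProduct_mulVec, ← Matrix.mulVec_transpose,
        Matrix.mulVec_mulVec, Matrix.mulVec_mulVec]
    have e2 : (Qᵀ *ᵥ u) ⬝ᵥ (Qᵀ *ᵥ u) = u ⬝ᵥ u := by
      have := e1 1
      rwa [Matrix.one_mulVec, Matrix.mul_one, hQ, Matrix.one_mulVec] at this
    simp only [e1, e2, hQA, Matrix.neg_mulVec, dotProduct_neg] at k1
    simpa only [Pi.neg_apply, neg_mul, mul_neg] using k1
  · obtain ⟨k1, k2, k3⟩ := hχ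
    refine ⟨k1, fun u => ?_, k3⟩
    have k4 := k2 u
    simp only [Pi.smul_apply, smul_eq_mul, mul_assoc, ← Finset.mul_sum] at k4
    have : 600 * (Fintype.card κ : ℝ) ^ (2 / 5 : ℝ) * (Fintype.card ι : ℝ) ^ (1 / 10 : ℝ) =
        2 * L := by rw [hL]; ring
    rw [this]
    linarith

private lemma colour_rpow {s t : ℝ} (hs : 0 ≤ s) (ht : 0 ≤ t) (h : 20 * t ≤ 19 * s) :
    600 * s ^ (1 / 10 : ℝ) + 120000 * t ^ (1 / 10 : ℝ) ≤ 120000 * s ^ (1 / 10 : ℝ) := by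
  have h1 : t ≤ (199 / 200 : ℝ) ^ (10 : ℕ) * s := by
    have : (19 / 20 : ℝ) ≤ (199 / 200 : ℝ) ^ (10 : ℕ) := by norm_num
    nlinarith
  have h2 : t ^ (1 / 10 : ℝ) ≤ ((199 / 200 : ℝ) ^ (10 : ℕ) * s) ^ (1 / 10 : ℝ) :=
    Real.rpow_le_rpow ht h1 (by norm_num)
  have h3 : (((199 / 200 : ℝ) ^ (10 : ℕ)) ^ (1 / 10 : ℝ)) = 199 / 200 := by
    rw [← Real.rpow_natCast, ← Real.rpow_mul (by norm_num)]
    norm_num
  rw [Real.mul_rpow (by positivity) hs, h3] at h2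
  linarith

private lemma colour_rec (h : SmallBall) {ι κ : Type} [Fintype ι] [DecidableEq ι] [Fintype κ]
    [DecidableEq κ] (A : ι → Matrix κ κ ℝ) (hs : ∀ i, (A i)ᵀ = A i)
    (hc : ∀ i (u : κ → ℝ), (A i *ᵥ u) ⬝ᵥ (A i *ᵥ u) ≤ u ⬝ᵥ u)
    (Q : Matrix κ κ ℝ) (hQ : Q * Qᵀ = 1) (hQA : ∀ i, Q * A i * Qᵀ = - A i)
    (h2 : Fintype.card ι ≤ Fintype.card κ) (m : ℕ) :
    ∀ S : Finset ι, S.card = m → ∃ ε : ι → ℝ, (∀ i ∈ S, ε i = 1 ∨ ε i = -1) ∧
      ∀ u : κ → ℝ, ∑ i ∈ S, ε i * (u ⬝ᵥ (A i *ᵥ u)) ≤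
        120000 * (Fintype.card κ : ℝ) ^ (2 / 5 : ℝ) * (S.card : ℝ) ^ (1 / 10 : ℝ) * (u ⬝ᵥ u) := by
  induction m using Nat.strong_induction_on with
  | _ m ih =>
    intro S hS
    rcases S.eq_empty_or_nonempty with rfl | hne
    · refine ⟨0, by simp, fun u => ?_⟩
      have := dot_self_nonneg u
      rw [Finset.sum_empty]
      positivity
    have hpos : 0 < S.card := hne.card_pos
    obtain ⟨χ, k1, k2, k3⟩ := colour_half h (fun i : S => A i) (fun i => hs i) (fun i => hc i)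
      Q hQ (fun i => hQA i) (by rw [Fintype.card_coe]; exact hpos)
      (by rw [Fintype.card_coe]; exact (Finset.card_le_univ S).trans h2)
    rw [Fintype.card_coe] at k2 k3
    let χ' : ι → ℝ := fun i => if hi : i ∈ S then χ ⟨i, hi⟩ else 0
    have hχ : ∀ i : S, χ' i = χ i := fun i => dif_pos i.2
    let S' := S.filter fun i => χ' i = 0
    have hcard : S'.card = (Finset.univ.filter fun i => χ i = 0).card := by
      symm
      refine Finset.card_bij (fun i _ => (i : ι)) ?_ ?_ ?_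
      · intro i hi
        exact Finset.mem_filter.2 ⟨i.2, (hχ i).trans (Finset.mem_filter.1 hi).2⟩
      · intro i _ j _ hij
        exact Subtype.ext hij
      · intro i hi
        obtain ⟨h3, h4⟩ := Finset.mem_filter.1 hi
        exact ⟨⟨i, h3⟩, Finset.mem_filter.2 ⟨Finset.mem_univ _, (hχ ⟨i, h3⟩).symm.trans h4⟩, rfl⟩
    rw [← hcard] at k3
    have hlt : S'.card < m := by
      have h3 : (0 : ℝ) < S.card := by exact_mod_cast hpos
      have h4 : (S'.card : ℝ) < S.card := by linarith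
      rw [← hS]
      exact_mod_cast h4
    obtain ⟨ε', l1, l2⟩ := ih _ hlt S' rfl
    refine ⟨fun i => if χ' i = 0 then ε' i else χ' i, fun i hi => ?_, fun u => ?_⟩
    · by_cases h0 : χ' i = 0
      · simp only [h0, if_true]
        exact l1 i (Finset.mem_filter.2 ⟨hi, h0⟩)
      · simp only [h0, if_false]
        have := k1 ⟨i, hi⟩
        rw [← hχ ⟨i, hi⟩] at this
        exact this.resolve_left h0
    · have e1 : ∑ i ∈ S, (if χ' i = 0 then ε' i else χ' i) * (u ⬝ᵥ (A i *ᵥ u)) =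
          ∑ i ∈ S, χ' i * (u ⬝ᵥ (A i *ᵥ u)) + ∑ i ∈ S', ε' i * (u ⬝ᵥ (A i *ᵥ u)) := by
        rw [Finset.sum_filter, ← Finset.sum_add_distrib]
        refine Finset.sum_congr rfl fun i _ => ?_
        by_cases h0 : χ' i = 0 <;> simp [h0]
      have e2 : ∑ i ∈ S, χ' i * (u ⬝ᵥ (A i *ᵥ u)) = ∑ i : S, χ i * (u ⬝ᵥ (A i *ᵥ u)) := by
        rw [← Finset.sum_coe_sort]
        exact Finset.sum_congr rfl fun i _ => by rw [hχ]
      rw [e1, e2]
      have h3 := colour_rpow (Nat.cast_nonneg S.card) (Nat.cast_nonneg S'.card) k3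
      have h4 : 0 ≤ (Fintype.card κ : ℝ) ^ (2 / 5 : ℝ) * (u ⬝ᵥ u) :=
        mul_nonneg (by positivity) (dot_self_nonneg u)
      have h5 := mul_le_mul_of_nonneg_left h3 h4
      have h6 := k2 u
      have h7 := l2 u
      nlinarith

private lemma colour_amgm {κ : Type} [Fintype κ] (x y : κ → ℝ) :
    2 * (x ⬝ᵥ y) ≤ x ⬝ᵥ x + y ⬝ᵥ y := by
  have h := dot_self_nonneg (x - y)
  rw [sub_dotProduct, dotProduct_sub, dotProduct_sub, dotProduct_comm y x] at h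
  linarith

private lemma colour_transpose {κ : Type} [Fintype κ] (B : Matrix κ κ ℝ)
    (hB : ∀ x, (B *ᵥ x) ⬝ᵥ (B *ᵥ x) ≤ x ⬝ᵥ x) (y : κ → ℝ) :
    (Bᵀ *ᵥ y) ⬝ᵥ (Bᵀ *ᵥ y) ≤ y ⬝ᵥ y := by
  have h1 : (Bᵀ *ᵥ y) ⬝ᵥ (Bᵀ *ᵥ y) = y ⬝ᵥ (B *ᵥ (Bᵀ *ᵥ y)) := by
    rw [Matrix.dotProduct_mulVec y, ← Matrix.mulVec_transpose]
  have h2 := colour_amgm y (B *ᵥ (Bᵀ *ᵥ y))
  have h3 := hB (Bᵀ *ᵥ y)
  linarith

private lemma colour_dot {κ : Type} [Fintype κ] (w x w' x' : κ → ℝ) :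
    Sum.elim w x ⬝ᵥ Sum.elim w' x' = w ⬝ᵥ w' + x ⬝ᵥ x' := by
  simp [dotProduct, Fintype.sum_sum_type]

private lemma colour_block {κ : Type} [Fintype κ] (B : Matrix κ κ ℝ) (w x : κ → ℝ) :
    Matrix.fromBlocks 0 B Bᵀ 0 *ᵥ Sum.elim w x = Sum.elim (B *ᵥ x) (Bᵀ *ᵥ w) := by
  rw [Matrix.fromBlocks_mulVec]
  simp

private lemma colour_const (n : ℕ) :
    120000 * ((n + n : ℕ) : ℝ) ^ (2 / 5 : ℝ) * (n : ℝ) ^ (1 / 10 : ℝ) ≤ 240000 * Real.sqrt n := by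
  have hn : (0 : ℝ) ≤ n := Nat.cast_nonneg n
  have h1 : ((n + n : ℕ) : ℝ) ^ (2 / 5 : ℝ) = (2 : ℝ) ^ (2 / 5 : ℝ) * (n : ℝ) ^ (2 / 5 : ℝ) := by
    rw [← Real.mul_rpow (by norm_num) hn]
    congr 1
    push_cast
    ring
  have h2 : (2 : ℝ) ^ (2 / 5 : ℝ) ≤ 2 := by
    calc (2 : ℝ) ^ (2 / 5 : ℝ) ≤ (2 : ℝ) ^ (1 : ℝ) :=
          Real.rpow_le_rpow_of_exponent_le (by norm_num) (by norm_num)
      _ = 2 := Real.rpow_one 2
  have h3 : (n : ℝ) ^ (2 / 5 : ℝ) * (n : ℝ) ^ (1 / 10 : ℝ) = Real.sqrt n := by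
    rw [← Real.rpow_add' hn (by norm_num), Real.sqrt_eq_rpow]
    norm_num
  have h4 := Real.sqrt_nonneg (n : ℝ)
  calc _ = 120000 * (2 : ℝ) ^ (2 / 5 : ℝ) * ((n : ℝ) ^ (2 / 5 : ℝ) * (n : ℝ) ^ (1 / 10 : ℝ)) := by
        rw [h1]; ring
    _ ≤ _ := by rw [h3]; nlinarith

theorem spencer_of_smallBall (h : SmallBall) :
    ∃ C : ℝ, ∀ n : ℕ, ∀ A : Fin n → Matrix (Fin n) (Fin n) ℝ,
      (∀ i, ∀ x : Fin n → ℝ, ∑ j, ((A i) *ᵥ x) j ^ 2 ≤ ∑ j, x j ^ 2) →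
      ∃ ε : Fin n → ℝ, (∀ i, ε i = 1 ∨ ε i = -1) ∧
        ∀ x : Fin n → ℝ,
          ∑ j, ((∑ i, ε i • A i) *ᵥ x) j ^ 2 ≤ C ^ 2 * (n : ℝ) * ∑ j, x j ^ 2 := by
  refine ⟨240000, fun n A hA => ?_⟩
  have sq_dot : ∀ x : Fin n → ℝ, ∑ j, x j ^ 2 = x ⬝ᵥ x := fun x => by simp [dotProduct, sq]
  simp only [sq_dot] at hA ⊢
  rcases Nat.eq_zero_or_pos n with rfl | hn
  · exact ⟨fun _ => 1, fun _ => Or.inl rfl, fun x => by simp [dotProduct]⟩
  obtain ⟨ε, k1, k2⟩ := colour_rec h (κ := Fin n ⊕ Fin n)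
    (fun i => Matrix.fromBlocks 0 (A i) (A i)ᵀ 0)
    (fun i => by simp [Matrix.fromBlocks_transpose])
    (fun i u => by
      rw [← Sum.elim_comp_inl_inr u, colour_block, colour_dot, colour_dot]
      have h1 := hA i (u ∘ Sum.inr)
      have h2 := colour_transpose (A i) (hA i) (u ∘ Sum.inl)
      linarith)
    (Matrix.fromBlocks 1 0 0 (-1))
    (by simp [Matrix.fromBlocks_transpose, Matrix.fromBlocks_multiply])
    (fun i => by
      simp [Matrix.fromBlocks_transpose, Matrix.fromBlocks_multiply, Matrix.fromBlocks_neg])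
    (by simp) _ Finset.univ rfl
  refine ⟨ε, fun i => k1 i (Finset.mem_univ i), fun x => ?_⟩
  set Lam := 240000 * Real.sqrt n with hLam
  have hn' : (0 : ℝ) < n := by exact_mod_cast hn
  have hpos : 0 < Lam := by
    have := Real.sqrt_pos.2 hn'
    positivity
  have hsq : Lam ^ 2 = 240000 ^ 2 * (n : ℝ) := by
    rw [hLam, mul_pow, Real.sq_sqrt hn'.le]
  have key : ∀ w : Fin n → ℝ,
      2 * (w ⬝ᵥ ((∑ i, ε i • A i) *ᵥ x)) ≤ Lam * (w ⬝ᵥ w + x ⬝ᵥ x) := by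
    intro w
    have h1 := k2 (Sum.elim w x)
    have e1 : ∀ i, x ⬝ᵥ ((A i)ᵀ *ᵥ w) = w ⬝ᵥ (A i *ᵥ x) := fun i => by
      rw [Matrix.mulVec_transpose, dotProduct_comm, ← Matrix.dotProduct_mulVec]
    simp only [colour_block, colour_dot, e1, Fintype.card_sum, Fintype.card_fin,
      Finset.card_univ] at h1
    have e2 : w ⬝ᵥ ((∑ i, ε i • A i) *ᵥ x) = ∑ i, ε i * (w ⬝ᵥ (A i *ᵥ x)) := by
      rw [Matrix.sum_mulVec, dotProduct_sum]
      refine Finset.sum_congr rfl fun i _ => ?_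
      rw [Matrix.smul_mulVec, dotProduct_smul, smul_eq_mul]
    have e3 : ∑ i, ε i * (w ⬝ᵥ (A i *ᵥ x) + w ⬝ᵥ (A i *ᵥ x)) =
        2 * ∑ i, ε i * (w ⬝ᵥ (A i *ᵥ x)) := by
      rw [Finset.mul_sum]
      exact Finset.sum_congr rfl fun i _ => by ring
    rw [e3] at h1
    rw [e2]
    exact h1.trans (mul_le_mul_of_nonneg_right (colour_const n)
      (add_nonneg (dot_self_nonneg w) (dot_self_nonneg x)))
  have h1 := key (Lam⁻¹ • ((∑ i, ε i • A i) *ᵥ x))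
  simp only [smul_dotProduct, dotProduct_smul, smul_eq_mul] at h1
  rw [← hsq]
  set t := ((∑ i, ε i • A i) *ᵥ x) ⬝ᵥ ((∑ i, ε i • A i) *ᵥ x)
  have h2 := mul_le_mul_of_nonneg_left h1 hpos.le
  have h3 : Lam * (2 * (Lam⁻¹ * t)) = 2 * t := by field_simp
  have h4 : Lam * (Lam * (Lam⁻¹ * (Lam⁻¹ * t) + x ⬝ᵥ x)) = t + Lam ^ 2 * (x ⬝ᵥ x) := by
    field_simp
  rw [h3, h4] at h2
  linarith

end Pool.Agent.MS
end

-- part Pool.Agent.Lib.MP_e2be92_co.VRed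
section

set_option autoImplicit false
open Matrix MeasureTheory

namespace Pool.Agent.MS

section VRedAux

variable {ι κ : Type} [Fintype ι] [DecidableEq ι] [Fintype κ] [DecidableEq κ]

theorem vred_spectral (M : Matrix ι ι ℝ) (hM : Mᵀ = M) :
    ∃ (O : Matrix ι ι ℝ) (r : ι → ℝ), O * Oᵀ = 1 ∧ Oᵀ * O = 1 ∧ M = O * diagonal r * Oᵀ := by
  have h : M.IsHermitian := by
    rw [Matrix.IsHermitian, conjTranspose_eq_transpose_of_trivial, hM]
  refine ⟨h.eigenvectorUnitary, h.eigenvalues, ?_, ?_, ?_⟩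
  · simpa [star_eq_conjTranspose] using (h.eigenvectorUnitary).2.2
  · simpa [star_eq_conjTranspose] using (h.eigenvectorUnitary).2.1
  · simpa [star_eq_conjTranspose, Unitary.conjStarAlgAut_apply] using h.spectral_theorem

omit [DecidableEq ι] [DecidableEq κ] in
theorem vred_dot (E : Matrix κ ι ℝ) (v : ι → ℝ) :
    (E *ᵥ v) ⬝ᵥ (E *ᵥ v) = v ⬝ᵥ ((Eᵀ * E) *ᵥ v) := by
  rw [← mulVec_mulVec, dotProduct_mulVec v, vecMul_transpose]

theorem vred_orth {O : Matrix ι ι ℝ} (h : Oᵀ * O = 1) (v : ι → ℝ) :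
    (O *ᵥ v) ⬝ᵥ (O *ᵥ v) = v ⬝ᵥ v := by
  rw [vred_dot, h, one_mulVec]

theorem vred_diag {s : ι → ℝ} (h : ∀ i, s i ^ 2 ≤ 1) (v : ι → ℝ) :
    (diagonal s *ᵥ v) ⬝ᵥ (diagonal s *ᵥ v) ≤ v ⬝ᵥ v := by
  refine Finset.sum_le_sum fun i _ => ?_
  rw [mulVec_diagonal]
  nlinarith [h i, mul_self_nonneg (v i)]

theorem vred_image (L : Matrix ι ι ℝ) (hL : ∀ y, (L *ᵥ y) ⬝ᵥ (L *ᵥ y) ≤ y ⬝ᵥ y)
    (hdet : L.det ≠ 0) {K : Set (ι → ℝ)} (hK : MeasurableSet K) :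
    ENNReal.ofReal |L.det| * gam ι K ≤ gam ι (matL L '' K) := by
  have hinj : Set.InjOn (matL L) K :=
    (Matrix.mulVec_injective_iff_isUnit.2
      ((Matrix.isUnit_iff_isUnit_det L).2 (isUnit_iff_ne_zero.2 hdet))).injOn
  have hd : ∀ x ∈ K, HasFDerivWithinAt (matL L) (matL L) K x :=
    fun x _ => (matL L).hasFDerivWithinAt
  rw [gam_apply _ (measurable_image_of_fderivWithin hK hd hinj), gam_apply _ hK,
    lintegral_image_eq_lintegral_abs_det_fderiv_mul volume hK hd hinj,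
    ← lintegral_const_mul _ measurable_rho', matL_det]
  refine lintegral_mono fun x => ?_
  gcongr
  exact rho_anti (hL x)

omit [DecidableEq ι] [DecidableEq κ] in
theorem vred_closed (B : ι → Matrix κ κ ℝ) (b : ℝ) :
    IsClosed {y : ι → ℝ | ∀ u : κ → ℝ, u ⬝ᵥ (Xm B y *ᵥ u) ≤ b * (u ⬝ᵥ u)} := by
  rw [Set.ofPred_forall]
  refine isClosed_iInter fun u => isClosed_le ?_ continuous_const
  unfold Xm
  fun_prop

omit [DecidableEq ι] [Fintype κ] [DecidableEq κ] in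
theorem vred_Xm (A : ι → Matrix κ κ ℝ) (L : Matrix ι ι ℝ) (r : ℝ) (y : ι → ℝ) :
    Xm (fun i => r • Xm A (fun j => L j i)) y = r • Xm A (L *ᵥ y) := by
  ext a e
  simp only [Xm, Matrix.sum_apply, Matrix.smul_apply, smul_eq_mul, mulVec, dotProduct,
    Finset.mul_sum, Finset.sum_mul]
  rw [Finset.sum_comm]
  refine Finset.sum_congr rfl fun i _ => Finset.sum_congr rfl fun j _ => by ring

omit [DecidableEq ι] [DecidableEq κ] in
theorem vred_fro (A : ι → Matrix κ κ ℝ) (y : ι → ℝ) :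
    fro (Xm A y) = ((Matrix.of fun (p : κ × κ) i => A i p.1 p.2) *ᵥ y) ⬝ᵥ
      ((Matrix.of fun (p : κ × κ) i => A i p.1 p.2) *ᵥ y) := by
  simp only [fro, Xm, Matrix.sum_apply, Matrix.smul_apply, smul_eq_mul, mulVec, dotProduct,
    Fintype.sum_prod_type, Matrix.of_apply, sq, mul_comm (y _)]

omit [DecidableEq κ] in
theorem vred_fro_smul (r : ℝ) (M : Matrix κ κ ℝ) : fro (r • M) = r ^ 2 * fro M := by
  simp only [fro, Matrix.smul_apply, smul_eq_mul, mul_pow, Finset.mul_sum]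

theorem vred_fro_le (M : Matrix κ κ ℝ) (h : ∀ u : κ → ℝ, (M *ᵥ u) ⬝ᵥ (M *ᵥ u) ≤ u ⬝ᵥ u) :
    fro M ≤ Fintype.card κ := by
  rw [fro, Finset.sum_comm]
  calc _ ≤ ∑ _e : κ, (1 : ℝ) := Finset.sum_le_sum fun e _ => by
        simpa [dotProduct, sq, Pi.single_apply] using h (Pi.single e 1)
    _ = _ := by simp

omit [DecidableEq ι] [DecidableEq κ] in
theorem vred_sig (A : ι → Matrix κ κ ℝ) (L : Matrix ι ι ℝ)
    (hL : ∀ y, (Lᵀ *ᵥ y) ⬝ᵥ (Lᵀ *ᵥ y) ≤ y ⬝ᵥ y) (u : κ → ℝ) :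
    ∑ i, (Xm A (fun j => L j i) *ᵥ u) ⬝ᵥ (Xm A (fun j => L j i) *ᵥ u) ≤
      ∑ j, (A j *ᵥ u) ⬝ᵥ (A j *ᵥ u) := by
  have h1 : ∀ i β, (Xm A (fun j => L j i) *ᵥ u) β = (Lᵀ *ᵥ fun j => (A j *ᵥ u) β) i := by
    intro i β
    rw [Xm, Matrix.sum_mulVec, Finset.sum_apply]
    simp only [Matrix.smul_mulVec, Pi.smul_apply, smul_eq_mul]
    rfl
  simp only [dotProduct, h1]
  rw [Finset.sum_comm]
  conv_rhs => rw [Finset.sum_comm]
  exact Finset.sum_le_sum fun β _ => hL _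

/-- The variance reduction: a contraction of large determinant after which the variance is
small. -/
theorem vred_exists (A : ι → Matrix κ κ ℝ)
    (hA : ∀ i (u : κ → ℝ), (A i *ᵥ u) ⬝ᵥ (A i *ᵥ u) ≤ u ⬝ᵥ u) (hd : 1 ≤ Fintype.card κ) :
    ∃ L : Matrix ι ι ℝ, (∀ y, (L *ᵥ y) ⬝ᵥ (L *ᵥ y) ≤ y ⬝ᵥ y) ∧
      (∀ y, (Lᵀ *ᵥ y) ⬝ᵥ (Lᵀ *ᵥ y) ≤ y ⬝ᵥ y) ∧
      (∀ y, fro (Xm A (L *ᵥ y)) ≤ 10 * Fintype.card κ * (y ⬝ᵥ y)) ∧
      Real.exp (-(Fintype.card ι : ℝ) / 20) ≤ |L.det| := by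
  set E : Matrix (κ × κ) ι ℝ := Matrix.of fun (p : κ × κ) i => A i p.1 p.2 with hE
  obtain ⟨O, g, h1, h2, h3⟩ := vred_spectral (Eᵀ * E) (by simp)
  have hd' : (0 : ℝ) < Fintype.card κ := by exact_mod_cast hd
  set d : ℝ := (Fintype.card κ : ℝ)
  have hq : ∀ z, fro (Xm A (O *ᵥ z)) = ∑ i, g i * z i ^ 2 := by
    intro z
    rw [vred_fro, ← hE, mulVec_mulVec, vred_dot, transpose_mul, Matrix.mul_assoc,
      ← Matrix.mul_assoc Eᵀ, h3]
    simp only [← Matrix.mul_assoc, h2, Matrix.one_mul]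
    rw [Matrix.mul_assoc, h2, Matrix.mul_one]
    refine Finset.sum_congr rfl fun i _ => ?_
    rw [mulVec_diagonal]; ring
  have hg : ∀ i, 0 ≤ g i := by
    intro i
    have h4 : 0 ≤ fro (Xm A (O *ᵥ Pi.single i 1)) := by unfold fro; positivity
    rw [hq] at h4
    simpa [Pi.single_apply] using h4
  have htr : ∑ i, g i ≤ Fintype.card ι * d := by
    have h4 : trace (Eᵀ * E) = ∑ i, g i := by
      rw [h3, trace_mul_comm, ← Matrix.mul_assoc, h2, Matrix.one_mul, trace_diagonal]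
    have h5 : trace (Eᵀ * E) = ∑ i, fro (A i) := by
      simp only [trace, diag, Matrix.mul_apply, transpose_apply, hE, Matrix.of_apply, fro,
        Fintype.sum_prod_type, sq]
    rw [← h4, h5]
    calc _ ≤ ∑ _i : ι, d := Finset.sum_le_sum fun i _ => vred_fro_le _ (hA i)
      _ = _ := by simp
  have hp : ∀ i, 0 < 1 + g i / (10 * d) := fun i => by have := hg i; positivity
  set s : ι → ℝ := fun i => (Real.sqrt (1 + g i / (10 * d)))⁻¹ with hs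
  have hs2 : ∀ i, s i ^ 2 = (1 + g i / (10 * d))⁻¹ := fun i => by
    rw [hs, inv_pow, Real.sq_sqrt (hp i).le]
  have hs1 : ∀ i, s i ^ 2 ≤ 1 := fun i => by
    rw [hs2]
    have := hg i
    exact inv_le_one_of_one_le₀ (le_add_of_nonneg_right (by positivity))
  refine ⟨O * diagonal s, fun y => ?_, fun y => ?_, fun y => ?_, ?_⟩
  · rw [← mulVec_mulVec, vred_orth h2]
    exact vred_diag hs1 y
  · rw [transpose_mul, diagonal_transpose, ← mulVec_mulVec]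
    exact (vred_diag hs1 _).trans (vred_orth (by rwa [transpose_transpose]) y).le
  · rw [← mulVec_mulVec, hq, dotProduct, Finset.mul_sum]
    refine Finset.sum_le_sum fun i _ => ?_
    rw [mulVec_diagonal, mul_pow, hs2, ← mul_assoc, ← sq]
    refine mul_le_mul_of_nonneg_right ?_ (sq_nonneg _)
    rw [← div_eq_mul_inv, div_le_iff₀ (hp i), mul_add, mul_div_cancel₀ _ (by positivity)]
    linarith
  · have hO : |O.det| = 1 := by
      have h4 := congrArg det h1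
      rw [det_mul, det_transpose, det_one] at h4
      rcases mul_self_eq_one_iff.1 h4 with h | h <;> simp [h]
    rw [det_mul, abs_mul, hO, one_mul, det_diagonal]
    refine le_trans ?_ (le_abs_self _)
    calc Real.exp (-(Fintype.card ι : ℝ) / 20) ≤ Real.exp (∑ i, -(g i / (10 * d)) / 2) := by
          rw [Real.exp_le_exp, ← Finset.sum_div, Finset.sum_neg_distrib, ← Finset.sum_div]
          have : (∑ i, g i) / (10 * d) ≤ Fintype.card ι / 10 := by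
            rw [div_le_iff₀ (by positivity)]; linarith
          linarith
      _ = ∏ i, Real.exp (-(g i / (10 * d)) / 2) := Real.exp_sum _ _
      _ ≤ ∏ i, s i := by
          refine Finset.prod_le_prod (fun i _ => (Real.exp_pos _).le) fun i _ => ?_
          refine (pow_le_pow_iff_left₀ (Real.exp_pos _).le (by positivity) two_ne_zero).1 ?_
          rw [hs2, ← Real.exp_nat_mul, show ((2 : ℕ) : ℝ) * (-(g i / (10 * d)) / 2) =
            -(g i / (10 * d)) by push_cast; ring, Real.exp_neg]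
          exact inv_anti₀ (hp i) (by linarith [Real.add_one_le_exp (g i / (10 * d))])

end VRedAux

theorem smallBall_of_smallBall0 (h : SmallBall0) : SmallBall := by
  intro ι κ _ _ _ _ A hsym hA hflip hn hnd
  obtain ⟨L, hL, hLt, hvar, hdet⟩ := vred_exists A hA (hn.trans hnd)
  have hn' : (0 : ℝ) < Fintype.card ι := by exact_mod_cast hn
  have hnd' : (Fintype.card ι : ℝ) ≤ Fintype.card κ := by exact_mod_cast hnd
  set n : ℝ := (Fintype.card ι : ℝ) with hn0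
  set d : ℝ := (Fintype.card κ : ℝ) with hd0
  have hd' : 0 < d := hn'.trans_le hnd'
  set r : ℝ := (Real.sqrt n)⁻¹ with hr
  have hr0 : 0 < r := by positivity
  have hr2 : r ^ 2 = n⁻¹ := by rw [hr, inv_pow, Real.sq_sqrt hn'.le]
  set b : ℝ := 300 * (d / n) ^ (2 / 5 : ℝ) with hb
  have hb1 : 300 ≤ b := by
    have : 1 ≤ (d / n) ^ (2 / 5 : ℝ) := Real.one_le_rpow ((one_le_div hn').2 hnd') (by norm_num)
    linarith
  have hb5 : b ^ 5 = 300 ^ 5 * (d / n) ^ 2 := by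
    rw [hb, mul_pow, ← Real.rpow_natCast ((d / n) ^ (2 / 5 : ℝ)), ← Real.rpow_mul (by positivity)]
    norm_num
  have hbr : b = r * (300 * d ^ (2 / 5 : ℝ) * n ^ (1 / 10 : ℝ)) := by
    have h1 : n ^ (1 / 10 : ℝ) * n ^ (2 / 5 : ℝ) = Real.sqrt n := by
      rw [← Real.rpow_add hn', Real.sqrt_eq_rpow]; norm_num
    have h2 : 0 < n ^ (1 / 10 : ℝ) := by positivity
    have h3 : 0 < n ^ (2 / 5 : ℝ) := by positivity
    rw [hb, hr, Real.div_rpow hd'.le hn'.le, ← h1]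
    field_simp
  have hS : Setup (fun i => r • Xm A (fun j => L j i)) (5 * d / n) := by
    refine ⟨fun i => ?_, fun u => ?_, fun y => ?_, by positivity, ?_⟩
    · simp only [Xm, transpose_smul, transpose_sum, hsym]
    · simp only [Matrix.smul_mulVec, smul_dotProduct, dotProduct_smul, smul_eq_mul,
        ← mul_assoc, ← Finset.mul_sum, ← sq, hr2]
      rw [inv_mul_le_iff₀ hn']
      refine (vred_sig A L hLt u).trans ?_
      calc _ ≤ ∑ _j : ι, u ⬝ᵥ u := Finset.sum_le_sum fun j _ => hA j u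
        _ = _ := by simp [hn0]
    · rw [vred_Xm, vred_fro_smul, hr2, inv_mul_le_iff₀ hn']
      refine (hvar y).trans (le_of_eq ?_)
      field_simp
      ring
    · obtain ⟨Q, hQ, hQ'⟩ := hflip
      refine ⟨Q, hQ, fun i => ?_⟩
      simp only [Xm, Matrix.mul_smul, Matrix.smul_mul, Matrix.mul_sum, Matrix.sum_mul, hQ',
        smul_neg, Finset.sum_neg_distrib]
  have h0 := h ι κ _ b _ hS (by linarith)
  have h1 := vred_image L hL (abs_pos.1 ((Real.exp_pos _).trans_le hdet))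
    (vred_closed (fun i => r • Xm A (fun j => L j i)) b).measurableSet
  refine le_trans ?_ (h1.trans (measure_mono ?_))
  · refine le_trans ?_ (mul_le_mul' (ENNReal.ofReal_le_ofReal hdet) h0)
    rw [← ENNReal.ofReal_mul (Real.exp_pos _).le, ← Real.exp_add]
    refine ENNReal.ofReal_le_ofReal (Real.exp_le_exp.2 ?_)
    have h2 : 30 * n / b ≤ n / 10 := by
      rw [div_le_iff₀ (by linarith)]; nlinarith
    have h3 : 7680 * (5 * d / n) * d / b ^ 5 ≤ n / 10 := by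
      rw [hb5, show 7680 * (5 * d / n) * d / (300 ^ 5 * (d / n) ^ 2) = 38400 / 300 ^ 5 * n by
        field_simp; norm_num]
      nlinarith
    linarith
  · rintro _ ⟨y, hy, rfl⟩ u
    have h2 := hy u
    rw [vred_Xm, Matrix.smul_mulVec, dotProduct_smul, smul_eq_mul, hbr, mul_assoc r] at h2
    exact le_of_mul_le_mul_left h2 hr0

end Pool.Agent.MS
end
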