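import Pool.Agent.Lib.MP_e2be92_co.Half

-- part Pool.Agent.Lib.MP_e2be92_co.Cross
section

set_option autoImplicit false
open Matrix

namespace Pool.Agent.MS

variable {ι κ : Type} [Fintype ι] [Fintype κ] [DecidableEq κ]
variable {B : ι → Matrix κ κ ℝ} {c : ℝ}

omit [Fintype κ] [DecidableEq κ] in
private lemma cross_Xm_apply (D : ι → Matrix κ κ ℝ) (y : ι → ℝ) (a b : κ) :
    Xm D y a b = ∑ l, y l * D l a b := by
  simp [Xm, Matrix.sum_apply]

omit [Fintype κ] [DecidableEq κ] in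
private lemma cross_Xm_symm {D : ι → Matrix κ κ ℝ} (hD : ∀ i, (D i)ᵀ = D i) (y : ι → ℝ) :
    (Xm D y)ᵀ = Xm D y := by
  simp [Xm, transpose_sum, hD]

omit [DecidableEq κ] in
private lemma cross_dot_symm {M : Matrix κ κ ℝ} (hM : Mᵀ = M) (x y : κ → ℝ) :
    x ⬝ᵥ (M *ᵥ y) = (M *ᵥ x) ⬝ᵥ y := by
  rw [dotProduct_mulVec, ← mulVec_transpose, hM]

omit [DecidableEq κ] in
private lemma cross_two_dot (x y : κ → ℝ) : x ⬝ᵥ y + x ⬝ᵥ y ≤ x ⬝ᵥ x + y ⬝ᵥ y := by
  have := dot_self_nonneg (x - y)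
  rw [sub_dotProduct, dotProduct_sub, dotProduct_sub, dotProduct_comm y x] at this
  linarith

/-- The crossing bound. -/
theorem cross (hB : Setup B c) {D : ι → Matrix κ κ ℝ}
    (hD : ∀ y : ι → ℝ, 8 * c * fro (Xm D y) ≤ y ⬝ᵥ y) (a : κ → ℝ) (z : ι → κ → ℝ) :
    ∑ i, ∑ l, a ⬝ᵥ ((B i * D l * B i) *ᵥ z l) ≤ (a ⬝ᵥ a + ∑ l, z l ⬝ᵥ z l) / 4 := by
  have hc := hB.cpos
  have h1 : ∀ i l, a ⬝ᵥ ((B i * D l * B i) *ᵥ z l) =
      ∑ e, ∑ β, ∑ γ, (z l e * D l β γ) * ((B i *ᵥ a) β * B i γ e) := by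
    intro i l
    rw [← mulVec_mulVec, ← mulVec_mulVec, cross_dot_symm (hB.symm i)]
    generalize B i *ᵥ a = v
    simp only [dotProduct, mulVec, Finset.mul_sum]
    rw [Finset.sum_comm (f := fun e β => ∑ γ, (z l e * D l β γ) * (v β * B i γ e))]
    refine Finset.sum_congr rfl fun β _ => ?_
    rw [Finset.sum_comm]
    exact Finset.sum_congr rfl fun e _ => Finset.sum_congr rfl fun γ _ => by ring
  have h2 : ∑ i, ∑ l, a ⬝ᵥ ((B i * D l * B i) *ᵥ z l) =
      ∑ e, ∑ β, ∑ γ, Xm D (fun l => z l e) β γ * Xm B (fun i => (B i *ᵥ a) β) γ e := by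
    simp only [h1, cross_Xm_apply, Finset.sum_mul_sum]
    rw [Finset.sum_comm]
    symm
    calc _ = ∑ e, ∑ β, ∑ l, ∑ i, ∑ γ, (z l e * D l β γ) * ((B i *ᵥ a) β * B i γ e) := by
          refine Finset.sum_congr rfl fun e _ => Finset.sum_congr rfl fun β _ => ?_
          rw [Finset.sum_comm]
          exact Finset.sum_congr rfl fun l _ => Finset.sum_comm
      _ = ∑ e, ∑ l, ∑ i, ∑ β, ∑ γ, (z l e * D l β γ) * ((B i *ᵥ a) β * B i γ e) := by
          refine Finset.sum_congr rfl fun e _ => ?_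
          rw [Finset.sum_comm]
          exact Finset.sum_congr rfl fun l _ => Finset.sum_comm
      _ = _ := by
          rw [Finset.sum_comm]
          exact Finset.sum_congr rfl fun l _ => Finset.sum_comm
  have h3 : ∀ x y : ℝ, x * y ≤ 2 * c * x ^ 2 + (8 * c)⁻¹ * y ^ 2 := by
    intro x y
    have : 2 * c * x ^ 2 + (8 * c)⁻¹ * y ^ 2 - x * y = (8 * c)⁻¹ * (4 * c * x - y) ^ 2 := by
      field_simp
      ring
    have : 0 ≤ (8 * c)⁻¹ * (4 * c * x - y) ^ 2 := by positivity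
    linarith
  have h4 : ∑ e, ∑ β, ∑ γ, Xm D (fun l => z l e) β γ * Xm B (fun i => (B i *ᵥ a) β) γ e ≤
      ∑ e, 2 * c * fro (Xm D (fun l => z l e)) +
        (8 * c)⁻¹ * ∑ β, fro (Xm B (fun i => (B i *ᵥ a) β)) := by
    have : ∑ β, fro (Xm B (fun i => (B i *ᵥ a) β)) =
        ∑ e, ∑ β, ∑ γ, Xm B (fun i => (B i *ᵥ a) β) γ e ^ 2 := by
      rw [Finset.sum_comm]
      exact Finset.sum_congr rfl fun β _ => Finset.sum_comm
    rw [this]
    simp only [fro, Finset.mul_sum, ← Finset.sum_add_distrib]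
    exact Finset.sum_le_sum fun e _ => Finset.sum_le_sum fun β _ =>
      Finset.sum_le_sum fun γ _ => h3 _ _
  have h5 : ∑ e, 2 * c * fro (Xm D (fun l => z l e)) ≤ (∑ l, z l ⬝ᵥ z l) / 4 := by
    have : ∑ l, z l ⬝ᵥ z l = ∑ e, (fun l => z l e) ⬝ᵥ (fun l => z l e) := Finset.sum_comm
    rw [this, Finset.sum_div]
    exact Finset.sum_le_sum fun e _ => by have := hD (fun l => z l e); linarith
  have h6 : ∑ β, fro (Xm B (fun i => (B i *ᵥ a) β)) ≤ 2 * c * (a ⬝ᵥ a) := by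
    refine (Finset.sum_le_sum fun β _ => hB.var _).trans ?_
    rw [← Finset.mul_sum]
    refine mul_le_mul_of_nonneg_left (le_of_eq_of_le ?_ (hB.sig a)) (by positivity)
    exact Finset.sum_comm
  have h7 := mul_le_mul_of_nonneg_left h6 (show 0 ≤ (8 * c)⁻¹ by positivity)
  have h8 : (8 * c)⁻¹ * (2 * c * (a ⬝ᵥ a)) = a ⬝ᵥ a / 4 := by
    field_simp
    ring
  linarith

private lemma cross_aux (hB : Setup B c) {W : Matrix ι ι ℝ}
    (hW : ∀ y, (W *ᵥ y) ⬝ᵥ (W *ᵥ y) ≤ y ⬝ᵥ y) (w : κ → ℝ) :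
    ∑ i, (Xm B (W i) *ᵥ w) ⬝ᵥ (Xm B (W i) *ᵥ w) ≤ w ⬝ᵥ w := by
  have h1 : ∀ i β, (Xm B (W i) *ᵥ w) β = (W *ᵥ fun l => (B l *ᵥ w) β) i := by
    intro i β
    simp only [Xm, sum_mulVec, smul_mulVec, Finset.sum_apply, Pi.smul_apply, smul_eq_mul]
    rfl
  calc _ = ∑ β, (W *ᵥ fun l => (B l *ᵥ w) β) ⬝ᵥ (W *ᵥ fun l => (B l *ᵥ w) β) := by
        simp only [dotProduct, h1]
        exact Finset.sum_comm
    _ ≤ ∑ β, (fun l => (B l *ᵥ w) β) ⬝ᵥ (fun l => (B l *ᵥ w) β) :=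
        Finset.sum_le_sum fun β _ => hW _
    _ = ∑ l, (B l *ᵥ w) ⬝ᵥ (B l *ᵥ w) := Finset.sum_comm
    _ ≤ _ := hB.sig w

theorem pw1 (hB : Setup B c) {R : Matrix κ κ ℝ} (hR : Rᵀ = R) {U U' : Matrix ι ι ℝ}
    (hU : Uᵀ = U) (hUc : ∀ y, (U *ᵥ y) ⬝ᵥ (U *ᵥ y) ≤ y ⬝ᵥ y)
    (hU' : U'ᵀ = U') (hUc' : ∀ y, (U' *ᵥ y) ⬝ᵥ (U' *ᵥ y) ≤ y ⬝ᵥ y) (u : κ → ℝ) :
    ∑ i, ∑ l, (u ⬝ᵥ ((R * Xm B (fun j => U j l) * R * B i * R +
        R * B i * (R * Xm B (fun j => U j l) * R)) *ᵥ u)) * U' i l ≤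
      (R *ᵥ u) ⬝ᵥ (R *ᵥ u) + ∑ i, ((R * B i * R) *ᵥ u) ⬝ᵥ ((R * B i * R) *ᵥ u) := by
  have _ := hU'
  have h1 : ∀ (i : ι) (Y : Matrix κ κ ℝ), Yᵀ = Y →
      u ⬝ᵥ ((R * Y * R * B i * R + R * B i * (R * Y * R)) *ᵥ u) =
      (Y *ᵥ (R *ᵥ u)) ⬝ᵥ ((R * B i * R) *ᵥ u) + (Y *ᵥ (R *ᵥ u)) ⬝ᵥ ((R * B i * R) *ᵥ u) := by
    intro i Y hY
    rw [add_mulVec, dotProduct_add]
    simp only [← mulVec_mulVec]
    congr 1
    · rw [cross_dot_symm hR, cross_dot_symm hY]
    · rw [cross_dot_symm hR, cross_dot_symm (hB.symm i), cross_dot_symm hR, dotProduct_comm]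
  have h2 : ∀ i, ∑ l, U' i l • Xm B (fun j => U j l) = Xm B ((U' * U) i) := by
    intro i
    simp only [Xm, Finset.smul_sum, smul_smul, mul_apply, Finset.sum_smul]
    rw [Finset.sum_comm]
    refine Finset.sum_congr rfl fun j _ => Finset.sum_congr rfl fun l _ => ?_
    rw [← hU, transpose_apply, hU]
  have h3 := cross_aux hB (W := U' * U) (fun y => by
    rw [← mulVec_mulVec]; exact (hUc' _).trans (hUc y)) (R *ᵥ u)
  refine le_trans ?_ (add_le_add_left h3 _)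
  rw [← Finset.sum_add_distrib]
  refine Finset.sum_le_sum fun i _ => le_trans (le_of_eq ?_) (cross_two_dot _ _)
  simp only [h1 i _ (cross_Xm_symm hB.symm _), ← h2, sum_mulVec, smul_mulVec, sum_dotProduct,
    smul_dotProduct, smul_eq_mul, ← Finset.sum_add_distrib]
  exact Finset.sum_congr rfl fun l _ => by ring

omit [DecidableEq κ] in
private lemma cross_move (L : Matrix κ κ ℝ → Matrix κ κ ℝ)
    (hL : ∀ y : ι → ℝ, L (Xm B y) = ∑ j, y j • L (B j)) (U : Matrix ι ι ℝ)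
    (D : ι → Matrix κ κ ℝ) :
    ∑ l, trace (Sm B (L (Xm B (fun j => U j l))) * D l) =
      ∑ j, trace (Sm B (L (B j)) * Xm D (U j)) := by
  have h : ∀ (y : ι → ℝ) (M : ι → Matrix κ κ ℝ), Sm B (∑ j, y j • M j) = ∑ j, y j • Sm B (M j) := by
    intro y M
    simp only [Sm, Finset.mul_sum, Finset.sum_mul, Finset.smul_sum, Matrix.mul_smul,
      Matrix.smul_mul]
    exact Finset.sum_comm
  simp only [hL, h]
  simp only [Xm, Finset.mul_sum, Finset.sum_mul, Matrix.mul_smul, Matrix.smul_mul, trace_sum,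
    trace_smul]
  exact Finset.sum_comm

omit [DecidableEq κ] in
private lemma cross_moveD {U : Matrix ι ι ℝ} (hU : Uᵀ = U)
    (hUc : ∀ y, (U *ᵥ y) ⬝ᵥ (U *ᵥ y) ≤ y ⬝ᵥ y) {D : ι → Matrix κ κ ℝ}
    (hD : ∀ y : ι → ℝ, 8 * c * fro (Xm D y) ≤ y ⬝ᵥ y) (y : ι → ℝ) :
    8 * c * fro (Xm (fun j => Xm D (U j)) y) ≤ y ⬝ᵥ y := by
  have : Xm (fun j => Xm D (U j)) y = Xm D (U *ᵥ y) := by
    simp only [Xm, Finset.smul_sum, smul_smul, mulVec, dotProduct, Finset.sum_smul]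
    rw [Finset.sum_comm]
    refine Finset.sum_congr rfl fun j _ => Finset.sum_congr rfl fun l _ => ?_
    rw [mul_comm, ← hU, transpose_apply, hU]
  rw [this]
  exact (hD _).trans (hUc y)

omit [DecidableEq κ] in
private lemma cross_rank (hB : ∀ i, (B i)ᵀ = B i) {D : Matrix κ κ ℝ} (hD : Dᵀ = D)
    (w z : κ → ℝ) :
    trace (Sm B (vecMulVec z w + vecMulVec w z) * D) = 2 * ∑ i, w ⬝ᵥ ((B i * D * B i) *ᵥ z) := by
  have h : ∀ (i : ι) (w z : κ → ℝ),
      trace (B i * vecMulVec z w * B i * D) = w ⬝ᵥ ((B i * D * B i) *ᵥ z) := by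
    intro i w z
    rw [mul_vecMulVec, Matrix.mul_assoc, vecMulVec_mul, trace_vecMulVec, dotProduct_comm,
      ← dotProduct_mulVec, mulVec_mulVec]
  simp only [Sm, Finset.sum_mul, Matrix.mul_add, Matrix.add_mul, trace_sum, trace_add, h,
    Finset.mul_sum]
  refine Finset.sum_congr rfl fun i _ => ?_
  rw [cross_dot_symm (M := B i * D * B i) (by simp [hB, hD, Matrix.mul_assoc]) z w,
    dotProduct_comm _ w, cross_dot_symm (M := B i * D * B i) (by simp [hB, hD, Matrix.mul_assoc]),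
    dotProduct_comm]
  ring

theorem pw2 (hB : Setup B c) {R : Matrix κ κ ℝ} (hR : Rᵀ = R) {U : Matrix ι ι ℝ}
    (hU : Uᵀ = U) (hUc : ∀ y, (U *ᵥ y) ⬝ᵥ (U *ᵥ y) ≤ y ⬝ᵥ y) {D : ι → Matrix κ κ ℝ}
    (hDs : ∀ l, (D l)ᵀ = D l) (hD : ∀ y : ι → ℝ, 8 * c * fro (Xm D y) ≤ y ⬝ᵥ y) (u : κ → ℝ) :
    ∑ l, trace (Sm B (R * Xm B (fun j => U j l) * R * vecMulVec u u * R +
        R * vecMulVec u u * (R * Xm B (fun j => U j l) * R)) * D l) ≤
      ((R *ᵥ u) ⬝ᵥ (R *ᵥ u) + ∑ i, ((R * B i * R) *ᵥ u) ⬝ᵥ ((R * B i * R) *ᵥ u)) / 2 := by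
  have h1 := cross_move (B := B)
    (fun Y => R * Y * R * vecMulVec u u * R + R * vecMulVec u u * (R * Y * R)) (fun y => by
      simp only [Xm, Finset.mul_sum, Finset.sum_mul, Matrix.mul_smul, Matrix.smul_mul, smul_add,
        Finset.sum_add_distrib]) U D
  have h2 : ∀ j, R * B j * R * vecMulVec u u * R + R * vecMulVec u u * (R * B j * R) =
      vecMulVec ((R * B j * R) *ᵥ u) (R *ᵥ u) + vecMulVec (R *ᵥ u) ((R * B j * R) *ᵥ u) := by
    intro j
    rw [mul_vecMulVec, mul_vecMulVec, vecMulVec_mul, vecMulVec_mul, ← mulVec_transpose,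
      ← mulVec_transpose, hR]
    simp [hR, hB.symm, Matrix.mul_assoc]
  have h3 := cross hB (cross_moveD hU hUc hD) (R *ᵥ u) fun j => (R * B j * R) *ᵥ u
  simp only [h2, cross_rank hB.symm (cross_Xm_symm hDs _)] at h1
  rw [h1, ← Finset.mul_sum, Finset.sum_comm]
  linarith

private lemma cross_spec {R : Matrix κ κ ℝ} (hR : R.PosDef) :
    ∃ (O : Matrix κ κ ℝ) (r : κ → ℝ), O * Oᵀ = 1 ∧ Oᵀ * O = 1 ∧ (∀ a, 0 < r a) ∧
      R = O * diagonal r * Oᵀ := by
  refine ⟨hR.1.eigenvectorUnitary, hR.1.eigenvalues, ?_, ?_, hR.eigenvalues_pos, ?_⟩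
  · simpa [star_eq_conjTranspose] using hR.1.eigenvectorUnitary.2.2
  · simpa [star_eq_conjTranspose] using hR.1.eigenvectorUnitary.2.1
  · simpa [star_eq_conjTranspose] using hR.1.spectral_theorem

/-- The weight used to split the divided difference of the fifth power. -/
private noncomputable def cross_al (a b : ℝ) : ℝ :=
  (a ^ 4 + a ^ 3 * b + a ^ 2 * b ^ 2 + a * b ^ 3 + b ^ 4) * b / (a ^ 4 + b ^ 4)

private lemma cross_al_add {a b : ℝ} (ha : 0 < a) (hb : 0 < b) :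
    a ^ 5 * cross_al a b + b ^ 5 * cross_al b a =
      a * b ^ 5 + a ^ 2 * b ^ 4 + a ^ 3 * b ^ 3 + a ^ 4 * b ^ 2 + a ^ 5 * b := by
  unfold cross_al
  field_simp
  ring

private lemma cross_al_sq {a b : ℝ} (ha : 0 < a) (hb : 0 < b) :
    cross_al a b ^ 2 ≤ 25 * b ^ 2 := by
  have h0 : 0 ≤ cross_al a b := by unfold cross_al; positivity
  have h1 : cross_al a b ≤ 5 * b := by
    unfold cross_al
    rw [div_le_iff₀ (by positivity)]
    have h2 : a ^ 4 + a ^ 3 * b + a ^ 2 * b ^ 2 + a * b ^ 3 + b ^ 4 ≤ 5 * (a ^ 4 + b ^ 4) := by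
      nlinarith [sq_nonneg (a ^ 2 - b ^ 2), sq_nonneg (a ^ 2 - a * b), sq_nonneg (b ^ 2 - a * b),
        sq_nonneg (a ^ 2), sq_nonneg (b ^ 2)]
    nlinarith
  nlinarith

theorem pw3 (hB : Setup B c) {R : Matrix κ κ ℝ} (hR : R.PosDef) {U : Matrix ι ι ℝ}
    (hU : Uᵀ = U) (hUc : ∀ y, (U *ᵥ y) ⬝ᵥ (U *ᵥ y) ≤ y ⬝ᵥ y) {D : ι → Matrix κ κ ℝ}
    (hDs : ∀ l, (D l)ᵀ = D l) (hD : ∀ y : ι → ℝ, 8 * c * fro (Xm D y) ≤ y ⬝ᵥ y) :
    ∑ l, trace (Sm B (D5 R (Xm B (fun j => U j l))) * D l) ≤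
      25 / 2 * trace (R ^ 5) + 1 / 2 * trace (Sm B (R ^ 5) * (R * R)) := by
  obtain ⟨O, r, hO, hO', hr, hRO⟩ := cross_spec hR
  have hc : ∀ M : Matrix κ κ ℝ, Oᵀ * (O * M) = M := fun M => by
    rw [← Matrix.mul_assoc, hO', Matrix.one_mul]
  have hp : ∀ k, R ^ k = O * diagonal (fun a => r a ^ k) * Oᵀ := by
    intro k
    induction k with
    | zero => simp [hO]
    | succ k ih =>
      rw [pow_succ, ih, hRO]
      simp only [Matrix.mul_assoc, hc]
      rw [← Matrix.mul_assoc (diagonal _), diagonal_mul_diagonal]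
      simp only [pow_succ]
  obtain ⟨C, hC⟩ : ∃ C : ι → Matrix κ κ ℝ, ∀ j, C j = Oᵀ * B j * O := ⟨_, fun _ => rfl⟩
  have hBC : ∀ j, B j = O * C j * Oᵀ := fun j => by
    rw [hC, Matrix.mul_assoc, Matrix.mul_assoc, Matrix.mul_assoc, hO, Matrix.mul_one,
      ← Matrix.mul_assoc, hO, Matrix.one_mul]
  have hCs : ∀ j a b, C j b a = C j a b := fun j a b => by
    have : (C j)ᵀ = C j := by simp [hC, hB.symm, Matrix.mul_assoc]
    rw [← this, transpose_apply, this]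
  have hkm : ∀ j k m, R ^ k * B j * R ^ m =
      O * Matrix.of (fun a b => r a ^ k * C j a b * r b ^ m) * Oᵀ := by
    intro j k m
    rw [hp, hp, hBC]
    simp only [Matrix.mul_assoc, hc]
    congr 1
    simp only [← Matrix.mul_assoc]
    congr 1
    ext a b
    simp
  have hv : ∀ A : Matrix κ κ ℝ, O * A * Oᵀ = ∑ a, vecMulVec (fun x => O x a) (O *ᵥ A a) := by
    intro A
    ext x y
    simp only [mul_apply, Matrix.sum_apply, vecMulVec_apply, mulVec, dotProduct, transpose_apply,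
      Finset.sum_mul, Finset.mul_sum]
    rw [Finset.sum_comm]
    exact Finset.sum_congr rfl fun a _ => Finset.sum_congr rfl fun b _ => by ring
  let z : κ → ι → κ → ℝ := fun a j => O *ᵥ fun b => cross_al (r a) (r b) * C j a b
  have h2 : ∀ j, D5 R (B j) = ∑ a, r a ^ 5 •
      (vecMulVec (z a j) (fun x => O x a) + vecMulVec (fun x => O x a) (z a j)) := by
    intro j
    have a1 : ∑ a, r a ^ 5 • vecMulVec (fun x => O x a) (z a j) =
        O * Matrix.of (fun a b => r a ^ 5 * (cross_al (r a) (r b) * C j a b)) * Oᵀ := by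
      rw [hv]
      refine Finset.sum_congr rfl fun a _ => ?_
      rw [← vecMulVec_smul, ← mulVec_smul]
      rfl
    have a2 := congrArg transpose a1
    simp only [transpose_sum, transpose_smul, transpose_vecMulVec, transpose_mul,
      transpose_transpose, ← Matrix.mul_assoc] at a2
    have a3 := hkm j 1 5
    have a4 := hkm j 5 1
    rw [pow_one] at a3 a4
    simp only [smul_add, Finset.sum_add_distrib, a1, a2, D5, a3, a4, hkm, ← Matrix.add_mul,
      ← Matrix.mul_add]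
    congr 2
    ext a b
    simp only [Matrix.add_apply, of_apply, transpose_apply, hCs j a b]
    linear_combination (-C j a b) * cross_al_add (hr a) (hr b)
  have h1 := cross_move (B := B) (D5 R) (fun y => by
      simp only [D5, Xm, Finset.mul_sum, Finset.sum_mul, Matrix.mul_smul, Matrix.smul_mul,
        smul_add, Finset.sum_add_distrib]) U D
  have h3 : ∀ (M : κ → Matrix κ κ ℝ) (E : Matrix κ κ ℝ), trace (Sm B (∑ a, r a ^ 5 • M a) * E) =
      ∑ a, r a ^ 5 * trace (Sm B (M a) * E) := by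
    intro M E
    simp only [Sm, Finset.mul_sum, Finset.sum_mul, Matrix.mul_smul, Matrix.smul_mul, trace_sum,
      trace_smul, smul_eq_mul]
    exact Finset.sum_comm
  have h4 : trace (R ^ 5) = ∑ a, r a ^ 5 := by
    rw [hp, trace_mul_cycle, hO', Matrix.one_mul, trace_diagonal]
  have h5 : trace (Sm B (R ^ 5) * (R * R)) = ∑ a, r a ^ 5 * ∑ j, ∑ b, r b ^ 2 * C j a b ^ 2 := by
    have : ∀ j, trace (B j * R ^ 5 * B j * (R * R)) =
        ∑ a, ∑ b, r a ^ 5 * (r b ^ 2 * C j a b ^ 2) := by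
      intro j
      rw [← pow_two, Matrix.mul_assoc, Matrix.mul_assoc, ← Matrix.mul_assoc (R ^ 5), hkm, hBC,
        trace_mul_comm]
      simp only [Matrix.mul_assoc, hc]
      rw [trace_mul_comm]
      simp only [Matrix.mul_assoc, hO', Matrix.mul_one, trace, diag_apply, mul_apply, of_apply]
      exact Finset.sum_congr rfl fun a _ => Finset.sum_congr rfl fun b _ => by
        rw [hCs j a b]; ring
    simp only [Sm, Finset.sum_mul, trace_sum, this, Finset.mul_sum]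
    exact Finset.sum_comm
  have h6 : ∀ a, 2 * ∑ j, ∑ i, (fun x => O x a) ⬝ᵥ ((B i * Xm D (U j) * B i) *ᵥ z a j) ≤
      25 / 2 + 1 / 2 * ∑ j, ∑ b, r b ^ 2 * C j a b ^ 2 := by
    intro a
    have b1 := cross hB (cross_moveD hU hUc hD) ((5 : ℝ) • fun x => O x a)
      fun j => (1 / 5 : ℝ) • z a j
    have b2 : (fun x => O x a) ⬝ᵥ (fun x => O x a) = 1 := by
      simpa [mul_apply, dotProduct] using congrFun (congrFun hO' a) a
    have b3 : ∀ j, z a j ⬝ᵥ z a j ≤ 25 * ∑ b, r b ^ 2 * C j a b ^ 2 := by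
      intro j
      rw [dotProduct_mulVec, vecMul_mulVec, hO', vecMul_one, Finset.mul_sum]
      refine Finset.sum_le_sum fun b _ => ?_
      have := mul_le_mul_of_nonneg_right (cross_al_sq (hr a) (hr b)) (sq_nonneg (C j a b))
      linarith
    have b4 := Finset.sum_le_sum fun j (_ : j ∈ Finset.univ) => b3 j
    simp only [mulVec_smul, smul_dotProduct, dotProduct_smul, smul_eq_mul, b2,
      ← Finset.mul_sum] at b1 b4
    rw [Finset.sum_comm]
    linarith
  simp only [h2, h3, cross_rank hB.symm (cross_Xm_symm hDs _)] at h1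
  rw [h1, h4, h5, Finset.sum_comm, Finset.mul_sum, Finset.mul_sum, ← Finset.sum_add_distrib]
  refine Finset.sum_le_sum fun a _ => ?_
  have := mul_le_mul_of_nonneg_left (h6 a) (pow_pos (hr a) 5).le
  rw [← Finset.mul_sum, ← Finset.mul_sum]
  linarith

end Pool.Agent.MS
end

-- part Pool.Agent.Lib.MP_e2be92_co.Boot
section

set_option autoImplicit false
open Matrix MeasureTheory

namespace Pool.Agent.MS

section Pointwise
variable {ι κ : Type} [Fintype ι] [Fintype κ]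

lemma boot_form_left {A : Matrix κ κ ℝ} (hA : Aᵀ = A) (u v : κ → ℝ) :
    u ⬝ᵥ (A *ᵥ v) = (A *ᵥ u) ⬝ᵥ v := by
  rw [dotProduct_mulVec, ← mulVec_transpose, hA]

lemma boot_form_sq {A : Matrix κ κ ℝ} (hA : Aᵀ = A) (u : κ → ℝ) :
    u ⬝ᵥ ((A * A) *ᵥ u) = (A *ᵥ u) ⬝ᵥ (A *ᵥ u) := by
  rw [← mulVec_mulVec, boot_form_left hA]

lemma boot_trace_rank (A C : Matrix κ κ ℝ) (u : κ → ℝ) :
    trace (A * vecMulVec u u * C) = u ⬝ᵥ ((C * A) *ᵥ u) := by
  rw [trace_mul_cycle, Matrix.mul_vecMulVec, trace_vecMulVec, dotProduct_comm]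

lemma boot_D2_symm {A Y : Matrix κ κ ℝ} (hA : Aᵀ = A) (hY : Yᵀ = Y) : (D2 A Y)ᵀ = D2 A Y := by
  simp only [D2, transpose_add, transpose_mul, hA, hY, Matrix.mul_assoc]
  rw [add_comm]

omit [Fintype κ] in
lemma boot_Xm_mulVec (B : ι → Matrix κ κ ℝ) (V : Matrix ι ι ℝ) (y : ι → ℝ) :
    Xm B (V *ᵥ y) = ∑ l, y l • Xm B (fun j => V j l) := by
  simp only [Xm, Matrix.mulVec, dotProduct, Finset.sum_smul, Finset.smul_sum, smul_smul]
  rw [Finset.sum_comm]
  exact Finset.sum_congr rfl fun l _ => Finset.sum_congr rfl fun j _ => by rw [mul_comm]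

lemma boot_Xm_D2 (B : ι → Matrix κ κ ℝ) (A : Matrix κ κ ℝ) (V : Matrix ι ι ℝ) (y : ι → ℝ) :
    Xm (fun l => D2 A (Xm B (fun j => V j l))) y = D2 A (Xm B (V *ᵥ y)) := by
  rw [boot_Xm_mulVec, Xm]
  simp only [D2, Finset.mul_sum, Finset.sum_mul, Matrix.mul_smul, Matrix.smul_mul, smul_add,
    Finset.sum_add_distrib]

lemma boot_trace_N {B : ι → Matrix κ κ ℝ} (hB : ∀ i, (B i)ᵀ = B i) {A : Matrix κ κ ℝ}
    (hA : Aᵀ = A) (u : κ → ℝ) :
    trace (Sm B (A * vecMulVec u u * A) * (A * A)) =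
      ∑ i, ((A * B i * A) *ᵥ u) ⬝ᵥ ((A * B i * A) *ᵥ u) := by
  rw [Sm, Finset.sum_mul, trace_sum]
  refine Finset.sum_congr rfl fun i _ => ?_
  have hs : (A * B i * A)ᵀ = A * B i * A := by
    simp only [transpose_mul, hA, hB i, Matrix.mul_assoc]
  rw [← boot_form_sq hs]
  have : B i * (A * vecMulVec u u * A) * B i * (A * A) =
      (B i * A) * vecMulVec u u * (A * B i * (A * A)) := by
    simp only [Matrix.mul_assoc]
  rw [this, boot_trace_rank]
  simp only [Matrix.mul_assoc]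

lemma boot_rank_symm {A : Matrix κ κ ℝ} (hA : Aᵀ = A) (u : κ → ℝ) :
    (A * vecMulVec u u * A)ᵀ = A * vecMulVec u u * A := by
  simp only [transpose_mul, hA, transpose_vecMulVec, Matrix.mul_assoc]

lemma boot_rank_nonneg {A : Matrix κ κ ℝ} (hA : Aᵀ = A) (u v : κ → ℝ) :
    0 ≤ v ⬝ᵥ ((A * vecMulVec u u * A) *ᵥ v) := by
  rw [← mulVec_mulVec, ← mulVec_mulVec, boot_form_left hA, vecMulVec_mulVec]
  simp only [dotProduct_smul, MulOpposite.smul_eq_mul_unop, MulOpposite.unop_op]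
  rw [dotProduct_comm u]
  exact mul_self_nonneg _

omit [Fintype κ] in
lemma boot_EM_symm {F : (ι → ℝ) → Matrix κ κ ℝ} (hF : ∀ g, (F g)ᵀ = F g) : (EM F)ᵀ = EM F := by
  ext a e
  simp only [EM, transpose_apply, Matrix.of_apply]
  congr 1
  funext g
  conv_lhs => rw [← hF g]
  rfl

lemma boot_EM_nonneg {F : (ι → ℝ) → Matrix κ κ ℝ}
    (hI : ∀ a e, Integrable (fun g => F g a e) (gam ι))
    (hF : ∀ g (v : κ → ℝ), 0 ≤ v ⬝ᵥ (F g *ᵥ v)) (v : κ → ℝ) : 0 ≤ v ⬝ᵥ (EM F *ᵥ v) := by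
  rw [EM_form hI]
  exact integral_nonneg fun g => hF g v

lemma boot_amgm (u v : κ → ℝ) : u ⬝ᵥ v ≤ (u ⬝ᵥ u + v ⬝ᵥ v) / 2 := by
  have h := dot_self_nonneg (u - v)
  simp only [sub_dotProduct, dotProduct_sub] at h
  rw [dotProduct_comm v u] at h
  linarith

lemma boot_form_X (B : ι → Matrix κ κ ℝ) (A : Matrix κ κ ℝ) (y : ι → ℝ) (u : κ → ℝ) :
    u ⬝ᵥ ((A * Xm B y * A) *ᵥ u) = ∑ i, (u ⬝ᵥ ((A * B i * A) *ᵥ u)) * y i := by
  simp only [Xm, Finset.mul_sum, Finset.sum_mul, Matrix.sum_mulVec, dotProduct_sum,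
    Matrix.mul_smul, Matrix.smul_mul, Matrix.smul_mulVec, dotProduct_smul, smul_eq_mul]
  exact Finset.sum_congr rfl fun i _ => mul_comm _ _

end Pointwise

variable {ι κ : Type} [Fintype ι] [DecidableEq ι] [Fintype κ] [DecidableEq κ]
variable {B : ι → Matrix κ κ ℝ} {b c : ℝ} {x : (ι → ℝ) → (ι → ℝ)}
  {R : (ι → ℝ) → Matrix κ κ ℝ} {U : (ι → ℝ) → Matrix ι ι ℝ}

omit [DecidableEq ι] in
lemma boot_G (hF : Fam B b c x R U) :
    MGood (fun g => R g * R g) (fun g l => D2 (R g) (Xm B (fun j => U g j l))) :=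
  hF.gR.mul hF.gR

omit [DecidableEq ι] in
lemma boot_hD (hF : Fam B b c x R U) (g y : ι → ℝ) :
    8 * c * fro (Xm (fun l => D2 (R g) (Xm B (fun j => U g j l))) y) ≤ y ⬝ᵥ y := by
  rw [boot_Xm_D2]
  exact hF.ud2 g y

omit [DecidableEq ι] in
lemma boot_hDs (hB : Setup B c) (hF : Fam B b c x R U) (g : ι → ℝ) (l : ι) :
    (D2 (R g) (Xm B (fun j => U g j l)))ᵀ = D2 (R g) (Xm B (fun j => U g j l)) :=
  boot_D2_symm (posDef_transpose_eq (hF.pos g)) (Xm_transpose hB.symm _)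

omit [DecidableEq ι] in
lemma boot_EG (hF : Fam B b c x R U)
    (hm : ∀ u : κ → ℝ, ∫ g, (R g *ᵥ u) ⬝ᵥ (R g *ᵥ u) ∂gam ι ≤ u ⬝ᵥ u) (u : κ → ℝ) :
    u ⬝ᵥ (EM (fun g => R g * R g) *ᵥ u) ≤ u ⬝ᵥ u := by
  rw [EM_form fun a e => (boot_G hF a e).integrable]
  simp only [boot_form_sq (posDef_transpose_eq (hF.pos _))]
  exact hm u

omit [DecidableEq ι] in
lemma boot_int_m (hF : Fam B b c x R U) (u : κ → ℝ) :
    Integrable (fun g => (R g *ᵥ u) ⬝ᵥ (R g *ᵥ u)) (gam ι) := by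
  have h := ((boot_G hF).form u u).integrable
  simpa only [boot_form_sq (posDef_transpose_eq (hF.pos _))] using h

omit [DecidableEq ι] in
lemma boot_rank_good (hF : Fam B b c x R U) (u : κ → ℝ) :
    MGood (fun g => R g * vecMulVec u u * R g)
      (fun g l => R g * Xm B (fun j => U g j l) * R g * vecMulVec u u * R g +
        R g * vecMulVec u u * (R g * Xm B (fun j => U g j l) * R g)) :=
  (hF.gR.mul_const (vecMulVec u u)).mul hF.gR

omit [DecidableEq ι] in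
lemma boot_int_N (hB : Setup B c) (hF : Fam B b c x R U) (u : κ → ℝ) :
    Integrable (fun g => ∑ i, ((R g * B i * R g) *ᵥ u) ⬝ᵥ ((R g * B i * R g) *ᵥ u)) (gam ι) := by
  have h := (((boot_rank_good hF u).Sm B).mul (boot_G hF)).trace.integrable
  simpa only [boot_trace_N hB.symm (posDef_transpose_eq (hF.pos _))] using h

lemma boot_N_le (hB : Setup B c) (hF : Fam B b c x R U)
    (hm : ∀ u : κ → ℝ, ∫ g, (R g *ᵥ u) ⬝ᵥ (R g *ᵥ u) ∂gam ι ≤ u ⬝ᵥ u) (u : κ → ℝ) :
    ∫ g, ∑ i, ((R g * B i * R g) *ᵥ u) ⬝ᵥ ((R g * B i * R g) *ᵥ u) ∂gam ι ≤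
      3 * ∫ g, (R g *ᵥ u) ⬝ᵥ (R g *ᵥ u) ∂gam ι := by
  have hs : ∀ g, (R g)ᵀ = R g := fun g => posDef_transpose_eq (hF.pos g)
  have i1 := boot_int_m hF u
  have i2 := boot_int_N hB hF u
  have h := mcov_le ((boot_rank_good hF u).Sm B) (boot_G hF)
    (W := fun g => ((R g *ᵥ u) ⬝ᵥ (R g *ᵥ u) +
      ∑ i, ((R g * B i * R g) *ᵥ u) ⬝ᵥ ((R g * B i * R g) *ᵥ u)) / 2)
    ((i1.add i2).div_const 2)
    (fun g g' => pw2 hB (hs g) (hF.usymm g) (hF.ucontr g) (boot_hDs hB hF g') (boot_hD hF g') u)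
  have hI : ∀ a e, Integrable (fun g => (R g * vecMulVec u u * R g) a e) (gam ι) :=
    fun a e => (boot_rank_good hF u a e).integrable
  rw [EM_Sm B hI, integral_div, integral_add i1 i2] at h
  simp only [boot_trace_N hB.symm (hs _)] at h
  have h2 := trace_Sm_mul_le hB (boot_EM_symm fun g => boot_rank_symm (hs g) u)
    (boot_EM_nonneg hI fun g v => boot_rank_nonneg (hs g) u v) (boot_EG hF hm)
  rw [EM_trace hI] at h2
  simp only [boot_trace_rank, boot_form_sq (hs _)] at h2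
  linarith

omit [DecidableEq ι] in
lemma boot_inv (hF : Fam B b c x R U) (g : ι → ℝ) (u : κ → ℝ) :
    b * ((R g *ᵥ u) ⬝ᵥ (R g *ᵥ u)) =
      u ⬝ᵥ (R g *ᵥ u) + ∑ i, (u ⬝ᵥ ((R g * B i * R g) *ᵥ u)) * x g i := by
  have hs : (R g)ᵀ = R g := posDef_transpose_eq (hF.pos g)
  have h : b • (R g * R g) = R g + R g * Xm B (x g) * R g := by
    have h1 := congrArg (· * R g) (hF.inv g)
    simp only [Matrix.mul_sub, Matrix.sub_mul, Matrix.mul_smul, Matrix.smul_mul, Matrix.mul_one,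
      Matrix.one_mul] at h1
    rw [sub_eq_iff_eq_add] at h1
    exact h1
  rw [← boot_form_X, ← boot_form_sq hs, ← dotProduct_add, ← add_mulVec, ← h, smul_mulVec,
    dotProduct_smul, smul_eq_mul]

theorem boot1 (hB : Setup B c) (hF : Fam B b c x R U)
    (hm : ∀ u : κ → ℝ, ∫ g, (R g *ᵥ u) ⬝ᵥ (R g *ᵥ u) ∂gam ι ≤ u ⬝ᵥ u) (u : κ → ℝ) :
    b * ∫ g, (R g *ᵥ u) ⬝ᵥ (R g *ᵥ u) ∂gam ι ≤ 5 * (u ⬝ᵥ u) := by
  have hs : ∀ g, (R g)ᵀ = R g := fun g => posDef_transpose_eq (hF.pos g)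
  have i1 := boot_int_m hF u
  have i2 := boot_int_N hB hF u
  have hf : ∀ i, Good (fun g => u ⬝ᵥ ((R g * B i * R g) *ᵥ u))
      (fun g l => u ⬝ᵥ ((R g * Xm B (fun j => U g j l) * R g * B i * R g +
        R g * B i * (R g * Xm B (fun j => U g j l) * R g)) *ᵥ u)) :=
    fun i => ((hF.gR.mul_const (B i)).mul hF.gR).form u u
  have h := cov_le hf hF.gx
    (W := fun g => (R g *ᵥ u) ⬝ᵥ (R g *ᵥ u) +
      ∑ i, ((R g * B i * R g) *ᵥ u) ⬝ᵥ ((R g * B i * R g) *ᵥ u)) (i1.add i2)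
    (fun g g' => pw1 hB (hs g) (hF.usymm g) (hF.ucontr g) (hF.usymm g') (hF.ucontr g') u)
  simp only [hF.mean, mul_zero, Finset.sum_const_zero, zero_add] at h
  rw [integral_add i1 i2] at h
  have i3 : Integrable (fun g => u ⬝ᵥ (R g *ᵥ u)) (gam ι) := (hF.gR.form u u).integrable
  have i4 : Integrable (fun g => ∑ i, (u ⬝ᵥ ((R g * B i * R g) *ᵥ u)) * x g i) (gam ι) :=
    (Good.sum Finset.univ fun i _ => (hf i).mul (hF.gx i)).integrable
  have h3 : ∫ g, u ⬝ᵥ (R g *ᵥ u) ∂gam ι ≤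
      ∫ g, (u ⬝ᵥ u + (R g *ᵥ u) ⬝ᵥ (R g *ᵥ u)) / 2 ∂gam ι :=
    integral_mono i3 (((integrable_const _).add i1).div_const 2) fun g => boot_amgm _ _
  rw [integral_div, integral_add (integrable_const _) i1, integral_const, probReal_univ,
    one_smul] at h3
  have h4 := boot_N_le hB hF hm u
  have h5 := hm u
  rw [← integral_const_mul]
  simp only [boot_inv hF]
  rw [integral_add i3 i4]
  linarith

omit [DecidableEq ι] in
lemma boot_five (hF : Fam B b c x R U) :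
    MGood (fun g => R g ^ 5) (fun g l => D5 (R g) (Xm B (fun j => U g j l))) := by
  refine ((((((hF.gR.mul hF.gR).mul hF.gR).mul hF.gR).mul hF.gR).congr_fun ?_).congr ?_)
  · intro g
    simp only [pow_succ, pow_zero, Matrix.one_mul]
  · intro g l
    simp only [D5, pow_succ, pow_zero, Matrix.one_mul, Matrix.add_mul, Matrix.mul_assoc]

theorem boot2 (hB : Setup B c) (hF : Fam B b c x R U)
    (hm : ∀ u : κ → ℝ, ∫ g, (R g *ᵥ u) ⬝ᵥ (R g *ᵥ u) ∂gam ι ≤ u ⬝ᵥ u) :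
    ∫ g, trace (Sm B (R g ^ 5) * (R g * R g)) ∂gam ι ≤ 27 * ∫ g, trace (R g ^ 5) ∂gam ι := by
  have hs : ∀ g, (R g)ᵀ = R g := fun g => posDef_transpose_eq (hF.pos g)
  have i1 : Integrable (fun g => trace (R g ^ 5)) (gam ι) := (boot_five hF).trace.integrable
  have i2 : Integrable (fun g => trace (Sm B (R g ^ 5) * (R g * R g))) (gam ι) :=
    (((boot_five hF).Sm B).mul (boot_G hF)).trace.integrable
  have h := mcov_le ((boot_five hF).Sm B) (boot_G hF)
    (W := fun g => 25 / 2 * trace (R g ^ 5) + 1 / 2 * trace (Sm B (R g ^ 5) * (R g * R g)))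
    ((i1.const_mul _).add (i2.const_mul _))
    (fun g g' => pw3 hB (hF.pos g) (hF.usymm g) (hF.ucontr g) (boot_hDs hB hF g')
      (boot_hD hF g'))
  have hI : ∀ a e, Integrable (fun g => (R g ^ 5) a e) (gam ι) :=
    fun a e => (boot_five hF a e).integrable
  rw [EM_Sm B hI, integral_add (i1.const_mul _) (i2.const_mul _), integral_const_mul,
    integral_const_mul] at h
  have h2 := trace_Sm_mul_le hB (M := EM fun g => R g ^ 5)
    (boot_EM_symm fun g => by rw [transpose_pow, hs g])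
    (boot_EM_nonneg hI fun g v => by
      have := ((hF.pos g).posSemidef.pow 5).dotProduct_mulVec_nonneg v
      simpa using this) (boot_EG hF hm)
  rw [EM_trace hI] at h2
  linarith

end Pool.Agent.MS
end

-- part Pool.Agent.Lib.MP_e2be92_co.Prox
section

set_option autoImplicit false
open Matrix Filter Topology

namespace Pool.Agent.MS

variable {ι κ : Type} [Fintype ι] [DecidableEq ι] [Fintype κ] [DecidableEq κ]

/-- Entrywise derivative of a matrix valued function at a point. -/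
def ProxMD (F : (ι → ℝ) → Matrix κ κ ℝ) (F' : ι → Matrix κ κ ℝ) (x : ι → ℝ) : Prop :=
  ∀ a e, HasFDerivAt (fun y => F y a e) (dotL fun l => F' l a e) x

section MD
omit [DecidableEq ι] [DecidableEq κ]
variable {F G : (ι → ℝ) → Matrix κ κ ℝ} {F' G' : ι → Matrix κ κ ℝ} {x : ι → ℝ}

theorem ProxMD.mul (hF : ProxMD F F' x) (hG : ProxMD G G' x) :
    ProxMD (fun y => F y * G y) (fun l => F' l * G x + F x * G' l) x := by
  intro a b
  simp only [Matrix.mul_apply, Matrix.add_apply]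
  refine (HasFDerivAt.fun_sum (fun e _ => (hF a e).mul (hG e b))).congr_fderiv ?_
  ext y
  simp only [dotL_apply, dotProduct, _root_.sum_apply, _root_.add_apply,
    _root_.smul_apply, smul_eq_mul, Finset.mul_sum, ← Finset.sum_add_distrib, Finset.sum_mul]
  rw [Finset.sum_comm]
  exact Finset.sum_congr rfl fun l _ => Finset.sum_congr rfl fun e _ => by ring

omit [Fintype κ] in
theorem ProxMD.const (M : Matrix κ κ ℝ) : ProxMD (fun _ : ι → ℝ => M) (fun _ => 0) x := by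
  intro a e
  convert hasFDerivAt_const (M a e) x using 1
  ext y; simp [dotProduct]

omit [Fintype κ] in
theorem ProxMD.congr (hF : ProxMD F F' x) (h1 : ∀ y, F y = G y) (h2 : ∀ l, F' l = G' l) :
    ProxMD G G' x := by
  rw [← funext h1, ← funext h2]; exact hF

theorem ProxMD.trace (hF : ProxMD F F' x) (c : ℝ) :
    HasFDerivAt (fun y => c * trace (F y)) (dotL fun l => c * trace (F' l)) x := by
  refine ((HasFDerivAt.fun_sum (u := Finset.univ) (fun a _ => hF a a)).const_mul c).congr_fderiv ?_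
  ext y
  simp only [dotL_apply, dotProduct, _root_.sum_apply, _root_.smul_apply,
    smul_eq_mul, Matrix.trace, Matrix.diag, Finset.mul_sum, Finset.sum_mul]
  rw [Finset.sum_comm]
  exact Finset.sum_congr rfl fun l _ => Finset.sum_congr rfl fun e _ => by ring

end MD

omit [DecidableEq ι] [Fintype κ] in
theorem prox_md_A (B : ι → Matrix κ κ ℝ) (b : ℝ) (x : ι → ℝ) :
    ProxMD (fun y => b • (1 : Matrix κ κ ℝ) - Xm B y) (fun l => - B l) x := by
  intro a e
  have : (fun y : ι → ℝ => (b • (1 : Matrix κ κ ℝ) - Xm B y) a e)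
      = fun y => (b • (1 : Matrix κ κ ℝ)) a e + dotL (fun l => (- B l) a e) y := by
    funext y
    simp [Xm, Matrix.sum_apply, dotProduct, mul_comm, sub_eq_add_neg]
  rw [this]
  exact (ContinuousLinearMap.hasFDerivAt _).const_add _

omit [DecidableEq ι] in
theorem prox_diff_det {F : (ι → ℝ) → Matrix κ κ ℝ} {x : ι → ℝ}
    (h : ∀ a e, DifferentiableAt ℝ (fun y => F y a e) x) :
    DifferentiableAt ℝ (fun y => (F y).det) x := by
  simp only [Matrix.det_apply']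
  refine DifferentiableAt.fun_sum fun σ _ => DifferentiableAt.const_mul ?_ _
  exact (HasFDerivAt.finsetProd fun i _ => (h (σ i) i).hasFDerivAt).differentiableAt

omit [DecidableEq ι] in
/-- Derivative of the entries of the resolvent. -/
theorem hasFDerivAt_Rm (B : ι → Matrix κ κ ℝ) (b : ℝ) (x : ι → ℝ)
    (hx : (b • (1 : Matrix κ κ ℝ) - Xm B x).PosDef) (a e : κ) :
    HasFDerivAt (fun y => Rm B b y a e) (dotL fun l => (Rm B b x * B l * Rm B b x) a e) x := by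
  classical
  have hA := prox_md_A B b x
  have hd := prox_diff_det fun a e => (hA a e).differentiableAt
  have h0 := hx.det_pos.ne'
  have hR : ∀ a e, DifferentiableAt ℝ (fun y => Rm B b y a e) x := by
    intro a e
    simp only [Rm, Matrix.inv_def, Ring.inverse_eq_inv', Matrix.smul_apply, smul_eq_mul,
      Matrix.adjugate_apply]
    refine (hd.fun_inv h0).fun_mul (prox_diff_det fun i j => ?_)
    simp only [Matrix.updateRow_apply]
    split_ifs
    · exact differentiableAt_const _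
    · exact (hA i j).differentiableAt
  have hM : ProxMD (Rm B b)
      (fun l => Matrix.of fun a e => fderiv ℝ (fun y => Rm B b y a e) x (Pi.single l 1)) x := by
    intro a e
    refine (hR a e).hasFDerivAt.congr_fderiv ?_
    ext y
    rw [dotL_apply, pi_eq_sum_univ' y, map_sum]
    simp [dotProduct, mul_comm, Pi.single_apply]
  have h1 := hM.mul hA
  have h2 : ∀ᶠ y in 𝓝 x, Rm B b y * (b • (1 : Matrix κ κ ℝ) - Xm B y) = 1 := by
    filter_upwards [hd.continuousAt.eventually_ne h0] with y hy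
    exact Matrix.nonsing_inv_mul _ (Ne.isUnit hy)
  have h3 : (b • (1 : Matrix κ κ ℝ) - Xm B x) * Rm B b x = 1 :=
    Matrix.mul_nonsing_inv _ (Ne.isUnit h0)
  refine hM.congr (fun _ => rfl) (fun l => ?_) a e
  set D : Matrix κ κ ℝ :=
    Matrix.of fun a e => fderiv ℝ (fun y => Rm B b y a e) x (Pi.single l 1) with hD
  have h4 : D * (b • (1 : Matrix κ κ ℝ) - Xm B x) + Rm B b x * (- B l) = 0 := by
    ext i j
    have h5 := (ProxMD.const (x := x) (1 : Matrix κ κ ℝ) i j).congr_of_eventuallyEq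
      (h2.mono fun y hy => congrFun (congrFun hy i) j)
    have h6 := congrArg (fun L => L (Pi.single l 1)) ((h1 i j).unique h5)
    simpa using h6
  calc D = D * ((b • (1 : Matrix κ κ ℝ) - Xm B x) * Rm B b x) := by rw [h3, mul_one]
    _ = _ := by rw [← mul_assoc, eq_neg_of_add_eq_zero_left h4]; simp

section Prox
variable {B : ι → Matrix κ κ ℝ} {b c : ℝ}

omit [DecidableEq ι] in
theorem prox_md_pow {x : ι → ℝ} (hx : (b • (1 : Matrix κ κ ℝ) - Xm B x).PosDef) :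
    HasFDerivAt (fun y => c * trace (Rm B b y ^ 4)) (dotL (Fv B c (Rm B b x))) x ∧
    HasFDerivAt (fun y => Fv B c (Rm B b y)) (matL (Hm B c (Rm B b x))) x := by
  have hR : ProxMD (Rm B b) (fun l => Rm B b x * B l * Rm B b x) x := hasFDerivAt_Rm B b x hx
  have h4 := ((hR.mul hR).mul hR).mul hR
  have h5 := h4.mul hR
  generalize hRx : Rm B b x = R at h4 h5
  constructor
  · refine ((h4.congr (G := fun y => Rm B b y ^ 4) (fun y => by simp [pow_succ])
      (fun _ => rfl)).trace c).congr_fderiv ?_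
    congr 1
    funext l
    have e1 : trace (R * B l * R * R * R * R) = trace (R ^ 5 * B l) := by
      rw [show R * B l * R * R * R * R = (R * B l) * (R * R * R * R) by noncomm_ring,
        trace_mul_comm]; congr 1; noncomm_ring
    have e2 : trace (R * (R * B l * R) * R * R) = trace (R ^ 5 * B l) := by
      rw [show R * (R * B l * R) * R * R = (R * R * B l) * (R * R * R) by noncomm_ring,
        trace_mul_comm]; congr 1; noncomm_ring
    have e3 : trace (R * R * (R * B l * R) * R) = trace (R ^ 5 * B l) := by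
      rw [show R * R * (R * B l * R) * R = (R * R * R * B l) * (R * R) by noncomm_ring,
        trace_mul_comm]; congr 1; noncomm_ring
    have e4 : trace (R * R * R * (R * B l * R)) = trace (R ^ 5 * B l) := by
      rw [show R * R * R * (R * B l * R) = (R * R * R * R * B l) * R by noncomm_ring,
        trace_mul_comm]; congr 1; noncomm_ring
    simp only [Fv, add_mul, trace_add, e1, e2, e3, e4]
    ring
  · refine hasFDerivAt_pi'.2 fun i => ?_
    have h6 := ((h5.mul (ProxMD.const (B i))).congr (G := fun y => Rm B b y ^ 5 * B i)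
      (G' := fun l => D5 R (B l) * B i) (fun y => by simp [pow_succ])
      (fun l => by simp only [D5]; noncomm_ring)).trace (4 * c)
    refine h6.congr_fderiv ?_
    ext y
    simp [Hm, Matrix.mulVec, dotProduct]

omit [DecidableEq ι] in
theorem prox_pos_iff (hB : Setup B c) (x : ι → ℝ) : (b • (1 : Matrix κ κ ℝ) - Xm B x).PosDef ↔
    ∀ u : κ → ℝ, u ≠ 0 → 0 < u ⬝ᵥ ((b • (1 : Matrix κ κ ℝ) - Xm B x) *ᵥ u) := by
  refine ⟨fun h u hu => by simpa using h.dotProduct_mulVec_pos hu, fun h =>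
    PosDef.of_dotProduct_mulVec_pos ?_ fun u hu => by simpa using h u hu⟩
  rw [IsHermitian, conjTranspose_eq_transpose_of_trivial, transpose_sub, Xm_transpose hB.symm]
  simp

omit [DecidableEq ι] in
theorem prox_cont (B : ι → Matrix κ κ ℝ) (b : ℝ) : Continuous fun z : (ι → ℝ) × (κ → ℝ) =>
    z.2 ⬝ᵥ ((b • (1 : Matrix κ κ ℝ) - Xm B z.1) *ᵥ z.2) := by
  simp only [Xm, dotProduct, Matrix.mulVec, Matrix.sub_apply, Matrix.sum_apply, Matrix.smul_apply,
    smul_eq_mul]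
  fun_prop

omit [DecidableEq ι] in
theorem prox_open (hB : Setup B c) {x : ι → ℝ} (hx : (b • (1 : Matrix κ κ ℝ) - Xm B x).PosDef) :
    ∀ᶠ y in 𝓝 x, (b • (1 : Matrix κ κ ℝ) - Xm B y).PosDef := by
  have h := (isCompact_sphere (0 : κ → ℝ) 1).eventually_forall_of_forall_eventually (x₀ := x)
    (P := fun y u => 0 < u ⬝ᵥ ((b • (1 : Matrix κ κ ℝ) - Xm B y) *ᵥ u)) (fun u hu =>
      (prox_cont B b).continuousAt.eventually (lt_mem_nhds ((prox_pos_iff hB x).1 hx u
        (by rintro rfl; simp at hu))))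
  filter_upwards [h] with y hy
  refine (prox_pos_iff hB y).2 fun u hu => ?_
  have h0 : 0 < ‖u‖ := norm_pos_iff.2 hu
  have h1 := hy (‖u‖⁻¹ • u) (by simp [norm_smul, h0.ne'])
  rw [Matrix.mulVec_smul, dotProduct_smul, smul_dotProduct, smul_eq_mul, smul_eq_mul] at h1
  exact (mul_pos_iff_of_pos_left (inv_pos.2 h0)).1 ((mul_pos_iff_of_pos_left (inv_pos.2 h0)).1 h1)

omit [DecidableEq ι] in
theorem prox_seg (hB : Setup B c) {x x' : ι → ℝ} (hx : (b • (1 : Matrix κ κ ℝ) - Xm B x).PosDef)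
    (hx' : (b • (1 : Matrix κ κ ℝ) - Xm B x').PosDef) {t : ℝ} (h0 : 0 ≤ t) (h1 : t ≤ 1) :
    (b • (1 : Matrix κ κ ℝ) - Xm B (x' + t • (x - x'))).PosDef := by
  refine (prox_pos_iff hB _).2 fun u hu => ?_
  have a1 := (prox_pos_iff hB x).1 hx u hu
  have a2 := (prox_pos_iff hB x').1 hx' u hu
  have e : b • (1 : Matrix κ κ ℝ) - Xm B (x' + t • (x - x'))
      = t • (b • (1 : Matrix κ κ ℝ) - Xm B x) + (1 - t) • (b • (1 : Matrix κ κ ℝ) - Xm B x') := by
    simp only [Xm, Pi.add_apply, Pi.smul_apply, Pi.sub_apply, smul_eq_mul, add_smul, mul_smul,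
      sub_smul, smul_sub, Finset.sum_add_distrib, Finset.sum_sub_distrib, ← Finset.smul_sum,
      one_smul]
    abel
  rw [e, add_mulVec, smul_mulVec, smul_mulVec, dotProduct_add, dotProduct_smul, dotProduct_smul,
    smul_eq_mul, smul_eq_mul]
  rcases h0.eq_or_lt with h | h
  · rw [← h]; simpa using a2
  · have := mul_pos h a1
    have := mul_nonneg (sub_nonneg.2 h1) a2.le
    linarith

omit [DecidableEq ι] in
theorem prox_mono (hB : Setup B c) {x x' : ι → ℝ} (hx : (b • (1 : Matrix κ κ ℝ) - Xm B x).PosDef)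
    (hx' : (b • (1 : Matrix κ κ ℝ) - Xm B x').PosDef) :
    0 ≤ (x - x') ⬝ᵥ (Fv B c (Rm B b x) - Fv B c (Rm B b x')) := by
  have hd : ∀ t : ℝ, 0 ≤ t → t ≤ 1 →
      HasDerivAt (fun s : ℝ => (x - x') ⬝ᵥ Fv B c (Rm B b (x' + s • (x - x'))))
        ((x - x') ⬝ᵥ (Hm B c (Rm B b (x' + t • (x - x'))) *ᵥ (x - x'))) t := by
    intro t h0 h1
    have a1 : HasDerivAt (fun s : ℝ => x' + s • (x - x')) (x - x') t := by
      simpa using ((hasDerivAt_id t).smul_const (x - x')).const_add x'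
    have a2 := (prox_md_pow (c := c) (prox_seg hB hx hx' h0 h1)).2.comp_hasDerivAt t a1
    have a3 := (dotL (x - x')).hasFDerivAt.comp_hasDerivAt t a2
    simpa [Function.comp_def] using a3
  obtain ⟨t, ht, e⟩ := exists_hasDerivAt_eq_slope _ _ (zero_lt_one' ℝ)
    (fun t ht => (hd t ht.1 ht.2).continuousAt.continuousWithinAt)
    (fun t ht => hd t ht.1.le ht.2.le)
  have h := Hm_nonneg hB (prox_seg hB hx hx' ht.1.le ht.2.le).inv (x - x')
  rw [dotProduct_sub]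
  simp only [one_smul, zero_smul, add_sub_cancel, add_zero, sub_zero, div_one] at e
  rw [← e]; exact h

omit [DecidableEq ι] in
theorem prox_neg (hB : Setup B c) {x : ι → ℝ} (hx : (b • (1 : Matrix κ κ ℝ) - Xm B x).PosDef) :
    (b • (1 : Matrix κ κ ℝ) - Xm B (-x)).PosDef ∧
      Fv B c (Rm B b (-x)) = - Fv B c (Rm B b x) := by
  obtain ⟨Q, hQ, hf⟩ := hB.flip
  have hQ' : Qᵀ * Q = 1 := mul_eq_one_comm.1 hQ
  have e1 : b • (1 : Matrix κ κ ℝ) - Xm B (-x) = Q * (b • (1 : Matrix κ κ ℝ) - Xm B x) * Qᵀ := by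
    simp only [Xm, mul_sub, sub_mul, Matrix.mul_smul, Matrix.smul_mul, mul_one, hQ, Finset.mul_sum,
      Finset.sum_mul, hf, Pi.neg_apply, neg_smul, smul_neg]
  have h3 : (b • (1 : Matrix κ κ ℝ) - Xm B x) * Rm B b x = 1 :=
    Matrix.mul_nonsing_inv _ (Ne.isUnit hx.det_pos.ne')
  have e2 : Rm B b (-x) = Q * Rm B b x * Qᵀ := by
    rw [Rm, e1]
    refine Matrix.inv_eq_right_inv ?_
    calc _ = Q * ((b • (1 : Matrix κ κ ℝ) - Xm B x) * (Qᵀ * Q) * Rm B b x) * Qᵀ := by noncomm_ring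
      _ = 1 := by rw [hQ', mul_one, h3, mul_one, hQ]
  constructor
  · refine (prox_pos_iff hB _).2 fun u hu => ?_
    have := (prox_pos_iff hB x).1 hx (Qᵀ *ᵥ u) (fun h => hu (by
      have := congrArg (fun v => Q *ᵥ v) h
      simpa [hQ] using this))
    rw [e1, ← mulVec_mulVec, ← mulVec_mulVec, dotProduct_mulVec, ← mulVec_transpose]
    exact this
  · funext i
    generalize Rm B b x = R at e2
    have e3 : Qᵀ * B i * Q = - B i := by
      have : Qᵀ * (Q * B i * Qᵀ) * Q = B i := by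
        calc _ = (Qᵀ * Q) * B i * (Qᵀ * Q) := by noncomm_ring
          _ = _ := by rw [hQ', one_mul, mul_one]
      rw [hf, mul_neg, neg_mul] at this
      exact neg_eq_iff_eq_neg.1 this
    have e4 : (Q * R * Qᵀ) ^ 5 = Q * R ^ 5 * Qᵀ := by
      calc _ = Q * (R * (Qᵀ * Q) * R * (Qᵀ * Q) * R * (Qᵀ * Q) * R * (Qᵀ * Q) * R) * Qᵀ := by
            noncomm_ring
        _ = _ := by rw [hQ']; noncomm_ring
    simp only [Fv, e2, e4, Pi.neg_apply]
    rw [show Q * R ^ 5 * Qᵀ * B i = Q * (R ^ 5 * Qᵀ * B i) by noncomm_ring, trace_mul_comm,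
      show R ^ 5 * Qᵀ * B i * Q = R ^ 5 * (Qᵀ * B i * Q) by noncomm_ring, e3]
    simp

theorem prox_trace_ge {A : Matrix κ κ ℝ} (hA : A.PosDef) {δ : ℝ} {u : κ → ℝ}
    (hu : u ⬝ᵥ (A *ᵥ u) < δ * (u ⬝ᵥ u)) : (δ⁻¹) ^ 4 ≤ trace (A⁻¹ ^ 4) := by
  obtain ⟨O, r, h1, h2, hr, rfl⟩ := spectral_posDef A hA
  have e1 : (O * diagonal r * Oᵀ)⁻¹ = O * diagonal (fun a => (r a)⁻¹) * Oᵀ := by
    refine Matrix.inv_eq_right_inv ?_
    calc _ = O * (diagonal r * (Oᵀ * O) * diagonal (fun a => (r a)⁻¹)) * Oᵀ := by noncomm_ring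
      _ = 1 := by
        rw [h2, mul_one, diagonal_mul_diagonal]
        simp [(hr _).ne', h1]
  have e2 : ∀ D : Matrix κ κ ℝ, trace ((O * D * Oᵀ) ^ 4) = trace (D ^ 4) := by
    intro D
    rw [show (O * D * Oᵀ) ^ 4 = O * (D * (Oᵀ * O) * D * (Oᵀ * O) * D * (Oᵀ * O) * D * Oᵀ) by
      noncomm_ring, trace_mul_comm, mul_assoc, h2]
    congr 1; noncomm_ring
  obtain ⟨a, ha⟩ : ∃ a, r a < δ := by
    by_contra hc
    push Not at hc
    have e3 : u ⬝ᵥ u = (Oᵀ *ᵥ u) ⬝ᵥ (Oᵀ *ᵥ u) := by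
      rw [dotProduct_mulVec, vecMul_transpose, mulVec_mulVec, h1, one_mulVec]
    rw [← mulVec_mulVec, ← mulVec_mulVec, dotProduct_mulVec, ← mulVec_transpose, e3] at hu
    generalize Oᵀ *ᵥ u = v at hu
    refine absurd hu (not_lt.2 ?_)
    simp only [dotProduct, mulVec_diagonal, Finset.mul_sum]
    exact Finset.sum_le_sum fun i _ => by nlinarith [hc i, mul_self_nonneg (v i)]
  rw [e1, e2, diagonal_pow, trace_diagonal]
  refine le_trans ?_ (Finset.single_le_sum (f := fun i => ((fun a => (r a)⁻¹) ^ 4) i)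
    (fun i _ => by have := hr i; simp only [Pi.pow_apply]; positivity) (Finset.mem_univ a))
  have := hr a
  have := this.trans ha
  simp only [Pi.pow_apply]
  gcongr

omit [DecidableEq ι] in
theorem prox_surj (hB : Setup B c) (hb : 0 < b) (g : ι → ℝ) :
    ∃ x, (b • (1 : Matrix κ κ ℝ) - Xm B x).PosDef ∧ x + Fv B c (Rm B b x) = g := by
  classical
  have hc := hB.cpos
  set Φ : (ι → ℝ) → ℝ := fun x => (x - g) ⬝ᵥ (x - g) / 2 + c * trace (Rm B b x ^ 4) with hΦ
  have hd : ∀ x, (b • (1 : Matrix κ κ ℝ) - Xm B x).PosDef →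
      HasFDerivAt Φ (dotL (x - g + Fv B c (Rm B b x))) x := by
    intro x hx
    have a1 : HasFDerivAt (fun x : ι → ℝ => (x - g) ⬝ᵥ (x - g) / 2) (dotL (x - g)) x := by
      have a2 : ∀ i, HasFDerivAt (fun x : ι → ℝ => x i - g i)
          (ContinuousLinearMap.proj i : (ι → ℝ) →L[ℝ] ℝ) x :=
        fun i => (hasFDerivAt_apply i x).sub_const _
      refine ((HasFDerivAt.fun_sum (u := Finset.univ) fun i _ => (a2 i).mul (a2 i)).mul_const
        (2⁻¹ : ℝ)).congr_fderiv ?_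
      ext y
      simp only [dotL_apply, dotProduct, _root_.sum_apply, _root_.add_apply,
        _root_.smul_apply, smul_eq_mul, Finset.mul_sum, ContinuousLinearMap.proj_apply,
        Pi.sub_apply]
      exact Finset.sum_congr rfl fun l _ => by ring
    refine (a1.add (prox_md_pow hx).1).congr_fderiv ?_
    ext y; simp [add_dotProduct]
  have hV : ∀ x, (b • (1 : Matrix κ κ ℝ) - Xm B x).PosDef → 0 ≤ c * trace (Rm B b x ^ 4) :=
    fun x hx => mul_nonneg hc.le (trace_pow_nonneg hx.inv 4)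
  have hz : ∀ u : κ → ℝ, u ⬝ᵥ ((b • (1 : Matrix κ κ ℝ) - Xm B 0) *ᵥ u) = b * (u ⬝ᵥ u) := by
    intro u; simp [Xm, smul_mulVec]
  have hpos : ∀ u : κ → ℝ, u ≠ 0 → 0 < u ⬝ᵥ u := fun u hu =>
    (dot_self_nonneg u).lt_of_ne' (fun h => hu (dotProduct_self_eq_zero.1 h))
  have h0 : (b • (1 : Matrix κ κ ℝ) - Xm B 0).PosDef :=
    (prox_pos_iff hB 0).2 fun u hu => by rw [hz]; exact mul_pos hb (hpos u hu)
  have hΦ0 : 0 ≤ Φ 0 := add_nonneg (div_nonneg (dot_self_nonneg _) zero_le_two) (hV 0 h0)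
  obtain ⟨δ, d0, d1, d2⟩ : ∃ δ : ℝ, 0 < δ ∧ δ ≤ b ∧ Φ 0 ≤ c * (δ⁻¹) ^ 4 := by
    refine ⟨(1 + b⁻¹ + Φ 0 / c)⁻¹, by positivity, ?_, ?_⟩
    · rw [inv_le_comm₀ (by positivity) hb]
      have : 0 ≤ Φ 0 / c := by positivity
      linarith
    · rw [inv_inv, ← div_le_iff₀' hc]
      have a1 : 0 ≤ Φ 0 / c := by positivity
      have a2 : 0 < b⁻¹ := by positivity
      exact le_trans (by linarith) (le_self_pow₀ (by linarith) (by norm_num))
  set C : Set (ι → ℝ) := {x | (x - g) ⬝ᵥ (x - g) ≤ 2 * Φ 0 ∧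
    ∀ u : κ → ℝ, δ * (u ⬝ᵥ u) ≤ u ⬝ᵥ ((b • (1 : Matrix κ κ ℝ) - Xm B x) *ᵥ u)} with hC
  have hCK : ∀ x ∈ C, (b • (1 : Matrix κ κ ℝ) - Xm B x).PosDef := fun x hx =>
    (prox_pos_iff hB x).2 fun u hu => (mul_pos d0 (hpos u hu)).trans_le (hx.2 u)
  have hC0 : (0 : ι → ℝ) ∈ C := by
    refine ⟨?_, fun u => ?_⟩
    · have := hV 0 h0
      simp only [hΦ]; linarith
    · rw [hz]; exact mul_le_mul_of_nonneg_right d1 (dot_self_nonneg u)
  have hCc : IsCompact C := by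
    refine Metric.isCompact_of_isClosed_isBounded ?_ ?_
    · refine IsClosed.inter (isClosed_le
        (continuous_dot_self.comp (continuous_id.sub continuous_const)) continuous_const) ?_
      have := isClosed_iInter fun u : κ → ℝ => isClosed_le (continuous_const (y := δ * (u ⬝ᵥ u)))
        ((prox_cont B b).comp (continuous_id.prodMk (continuous_const (y := u))))
      rw [← Set.ofPred_forall] at this
      exact this
    · refine (Metric.isBounded_closedBall (x := g) (r := 1 + 2 * Φ 0)).subset fun x hx => ?_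
      rw [mem_closedBall_iff_norm, pi_norm_le_iff_of_nonneg (by positivity)]
      intro i
      have a1 := (sq_le_dot (x - g) i).trans hx.1
      rw [Real.norm_eq_abs, abs_le]
      constructor <;> nlinarith [sq_nonneg ((x - g) i + 1), sq_nonneg ((x - g) i - 1)]
  obtain ⟨x, hx, hmin⟩ := hCc.exists_isMinOn ⟨0, hC0⟩
    (fun x hx => (hd x (hCK x hx)).continuousAt.continuousWithinAt)
  have hloc : IsLocalMin Φ x := by
    filter_upwards [prox_open hB (hCK x hx)] with y hy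
    by_cases hyC : y ∈ C
    · exact hmin hyC
    refine (hmin hC0).trans ?_
    have a1 := hV y hy
    have a2 := dot_self_nonneg (y - g)
    rcases not_and_or.1 hyC with h | h
    · have : Φ y = (y - g) ⬝ᵥ (y - g) / 2 + c * trace (Rm B b y ^ 4) := rfl
      linarith [not_le.1 h]
    · obtain ⟨u, hu⟩ := not_forall.1 h
      have a3 := mul_le_mul_of_nonneg_left (prox_trace_ge hy (not_le.1 hu)) hc.le
      have : Φ y = (y - g) ⬝ᵥ (y - g) / 2 + c * trace ((b • (1 : Matrix κ κ ℝ) - Xm B y)⁻¹ ^ 4) :=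
        rfl
      linarith
  refine ⟨x, hCK x hx, ?_⟩
  have h := hloc.hasFDerivAt_eq_zero (hd x (hCK x hx))
  funext i
  have := congrArg (fun L => L (Pi.single i 1)) h
  simp only [dotL_apply, dotProduct_single, mul_one, Pi.add_apply, Pi.sub_apply,
    _root_.zero_apply] at this
  simp only [Pi.add_apply]
  linarith

end Prox

/-- Existence of the prox map of the barrier `c * trace (R ^ 4)`. -/
theorem exists_prox {B : ι → Matrix κ κ ℝ} {b c : ℝ} (hB : Setup B c) (hb : 0 < b) :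
    ∃ T : (ι → ℝ) → (ι → ℝ), IsProx B b c T := by
  choose T h1 h2 using prox_surj hB hb
  have lip : ∀ x x', (b • (1 : Matrix κ κ ℝ) - Xm B x).PosDef →
      (b • (1 : Matrix κ κ ℝ) - Xm B x').PosDef → (x - x') ⬝ᵥ (x - x') ≤
        ((x + Fv B c (Rm B b x)) - (x' + Fv B c (Rm B b x'))) ⬝ᵥ
          ((x + Fv B c (Rm B b x)) - (x' + Fv B c (Rm B b x'))) := by
    intro x x' hx hx'
    have a1 := prox_mono hB hx hx'
    rw [add_sub_add_comm]
    generalize x - x' = y at a1 ⊢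
    generalize Fv B c (Rm B b x) - Fv B c (Rm B b x') = z at a1 ⊢
    have a2 := dot_self_nonneg z
    rw [add_dotProduct, dotProduct_add, dotProduct_add, dotProduct_comm z y]
    linarith
  have odd : ∀ g, T (-g) = - T g := by
    intro g
    obtain ⟨n1, n2⟩ := prox_neg hB (h1 g)
    have a1 := lip _ _ (h1 (-g)) n1
    rw [h2, n2, ← neg_add, h2, sub_self, zero_dotProduct] at a1
    exact sub_eq_zero.1 (dotProduct_self_eq_zero.1 (le_antisymm a1 (dot_self_nonneg _)))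
  have T0 : T 0 = 0 := by
    have := odd 0
    rw [neg_zero] at this
    funext i
    have := congrFun this i
    simp only [Pi.neg_apply, Pi.zero_apply] at this ⊢
    linarith
  refine ⟨T, h1, h2, fun g => ?_, odd, fun g => ?_⟩
  · have a1 := prox_mono hB (h1 g) (h1 0)
    have a2 := h2 0
    rw [T0, zero_add] at a2
    rwa [T0, a2, sub_zero, sub_zero] at a1
  · have hc : ContinuousAt T g := by
      refine continuousAt_pi.2 fun i => tendsto_iff_norm_sub_tendsto_zero.2 ?_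
      have a1 : Tendsto (fun g' => Real.sqrt ((g' - g) ⬝ᵥ (g' - g))) (𝓝 g) (𝓝 0) := by
        have := ((continuous_dot_self.comp
          (continuous_id.sub (continuous_const (y := g)))).sqrt).tendsto g
        simpa [Function.comp_def] using this
      refine squeeze_zero (fun _ => norm_nonneg _) (fun g' => ?_) a1
      have a2 := lip _ _ (h1 g') (h1 g)
      rw [h2, h2] at a2
      exact Real.abs_le_sqrt ((sq_le_dot (T g' - T g) i).trans a2)
    have hR : (Rm B b (T g)).PosDef := (h1 g).inv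
    have hS : HasFDerivAt (fun x => x + Fv B c (Rm B b x))
        (matL (1 + Hm B c (Rm B b (T g)))) (T g) := by
      refine ((hasFDerivAt_id (T g)).add (prox_md_pow (h1 g)).2).congr_fderiv ?_
      ext y i; simp [add_mulVec]
    exact HasFDerivAt.of_local_left_inverse
      (f' := ContinuousLinearEquiv.equivOfInverse (matL (1 + Hm B c (Rm B b (T g))))
        (matL (Pm B c (Rm B b (T g))))
        (fun y => by simp only [matL_apply, mulVec_mulVec]; rw [Pm_mul hB hR, one_mulVec])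
        (fun y => by simp only [matL_apply, mulVec_mulVec]; rw [mul_Pm hB hR, one_mulVec]))
      hc hS (Eventually.of_forall h2)

end Pool.Agent.MS
end
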